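import Mathlib

/-!
# Quantum SU(N) invariants of manifolds obtained by surgery on chains of unknots
-/

set_option autoImplicit false

open Finset

namespace WRT

/-- The colours of the quantum SU(N) invariant at r = k + N: the vectors l = λ + ρ for the dominant
weights λ of SU(N) of level at most k, written as r > l 0 > l 1 > ... > l (N-1) = 0
(weights of SU(N) are integer vectors modulo the all-ones vector). For N = 2 they are the vectors
(l, 0) with 0 < l < r, where l is the dimension of the module. -/
def colours (N r : ℕ) : Finset (Fin N → ℕ) :=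
  (Fintype.piFinset fun _ : Fin N => Finset.range r).filter
    fun l => StrictAnti l ∧ ∀ i : Fin N, (i : ℕ) + 1 = N → l i = 0

/-- The half sum of positive roots ρ, as the colour (N-1, ..., 1, 0) of the trivial module. -/
def rho (N : ℕ) : Fin N → ℕ := fun i => N - 1 - (i : ℕ)

/-- The inner product on weights of SU(N) for which roots have squared length 2. -/
noncomputable def ip {N : ℕ} (l m : Fin N → ℕ) : ℝ :=
  ∑ i, (l i : ℝ) * (m i : ℝ) - (∑ i, (l i : ℝ)) * (∑ i, (m i : ℝ)) / N

/-- The (unnormalised) S-matrix: alternating sum over the Weyl group S_N of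
exp (-2 π i (w l, m) / r). -/
noncomputable def smat {N : ℕ} (r : ℕ) (l m : Fin N → ℕ) : ℂ :=
  ∑ w : Equiv.Perm (Fin N), ((Equiv.Perm.sign w : ℤ) : ℂ) *
    Complex.exp (-(2 * Real.pi * Complex.I) * (ip (l ∘ w) m : ℂ) / r)

/-- The twist exp (π i ((l, l) - (ρ, ρ)) / r): the effect of a positive full twist. -/
noncomputable def twist {N : ℕ} (r : ℕ) (l : Fin N → ℕ) : ℂ :=
  Complex.exp (Real.pi * Complex.I * ((ip l l - ip (rho N) (rho N) : ℝ) : ℂ) / r)

/-- The invariant of the 0-framed Hopf link coloured by l and m. -/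
noncomputable def hopf {N : ℕ} (r : ℕ) (l m : Fin N → ℕ) : ℂ :=
  smat r l m / smat r (rho N) (rho N)

/-- The quantum dimension, i.e. the invariant of the 0-framed unknot coloured by l. -/
noncomputable def qdim {N : ℕ} (r : ℕ) (l : Fin N → ℕ) : ℂ := hopf r l (rho N)

/-- The surgery sums C_+ (e = 1) and C_- (e = -1) of the unknots with framing 1 and -1. -/
noncomputable def gauss (N r : ℕ) (e : ℤ) : ℂ := ∑ l ∈ colours N r, qdim r l ^ 2 * twist r l ^ e

/-- The total dimension D, the positive square root of the sum of the squares of the (real)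
quantum dimensions. -/
noncomputable def dtot (N r : ℕ) : ℝ := Real.sqrt (∑ l ∈ colours N r, ‖qdim r l‖ ^ 2)

/-- For a chain of unknots with framings a = [a_1, ..., a_n], consecutive ones linked once,
chainSum r a (rho N) is the sum over all colourings l_1, ..., l_n of
qdim l_1 * ... * qdim l_n * J(l_1, ..., l_n), J the coloured framed link invariant of the chain. Since
J = (∏ twist l_i ^ a_i) * (∏_{i<n} hopf l_i l_(i+1)) / (∏_{1<i<n} qdim l_i), this is the sum of
hopf ρ l_1 * twist l_1 ^ a_1 * hopf l_1 l_2 * twist l_2 ^ a_2 * ... * twist l_n ^ a_n * hopf l_n ρ. -/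
noncomputable def chainSum {N : ℕ} (r : ℕ) : List ℤ → (Fin N → ℕ) → ℂ
  | [], l => hopf r l (rho N)
  | a :: as, l => ∑ m ∈ colours N r, hopf r l m * twist r m ^ a * chainSum r as m

/-- The linking matrix of the chain of unknots with framings a. -/
def linking (a : List ℤ) : Matrix (Fin a.length) (Fin a.length) ℝ :=
  Matrix.of fun i j => if i = j then ((a.get i : ℤ) : ℝ)
    else if (i : ℕ) + 1 = j ∨ (j : ℕ) + 1 = i then 1 else 0

theorem linking_symm (a : List ℤ) : (linking a).IsHermitian := by
  ext i j
  by_cases h : i = j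
  · subst h; simp [linking]
  · have h' : ¬ j = i := fun e => h e.symm
    simp [linking, h, h', or_comm]

/-- The number of positive eigenvalues of the linking matrix. -/
noncomputable def bplus (a : List ℤ) : ℕ := Fintype.card {i // 0 < (linking_symm a).eigenvalues i}

/-- The number of negative eigenvalues of the linking matrix. -/
noncomputable def bminus (a : List ℤ) : ℕ := Fintype.card {i // (linking_symm a).eigenvalues i < 0}

/-- The number of zero eigenvalues of the linking matrix. -/
noncomputable def bzero (a : List ℤ) : ℕ := Fintype.card {i // (linking_symm a).eigenvalues i = 0}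

/-- The Reshetikhin-Turaev quantum SU(N) invariant at r = k + N of the closed oriented 3-manifold
obtained from S^3 by surgery along the chain with framings a, normalised to be 1 on S^3:
C_+ ^ (-b_+) * C_- ^ (-b_-) * D ^ (-b_0) * chainSum. It is D on S^1 x S^2, the manifold of the
chain [0]. -/
noncomputable def tau (N r : ℕ) (a : List ℤ) : ℂ :=
  gauss N r 1 ^ (-(bplus a : ℤ)) * gauss N r (-1) ^ (-(bminus a : ℤ)) *
    (dtot N r : ℂ) ^ (-(bzero a : ℤ)) * chainSum r a (rho N)

/-- The pair (p, q) with p / q = a_1 - 1 / (a_2 - 1 / (... - 1 / a_n)): surgery along the chain with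
framings a_1, ..., a_n gives the lens space L(p,q), up to orientation. -/
def chainFraction : List ℤ → ℤ × ℤ
  | [] => (1, 0)
  | a :: as => (a * (chainFraction as).1 - (chainFraction as).2, (chainFraction as).1)

/-- The sequence Z has the asymptotic expansion of the conjecture with phases c 0, ..., c m: there are
rational d j, rational I j, positive v j and complex a j e (e ≥ 1) such that for every E the distance of
Z r to the sum over j of v j * exp (2 π i (r c_j + I_j / 8)) * r ^ d_j * (1 + ∑_{e=1}^E a_{j,e} r ^ (-e))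
is at most C_E * r ^ (max d - E - 1) for every integer r ≥ 2. -/
def HasExpansion (Z : ℕ → ℂ) (m : ℕ) (c : Fin (m + 1) → ℝ) : Prop :=
  ∃ (d I : Fin (m + 1) → ℚ) (v : Fin (m + 1) → ℝ) (a : Fin (m + 1) → ℕ → ℂ), (∀ j, 0 < v j) ∧
    ∀ E : ℕ, ∃ C : ℝ, ∀ r : ℕ, 2 ≤ r →
      ‖Z r - ∑ j, (v j : ℂ) * Complex.exp (2 * Real.pi * Complex.I * (r * (c j : ℂ) + (I j : ℂ) / 8)) *
          (((r : ℝ) ^ (d j : ℝ) : ℝ) : ℂ) * (1 + ∑ e ∈ Finset.Icc 1 E, a j e * ((r : ℂ) ^ e)⁻¹)‖ ≤
        C * (r : ℝ) ^ (((Finset.univ.sup' Finset.univ_nonempty d : ℚ) : ℝ) - E - 1)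

end WRT
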