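import Mathlib
import Pool.Agent.Helper427.Recip
import Pool.Agent.Helper427.WRTDefs
set_option autoImplicit false
open Finset
open scoped Real

namespace SU2
open WRT

/-! N = 2 -/

def V (l : ℕ) : Fin 2 → ℕ := ![l, 0]

lemma sum_colours2 (r : ℕ) {M : Type*} [AddCommMonoid M] (f : (Fin 2 → ℕ) → M) :
    ∑ l ∈ colours 2 r, f l = ∑ l ∈ Finset.Ico 1 r, f (V l) := by
  symm
  refine Finset.sum_bij (fun l _ => V l) ?_ ?_ ?_ ?_
  · intro l hl
    rw [Finset.mem_Ico] at hl
    simp only [colours, mem_filter, Fintype.mem_piFinset, mem_range]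
    refine ⟨?_, ?_, ?_⟩
    · intro i; fin_cases i
      · exact hl.2
      · simp [V]; omega
    · rw [Fin.strictAnti_iff_succ_lt]
      intro i
      fin_cases i
      simp [V]; omega
    · intro i hi
      fin_cases i <;> simp [V] at hi ⊢
  · intro a _ b _ h
    simpa [V] using congrFun h 0
  · intro l hl
    simp only [colours, mem_filter, Fintype.mem_piFinset, mem_range] at hl
    obtain ⟨h1, h2, h3⟩ := hl
    have h4 : l 1 = 0 := h3 1 rfl
    refine ⟨l 0, ?_, ?_⟩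
    · rw [Finset.mem_Ico]
      have := h2 (show (0 : Fin 2) < 1 by decide)
      exact ⟨by omega, h1 0⟩
    · ext i; fin_cases i
      · rfl
      · simp [V, h4]
  · intro l _; rfl

lemma rho2 : rho 2 = V 1 := by
  ext i; fin_cases i <;> rfl

lemma smat2 (r l m : ℕ) : smat r (V l) (V m) = -2 * Complex.I * Complex.sin (π * (l * m) / r) := by
  rw [smat, show (Finset.univ : Finset (Equiv.Perm (Fin 2))) = {1, Equiv.swap 0 1} by decide]
  rw [Finset.sum_pair (by decide)]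
  simp [ip, V, Fin.sum_univ_two]
  rw [Complex.sin]
  ring_nf
  simp
  ring_nf

lemma twist2 (r l : ℕ) : twist r (V l) = Complex.exp (π * Complex.I * ((l : ℂ) ^ 2 - 1) / (2 * r)) := by
  rw [twist, rho2]
  congr 1
  simp [ip, V, Fin.sum_univ_two]
  ring

lemma sin_pi_div_pos (r : ℕ) (hr : 2 ≤ r) : 0 < Real.sin (π / r) := by
  apply Real.sin_pos_of_pos_of_lt_pi
  · have : (0 : ℝ) < r := by exact_mod_cast (by omega : 0 < r)
    positivity
  · have : (1 : ℝ) < r := by exact_mod_cast (by omega : 1 < r)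
    exact div_lt_self Real.pi_pos this

/-- the complex number sin(π/r) -/
noncomputable def s1 (r : ℕ) : ℂ := Complex.sin (π / r)

lemma s1_ne (r : ℕ) (hr : 2 ≤ r) : s1 r ≠ 0 := by
  have h := sin_pi_div_pos r hr
  have : s1 r = ((Real.sin (π / r) : ℝ) : ℂ) := by rw [s1]; push_cast; rfl
  rw [this]
  exact_mod_cast h.ne'

lemma hopf2 (r l m : ℕ) : hopf r (V l) (V m) = Complex.sin (π * (l * m) / r) / s1 r := by
  rw [hopf, rho2, smat2, smat2, s1]
  have : (-2 * Complex.I) ≠ 0 := by simp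
  rw [mul_div_mul_left _ _ this]
  congr 2
  simp

lemma qdim2 (r l : ℕ) : qdim r (V l) = Complex.sin (π * l / r) / s1 r := by
  rw [qdim, rho2, hopf2]; simp

/-! Quadratic exponential sums over a full period. -/

/-- e(x) = exp(π i x) -/
noncomputable def e (x : ℂ) : ℂ := Complex.exp (π * Complex.I * x)

lemma e_add (x y : ℂ) : e (x + y) = e x * e y := by
  rw [e, e, e, ← Complex.exp_add]; congr 1; ring

lemma e_zero : e 0 = 1 := by simp [e]

lemma e_neg (x : ℂ) : e (-x) = (e x)⁻¹ := by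
  rw [e, e, ← Complex.exp_neg]; congr 1; ring

lemma e_ne (x : ℂ) : e x ≠ 0 := Complex.exp_ne_zero _

lemma e_int_even (n : ℤ) : e (2 * n) = 1 := by
  rw [e, Complex.exp_eq_one_iff]; exact ⟨n, by ring⟩

lemma e_one : e 1 = -1 := by
  rw [e, mul_one]; exact Complex.exp_pi_mul_I

lemma e_nat (n : ℕ) : e n = (-1) ^ n := by
  induction n with
  | zero => simp [e_zero]
  | succ n ih => rw [Nat.cast_succ, e_add, ih, e_one, pow_succ]

lemma e_nat_mul (n : ℕ) (x : ℂ) : e (n * x) = e x ^ n := by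
  rw [e, e, ← Complex.exp_nat_mul]; congr 1; ring

lemma e_congr {x y : ℂ} (n : ℤ) (h : x = y + 2 * n) : e x = e y := by
  rw [h, e_add, e_int_even, mul_one]

lemma sin_eq (x : ℂ) : Complex.sin (π * x) = (e x - e (-x)) / (2 * Complex.I) := by
  rw [Complex.sin, e, e]
  have h1 : Complex.exp (-(π * x) * Complex.I) = Complex.exp (π * Complex.I * -x) := by congr 1; ring
  have h2 : Complex.exp (π * x * Complex.I) = Complex.exp (π * Complex.I * x) := by congr 1; ring
  rw [h1, h2]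
  field_simp
  ring_nf
  simp

/-- QG a b c = Σ_{n<c} e((a n² + b n)/c) -/
noncomputable def QG (a : ℕ) (b : ℤ) (c : ℕ) : ℂ :=
  ∑ n ∈ Finset.range c, e ((a * (n : ℂ) ^ 2 + b * n) / c)

/-- the reciprocal sum Σ_{n<a} e((b n - c n²)/a) -/
noncomputable def QR (a : ℕ) (b : ℤ) (c : ℕ) : ℂ :=
  ∑ n ∈ Finset.range a, e ((b * (n : ℂ) - c * (n : ℂ) ^ 2) / a)

lemma QG_eq (a c : ℕ) (ha : 0 < a) (hc : 0 < c) (b : ℤ) (h : Even ((a : ℤ) * c + b)) :
    QG a b c = (Real.sqrt (c / a) : ℂ) * e (1 / 4) * e (-(b ^ 2 / (4 * a * c))) * QR a b c := by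
  have : NeZero a := ⟨ha.ne'⟩
  have : NeZero c := ⟨hc.ne'⟩
  have := Recip.reciprocity a c b h
  rw [QG, QR, Finset.sum_range, Finset.sum_range]
  simp only [e]
  convert this using 3
  · ring_nf
  · congr 1
    congr 1
    ring_nf
  · ring_nf
  · ring_nf

/-- folding a sum over a full period of an even periodic function -/
lemma sym_sum (r : ℕ) (hr : 1 ≤ r) (g : ℤ → ℂ) (heven : ∀ n, g (-n) = g n) (hper : ∀ n, g (n + 2 * r) = g n)
    (h0 : g 0 = 0) (hr0 : g r = 0) :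
    ∑ l ∈ Finset.range (2 * r), g l = 2 * ∑ l ∈ Finset.Ico 1 r, g l := by
  have h1 : ∑ l ∈ Finset.range (2 * r), g l = ∑ l ∈ Finset.Ico 0 r, g l + ∑ l ∈ Finset.Ico r (2 * r), g l := by
    rw [Finset.range_eq_Ico, Finset.sum_Ico_consecutive _ (Nat.zero_le r) (by omega)]
  have h2 : ∑ l ∈ Finset.Ico 0 r, g l = ∑ l ∈ Finset.Ico 1 r, g l := by
    rw [Finset.sum_eq_sum_Ico_succ_bot (by omega)]
    simp [h0]
  have h3 : ∑ l ∈ Finset.Ico r (2 * r), g l = ∑ l ∈ Finset.Ico 1 r, g l := by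
    rw [Finset.sum_eq_sum_Ico_succ_bot (by omega)]
    simp only [hr0, zero_add]
    have h4 := Finset.sum_Ico_reflect (fun j : ℕ => g j) 1 (show r ≤ 2 * r + 1 by omega)
    have h5 : 2 * r + 1 - r = r + 1 := by omega
    have h6 : 2 * r + 1 - 1 = 2 * r := by omega
    rw [h5, h6] at h4
    rw [← h4]
    refine Finset.sum_congr rfl fun j hj => ?_
    rw [Finset.mem_Ico] at hj
    rw [Nat.cast_sub (by omega)]
    have : ((2 * r : ℕ) : ℤ) - (j : ℤ) = -(j : ℤ) + 2 * r := by push_cast; ring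
    rw [this, hper, heven]
  rw [h1, h2, h3]; ring

/-- S a r = Σ_{0<l<r} sin²(πl/r) e(a l²/(2r)) -/
noncomputable def X (a : ℤ) (r : ℕ) : ℂ :=
  ∑ l ∈ Finset.Ico 1 r, Complex.sin (π * l / r) ^ 2 * e (a * (l : ℂ) ^ 2 / (2 * r))

lemma sin_l (l : ℂ) (r : ℕ) : Complex.sin (π * l / r) = (e (l / r) - e (-(l / r))) / (2 * Complex.I) := by
  rw [show π * l / r = π * (l / r) by ring, sin_eq]

lemma sin_int_zero (l : ℂ) (r : ℕ) (hr : (r : ℂ) ≠ 0) (n : ℤ) (h : l = n * r) : Complex.sin (π * l / r) = 0 := by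
  rw [h, show π * (n * r) / r = (n : ℂ) * π by field_simp]
  exact Complex.sin_int_mul_pi n

lemma X_sum (a : ℕ) (r : ℕ) (hr : 1 ≤ r) :
    X a r = -(1 / 8) * (QG a 4 (2 * r) + QG a (-4) (2 * r) - 2 * QG a 0 (2 * r)) := by
  have hr0 : (r : ℂ) ≠ 0 := by exact_mod_cast (by omega : r ≠ 0)
  let g : ℤ → ℂ := fun l => Complex.sin (π * l / r) ^ 2 * e (a * (l : ℂ) ^ 2 / (2 * r))
  have h := sym_sum r hr g ?_ ?_ ?_ ?_
  · have h1 : X a r = (1 / 2) * ∑ l ∈ Finset.range (2 * r), g l := by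
      rw [h, X]
      simp only [g]
      push_cast
      ring
    rw [h1, QG, QG, QG, Finset.mul_sum, Finset.mul_sum, ← Finset.sum_add_distrib, ← Finset.sum_sub_distrib,
      Finset.mul_sum]
    refine Finset.sum_congr rfl fun n _ => ?_
    simp only [g]
    rw [sin_l, div_pow, mul_pow, Complex.I_sq]
    push_cast
    have e1 : e ((a * (n : ℂ) ^ 2 + 4 * n) / (2 * r)) = e (a * (n : ℂ) ^ 2 / (2 * r)) * e (n / r) ^ 2 := by
      rw [sq (e _), ← e_add, ← e_add]; congr 1; field_simp; ring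
    have e2 : e ((a * (n : ℂ) ^ 2 + -4 * n) / (2 * r)) = e (a * (n : ℂ) ^ 2 / (2 * r)) * e (-(n / r)) ^ 2 := by
      rw [sq (e _), ← e_add, ← e_add]; congr 1; field_simp; ring
    have e3 : e ((a * (n : ℂ) ^ 2 + 0 * n) / (2 * r)) = e (a * (n : ℂ) ^ 2 / (2 * r)) * (e (n / r) * e (-(n / r))) := by
      rw [← e_add, ← e_add]; congr 1; field_simp; ring
    rw [e1, e2, e3]
    ring
  · intro n
    simp only [g]
    have : π * ((-n : ℤ) : ℂ) / r = -(π * n / r) := by push_cast; ring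
    rw [this, Complex.sin_neg]
    push_cast
    ring_nf
  · intro n
    simp only [g]
    have h1 : (π : ℂ) * ((n + 2 * r : ℤ) : ℂ) / r = π * n / r + 2 * π := by push_cast; field_simp
    rw [h1, Complex.sin_add_two_pi]
    congr 1
    refine e_congr (a * (n + r)) ?_
    push_cast
    field_simp
    ring
  · simp [g]
  · simp only [g]
    rw [sin_int_zero _ r hr0 1 (by push_cast; ring)]
    ring

lemma QR_one (b : ℤ) (c : ℕ) : QR 1 b c = 1 := by
  simp [QR, e_zero]

lemma sqrt_two_mul (r : ℕ) : ((Real.sqrt (2 * r) : ℝ) : ℂ) ^ 2 = 2 * r := by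
  rw [← Complex.ofReal_pow, Real.sq_sqrt (by positivity)]; push_cast; ring

lemma X_one (r : ℕ) (hr : 1 ≤ r) :
    X 1 r = (1 / 2) * (Real.sqrt (2 * r) : ℂ) * e (3 / 4) * e (-(1 / r)) * s1 r := by
  have hr0 : (r : ℂ) ≠ 0 := by exact_mod_cast (by omega : r ≠ 0)
  have h := X_sum 1 r hr
  rw [Nat.cast_one] at h
  rw [h, QG_eq 1 (2 * r) one_pos (by omega) 4 (by refine ⟨r + 2, ?_⟩; push_cast; ring),
    QG_eq 1 (2 * r) one_pos (by omega) (-4) (by refine ⟨r - 2, ?_⟩; push_cast; ring),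
    QG_eq 1 (2 * r) one_pos (by omega) 0 (by refine ⟨r, ?_⟩; push_cast; ring), QR_one, QR_one, QR_one]
  have h1 : s1 r = (e (1 / r) - e (-(1 / r))) / (2 * Complex.I) := by
    rw [s1, ← sin_l]; simp
  have h2 : e (3 / 4) = e (1 / 4) * Complex.I := by
    have : e (1 / 2) = Complex.I := by
      rw [e, show (π : ℂ) * Complex.I * (1 / 2) = π / 2 * Complex.I by ring, Complex.exp_pi_div_two_mul_I]
    rw [← this, ← e_add]; congr 1; norm_num
  have h3 : e (-(1 / r)) * e (1 / r) = 1 := by rw [← e_add]; simp [e_zero]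
  have h4 : ∀ x : ℂ, x = 4 ∨ x = -4 → e (-(x ^ 2 / (4 * ((1 : ℕ) : ℂ) * ((2 * r : ℕ) : ℂ)))) = e (-(1 / r)) * e (-(1 / r)) := by
    intro x hx
    rw [← e_add]; congr 1
    rcases hx with rfl | rfl <;> · push_cast; field_simp; ring
  have h5 : e (-(((0 : ℤ) : ℂ) ^ 2 / (4 * ((1 : ℕ) : ℂ) * ((2 * r : ℕ) : ℂ)))) = 1 := by
    simp [e_zero]
  rw [h5, h4 _ (by left; norm_num), h4 _ (by right; norm_num), h1, h2]
  have h6 : Real.sqrt (((2 * r : ℕ) : ℝ) / ((1 : ℕ) : ℝ)) = Real.sqrt (2 * r) := by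
    congr 1; push_cast; ring
  rw [h6]
  field_simp
  linear_combination (-(8 : ℂ)) * ((Real.sqrt (2 * r) : ℝ) : ℂ) * e (1 / 4) * h3

/-- D² -/
lemma sum_sin_sq (r : ℕ) (hr : 2 ≤ r) : ∑ l ∈ Finset.Ico 1 r, Real.sin (π * l / r) ^ 2 = r / 2 := by
  have hr0 : (r : ℂ) ≠ 0 := by exact_mod_cast (by omega : r ≠ 0)
  let g : ℤ → ℂ := fun l => Complex.sin (π * l / r) ^ 2
  have h := sym_sum r (by omega) g ?_ ?_ ?_ ?_
  · have h2 : ∑ l ∈ Finset.range (2 * r), g l = r := by
      have h3 : ∀ n : ℕ, g n = (1 / 2) - (1 / 4) * (e (2 / r) ^ n) - (1 / 4) * (e (-(2 / r)) ^ n) := by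
        intro n
        simp only [g]
        push_cast
        rw [sin_l, div_pow, mul_pow, Complex.I_sq, ← e_nat_mul, ← e_nat_mul]
        have e1 : e (n * (2 / r)) = e (n / r) ^ 2 := by
          rw [sq, ← e_add]; congr 1; ring
        have e2 : e (n * -(2 / r)) = e (-(n / r)) ^ 2 := by
          rw [sq, ← e_add]; congr 1; ring
        have e3 : e (n / r) * e (-(n / r)) = 1 := by rw [← e_add]; simp [e_zero]
        rw [e1, e2]
        linear_combination (1 / 2) * e3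
      simp_rw [h3]
      rw [Finset.sum_sub_distrib, Finset.sum_sub_distrib, ← Finset.mul_sum, ← Finset.mul_sum]
      have hz1 : e (2 / r) ≠ 1 := by
        intro h1
        rw [e, Complex.exp_eq_one_iff] at h1
        obtain ⟨n, hn⟩ := h1
        have hpi : (π : ℂ) ≠ 0 := by exact_mod_cast Real.pi_ne_zero
        have h4 : (1 : ℂ) = n * r := by
          field_simp at hn
          linear_combination hn
        have h6 : (1 : ℤ) = n * r := by exact_mod_cast h4
        have h7 : (r : ℤ) ∣ 1 := ⟨n, by rw [h6]; ring⟩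
        have h8 := Int.le_of_dvd one_pos h7
        omega
      have hz2 : e (-(2 / r)) ≠ 1 := by
        rw [e_neg]; intro h1; exact hz1 (inv_eq_one.mp h1)
      rw [geom_sum_eq hz1, geom_sum_eq hz2, ← e_nat_mul, ← e_nat_mul]
      have e4 : e (((2 * r : ℕ) : ℂ) * (2 / r)) = 1 := by
        rw [show ((2 * r : ℕ) : ℂ) * (2 / r) = 2 * ((2 : ℤ) : ℂ) by push_cast; field_simp]
        exact e_int_even 2
      have e5 : e (((2 * r : ℕ) : ℂ) * -(2 / r)) = 1 := by
        rw [show ((2 * r : ℕ) : ℂ) * -(2 / r) = 2 * ((-2 : ℤ) : ℂ) by push_cast; field_simp]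
        exact e_int_even (-2)
      rw [e4, e5]
      simp
      ring
    rw [h2] at h
    have h9 : ((∑ l ∈ Finset.Ico 1 r, Real.sin (π * l / r) ^ 2 : ℝ) : ℂ) = ((r / 2 : ℝ) : ℂ) := by
      push_cast
      simp only [g] at h
      push_cast at h
      linear_combination (-(1 : ℂ) / 2) * h
    exact_mod_cast h9
  · intro n
    simp only [g]
    have : π * ((-n : ℤ) : ℂ) / r = -(π * n / r) := by push_cast; ring
    rw [this, Complex.sin_neg]
    ring
  · intro n
    simp only [g]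
    have h1 : (π : ℂ) * ((n + 2 * r : ℤ) : ℂ) / r = π * n / r + 2 * π := by push_cast; field_simp
    rw [h1, Complex.sin_add_two_pi]
  · simp [g]
  · simp only [g]
    rw [sin_int_zero _ r hr0 1 (by push_cast; ring)]
    ring

end SU2
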