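import Mathlib
import Pool.Agent.Helper427.SU2
set_option autoImplicit false
open Finset
open scoped Real

namespace SU2
open WRT

/-- J(l) = Σ_{0<m<r} sin(πlm/r) sin(πm/r) e(m²/r) -/
noncomputable def J (r : ℕ) (l : ℤ) : ℂ :=
  ∑ m ∈ Finset.Ico 1 r, Complex.sin (π * (l * m) / r) * Complex.sin (π * m / r) * e ((m : ℂ) ^ 2 / r)

lemma QR_two (b : ℤ) (r : ℕ) : QR 2 (2 * b) (2 * r) = 1 + e (b + r) := by
  rw [QR, Finset.sum_range_succ, Finset.sum_range_one]
  congr 1
  · simp [e_zero]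
  · refine e_congr (-r) ?_
    push_cast
    field_simp
    ring

lemma J_eq (r : ℕ) (hr : 1 ≤ r) (l : ℤ) :
    J r l = -(1 / 4) * (Real.sqrt r : ℂ) * e (1 / 4) * (1 + e (l + 1 + r)) * e (-((l ^ 2 + 1) / (4 * r))) *
      (e (-(l / (2 * r))) - e (l / (2 * r))) := by
  have hr0 : (r : ℂ) ≠ 0 := by exact_mod_cast (by omega : r ≠ 0)
  let g : ℤ → ℂ := fun m => Complex.sin (π * (l * m) / r) * Complex.sin (π * m / r) * e ((m : ℂ) ^ 2 / r)
  have h := sym_sum r hr g ?_ ?_ ?_ ?_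
  · have h1 : J r l = (1 / 2) * ∑ m ∈ Finset.range (2 * r), g m := by
      rw [h, J]
      simp only [g]
      push_cast
      ring
    have h2 : ∑ m ∈ Finset.range (2 * r), g m = -(1 / 4) * (QG 2 (2 * (l + 1)) (2 * r) - QG 2 (2 * (l - 1)) (2 * r)
        - QG 2 (2 * (-(l - 1))) (2 * r) + QG 2 (2 * (-(l + 1))) (2 * r)) := by
      rw [QG, QG, QG, QG, ← Finset.sum_sub_distrib, ← Finset.sum_sub_distrib, ← Finset.sum_add_distrib, Finset.mul_sum]
      refine Finset.sum_congr rfl fun n _ => ?_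
      simp only [g]
      push_cast
      rw [sin_l, sin_l]
      have e1 : e ((2 * (n : ℂ) ^ 2 + 2 * (l + 1) * n) / (2 * r)) = e ((n : ℂ) ^ 2 / r) * (e (l * n / r) * e (n / r)) := by
        rw [← e_add, ← e_add]; congr 1; field_simp
      have e2 : e ((2 * (n : ℂ) ^ 2 + 2 * (l - 1) * n) / (2 * r)) = e ((n : ℂ) ^ 2 / r) * (e (l * n / r) * e (-(n / r))) := by
        rw [← e_add, ← e_add]; congr 1; field_simp; ring
      have e3 : e ((2 * (n : ℂ) ^ 2 + 2 * (-(l - 1)) * n) / (2 * r)) = e ((n : ℂ) ^ 2 / r) * (e (-(l * n / r)) * e (n / r)) := by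
        rw [← e_add, ← e_add]; congr 1; field_simp; ring
      have e4 : e ((2 * (n : ℂ) ^ 2 + 2 * (-(l + 1)) * n) / (2 * r)) = e ((n : ℂ) ^ 2 / r) * (e (-(l * n / r)) * e (-(n / r))) := by
        rw [← e_add, ← e_add]; congr 1; field_simp; ring
      rw [e1, e2, e3, e4]
      field_simp
      rw [Complex.I_sq]
      ring
    rw [h1, h2]
    rw [QG_eq 2 (2 * r) two_pos (by omega) _ (by refine ⟨2 * r + (l + 1), ?_⟩; push_cast; ring),
      QG_eq 2 (2 * r) two_pos (by omega) _ (by refine ⟨2 * r + (l - 1), ?_⟩; push_cast; ring),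
      QG_eq 2 (2 * r) two_pos (by omega) _ (by refine ⟨2 * r + (-(l - 1)), ?_⟩; push_cast; ring),
      QG_eq 2 (2 * r) two_pos (by omega) _ (by refine ⟨2 * r + (-(l + 1)), ?_⟩; push_cast; ring),
      QR_two, QR_two, QR_two, QR_two]
    have hs : Real.sqrt (((2 * r : ℕ) : ℝ) / ((2 : ℕ) : ℝ)) = Real.sqrt r := by
      congr 1; push_cast; field_simp
    rw [hs]
    have f2 : e (((l - 1 : ℤ) : ℂ) + r) = e (l + 1 + r) := e_congr (-1) (by push_cast; ring)
    have f1 : e (((l + 1 : ℤ) : ℂ) + r) = e (l + 1 + r) := by push_cast; rfl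
    have f3 : e (((-(l - 1) : ℤ) : ℂ) + r) = e (l + 1 + r) := e_congr (-l) (by push_cast; ring)
    have f4 : e (((-(l + 1) : ℤ) : ℂ) + r) = e (l + 1 + r) := e_congr (-l - 1) (by push_cast; ring)
    rw [f1, f2, f3, f4]
    have g1 : e (-((((2 * (l + 1) : ℤ) : ℂ)) ^ 2 / (4 * ((2 : ℕ) : ℂ) * ((2 * r : ℕ) : ℂ)))) =
        e (-(((l : ℂ) ^ 2 + 1) / (4 * r))) * e (-(l / (2 * r))) := by
      rw [← e_add]; congr 1; push_cast; field_simp; ring
    have g2 : e (-((((2 * (l - 1) : ℤ) : ℂ)) ^ 2 / (4 * ((2 : ℕ) : ℂ) * ((2 * r : ℕ) : ℂ)))) =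
        e (-(((l : ℂ) ^ 2 + 1) / (4 * r))) * e (l / (2 * r)) := by
      rw [← e_add]; congr 1; push_cast; field_simp; ring
    have g3 : e (-((((2 * (-(l - 1)) : ℤ) : ℂ)) ^ 2 / (4 * ((2 : ℕ) : ℂ) * ((2 * r : ℕ) : ℂ)))) =
        e (-(((l : ℂ) ^ 2 + 1) / (4 * r))) * e (l / (2 * r)) := by
      rw [← e_add]; congr 1; push_cast; field_simp; ring
    have g4 : e (-((((2 * (-(l + 1)) : ℤ) : ℂ)) ^ 2 / (4 * ((2 : ℕ) : ℂ) * ((2 * r : ℕ) : ℂ)))) =
        e (-(((l : ℂ) ^ 2 + 1) / (4 * r))) * e (-(l / (2 * r))) := by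
      rw [← e_add]; congr 1; push_cast; field_simp; ring
    rw [g1, g2, g3, g4]
    ring
  · intro n
    simp only [g]
    have h1 : π * (l * ((-n : ℤ) : ℂ)) / r = -(π * (l * n) / r) := by push_cast; ring
    have h2 : π * ((-n : ℤ) : ℂ) / r = -(π * n / r) := by push_cast; ring
    rw [h1, h2, Complex.sin_neg, Complex.sin_neg]
    push_cast
    ring_nf
  · intro n
    simp only [g]
    have h1 : (π : ℂ) * ((n + 2 * r : ℤ) : ℂ) / r = π * n / r + 2 * π := by push_cast; field_simp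
    have h2 : (π : ℂ) * (l * ((n + 2 * r : ℤ) : ℂ)) / r = π * (l * n) / r + l * (2 * π) := by push_cast; field_simp
    rw [h1, h2, Complex.sin_add_two_pi, Complex.sin_add_int_mul_two_pi]
    congr 1
    refine e_congr (2 * n + 2 * r) ?_
    push_cast
    field_simp
    ring
  · simp [g]
  · simp only [g]
    rw [sin_int_zero _ r hr0 l (by push_cast; ring)]
    ring

/-- the shift n ↦ n + 2r -/
lemma QG_shift (p : ℕ) (b : ℤ) (r : ℕ) (hr : 1 ≤ r) (hp : Odd p) :
    QG p (2 * b) (4 * r) = e (b + r) * QG p (2 * b + 4 * r) (4 * r) := by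
  have hr0 : (r : ℂ) ≠ 0 := by exact_mod_cast (by omega : r ≠ 0)
  obtain ⟨q, hq⟩ := hp
  let g : ℕ → ℂ := fun n => e ((p * (n : ℂ) ^ 2 + (2 * b : ℤ) * n) / (4 * r : ℕ))
  have hg : ∀ n, g (n + 4 * r) = g n := by
    intro n
    simp only [g]
    refine e_congr (p * n + 2 * p * r + b) ?_
    push_cast
    field_simp
    ring
  have h1 : ∑ n ∈ range (4 * r), g (n + 2 * r) = ∑ n ∈ range (4 * r), g n := by
    have h2 : ∑ n ∈ range (4 * r), g (n + 2 * r) = ∑ n ∈ range (2 * r), g (n + 2 * r) + ∑ n ∈ range (2 * r), g (n + 4 * r) := by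
      rw [show 4 * r = 2 * r + 2 * r by ring, Finset.sum_range_add]
      congr 1
      refine Finset.sum_congr rfl fun n _ => ?_
      congr 1; ring
    rw [h2, Finset.sum_congr rfl (fun n _ => hg n)]
    rw [show 4 * r = 2 * r + 2 * r by ring, Finset.sum_range_add, add_comm]
    congr 1
    refine Finset.sum_congr rfl fun n _ => ?_
    congr 1; ring
  rw [QG]
  change ∑ n ∈ range (4 * r), g n = _
  rw [← h1, QG, Finset.mul_sum]
  refine Finset.sum_congr rfl fun n _ => ?_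
  simp only [g]
  rw [← e_add]
  refine e_congr (q * n + q * r) ?_
  rw [hq]
  push_cast
  field_simp
  ring

/-- F(a) = Σ_{0<l<r} sin(πl/r) e(a l²/(2r)) J(l) -/
noncomputable def F (a : ℤ) (r : ℕ) : ℂ :=
  ∑ l ∈ Finset.Ico 1 r, Complex.sin (π * l / r) * e (a * (l : ℂ) ^ 2 / (2 * r)) * J r l

lemma F_eq (a p r : ℕ) (hr : 1 ≤ r) (hp : p + 1 = 2 * a) :
    F a r = (r / (8 * (Real.sqrt p : ℂ))) * e (-(1 / (4 * r))) *
      (e (-(9 / (4 * p * r))) * (QR p 6 (4 * r) + QR p (-6) (4 * r)) -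
       e (-(1 / (4 * p * r))) * (QR p 2 (4 * r) + QR p (-2) (4 * r))) := by
  have hr0 : (r : ℂ) ≠ 0 := by exact_mod_cast (by omega : r ≠ 0)
  have hp1 : 1 ≤ p := by omega
  have hodd : Odd p := ⟨a - 1, by omega⟩
  have hpC : (p : ℂ) = 2 * a - 1 := by
    have : (p : ℂ) + 1 = 2 * a := by exact_mod_cast hp
    linear_combination this
  have hp0 : (p : ℂ) ≠ 0 := by exact_mod_cast (by omega : p ≠ 0)
  let g : ℤ → ℂ := fun l => (1 + e (l + 1 + r)) * Complex.sin (π * l / r) * (e (-(l / (2 * r))) - e (l / (2 * r))) *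
    e (p * (l : ℂ) ^ 2 / (4 * r))
  have hper : ∀ n, g (n + 2 * r) = g n := by
    intro n
    simp only [g]
    have h1 : (π : ℂ) * ((n + 2 * r : ℤ) : ℂ) / r = π * n / r + 2 * π := by push_cast; field_simp
    have h2 : e (((n + 2 * r : ℤ) : ℂ) + 1 + r) = e (n + 1 + r) := e_congr r (by push_cast; ring)
    have h3 : e (-(((n + 2 * r : ℤ) : ℂ) / (2 * r))) = -e (-(n / (2 * r))) := by
      have : e (-(((n + 2 * r : ℤ) : ℂ) / (2 * r))) = e (1 + -(n / (2 * r))) := e_congr (-1) (by push_cast; field_simp; ring)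
      rw [this, e_add, e_one]; ring
    have h4 : e (((n + 2 * r : ℤ) : ℂ) / (2 * r)) = -e (n / (2 * r)) := by
      have : e (((n + 2 * r : ℤ) : ℂ) / (2 * r)) = e (1 + (n / (2 * r))) := by congr 1; push_cast; field_simp; ring
      rw [this, e_add, e_one]; ring
    have h5 : e (p * ((n + 2 * r : ℤ) : ℂ) ^ 2 / (4 * r)) = e (n + r) * e (p * (n : ℂ) ^ 2 / (4 * r)) := by
      rw [← e_add]
      refine e_congr ((a - 1) * n + (a - 1) * r) ?_
      push_cast
      rw [hpC]
      field_simp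
      ring
    have h6 : e ((n : ℂ) + r) * e (n + 1 + r) = -1 := by
      rw [← e_add, ← e_one]; exact e_congr (n + r) (by push_cast; ring)
    have h7 : e ((n : ℂ) + 1 + r) = - e (n + r) := by
      rw [show (n : ℂ) + 1 + r = n + r + 1 by ring, e_add, e_one]; ring
    rw [h1, h2, h3, h4, h5, Complex.sin_add_two_pi]
    rw [h7] at h6 ⊢
    linear_combination (-Complex.sin (π * n / r) * (e (-(n / (2 * r))) - e (n / (2 * r))) * e (p * (n : ℂ) ^ 2 / (4 * r))) * h6
  have heven : ∀ n, g (-n) = g n := by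
    intro n
    simp only [g]
    have h1 : (π : ℂ) * ((-n : ℤ) : ℂ) / r = -(π * n / r) := by push_cast; ring
    have h2 : e (((-n : ℤ) : ℂ) + 1 + r) = e (n + 1 + r) := e_congr (-n) (by push_cast; ring)
    have h3 : -(((-n : ℤ) : ℂ) / (2 * r)) = (n / (2 * r)) := by push_cast; ring
    have h4 : (((-n : ℤ) : ℂ) / (2 * r)) = -(n / (2 * r)) := by push_cast; ring
    rw [h1, h2, h3, h4, Complex.sin_neg]
    push_cast
    ring_nf
  have h := sym_sum r hr g heven hper ?_ ?_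
  · have h1 : F a r = -(1 / 4) * (Real.sqrt r : ℂ) * e (1 / 4) * e (-(1 / (4 * r))) * ∑ l ∈ Finset.Ico 1 r, g l := by
      rw [F, Finset.mul_sum]
      refine Finset.sum_congr rfl fun l _ => ?_
      rw [J_eq r hr]
      simp only [g]
      have : e (a * (l : ℂ) ^ 2 / (2 * r)) * e (-((((l : ℤ) : ℂ) ^ 2 + 1) / (4 * r))) =
          e (-(1 / (4 * r))) * e (p * (((l : ℤ) : ℂ)) ^ 2 / (4 * r)) := by
        rw [← e_add, ← e_add]; congr 1; push_cast; rw [hpC]; field_simp; ring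
      push_cast at this ⊢
      linear_combination (-(1 / 4) * (Real.sqrt r : ℂ) * e (1 / 4) * (1 + e (l + 1 + r)) * Complex.sin (π * l / r) *
        (e (-(l / (2 * r))) - e (l / (2 * r)))) * this
    have h2 : ∑ l ∈ range (4 * r), g l = 2 * ∑ l ∈ range (2 * r), g l := by
      have h9 : 4 * r = 2 * r + 2 * r := by ring
      have h10 : ∀ n : ℕ, g ((2 * r + n : ℕ) : ℤ) = g n := by
        intro n
        rw [← hper n]
        congr 1
        push_cast
        ring
      have h11 := Finset.sum_range_add (fun l : ℕ => g l) (2 * r) (2 * r)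
      simp only [h10] at h11
      rw [h9, h11]; ring
    have h3 : ∑ l ∈ range (4 * r), g l = (1 / (2 * Complex.I)) *
        ((QG p 2 (4 * r) + e (1 + r) * QG p (2 + 4 * r) (4 * r)) + (QG p (-2) (4 * r) + e (1 + r) * QG p (-2 + 4 * r) (4 * r))
        - (QG p 6 (4 * r) + e (1 + r) * QG p (6 + 4 * r) (4 * r)) - (QG p (-6) (4 * r) + e (1 + r) * QG p (-6 + 4 * r) (4 * r))) := by
      simp only [QG]
      simp only [Finset.mul_sum, ← Finset.sum_add_distrib, ← Finset.sum_sub_distrib]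
      refine Finset.sum_congr rfl fun n _ => ?_
      simp only [g]
      push_cast
      have k : ∀ (b : ℤ), e ((p * (n : ℂ) ^ 2 + b * n) / (4 * r)) = e (p * (n : ℂ) ^ 2 / (4 * r)) * e (b * n / (4 * r)) := by
        intro b; rw [← e_add]; congr 1; ring
      have k2 : ∀ (b : ℤ), e ((p * (n : ℂ) ^ 2 + (b + 4 * r) * n) / (4 * r)) = e (p * (n : ℂ) ^ 2 / (4 * r)) * e (b * n / (4 * r)) * e n := by
        intro b; rw [← e_add, ← e_add]; congr 1; field_simp; ring
      have m1 := k 2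
      have m2 := k (-2)
      have m3 := k 6
      have m4 := k (-6)
      have m5 := k2 2
      have m6 := k2 (-2)
      have m7 := k2 6
      have m8 := k2 (-6)
      push_cast at m1 m2 m3 m4 m5 m6 m7 m8
      rw [m1, m2, m3, m4, m5, m6, m7, m8, sin_l]
      have q1 : e (2 * (n : ℂ) / (4 * r)) = e (n / (2 * r)) := by congr 1; field_simp; ring
      have q2 : e (-2 * (n : ℂ) / (4 * r)) = e (-(n / (2 * r))) := by congr 1; field_simp; ring
      have q3 : e (6 * (n : ℂ) / (4 * r)) = e (n / r) * e (n / (2 * r)) := by rw [← e_add]; congr 1; field_simp; ring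
      have q4 : e (-6 * (n : ℂ) / (4 * r)) = e (-(n / r)) * e (-(n / (2 * r))) := by rw [← e_add]; congr 1; field_simp; ring
      have q5 : e ((n : ℂ) + 1 + r) = e (1 + r) * e n := by rw [← e_add]; congr 1; ring
      have q6 : e (n / r) * e (-(n / (2 * r))) = e (n / (2 * r)) := by rw [← e_add]; congr 1; field_simp; ring
      have q7 : e (-(n / r)) * e (n / (2 * r)) = e (-(n / (2 * r))) := by rw [← e_add]; congr 1; field_simp; ring
      rw [q1, q2, q3, q4, q5]
      generalize e ((n : ℂ) / r) = A at *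
      generalize e (-((n : ℂ) / r)) = A' at *
      generalize e ((n : ℂ) / (2 * r)) = B at *
      generalize e (-((n : ℂ) / (2 * r))) = B' at *
      generalize e (p * (n : ℂ) ^ 2 / (4 * r)) = P at *
      generalize e ((1 : ℂ) + r) = S at *
      generalize e (n : ℂ) = N at *
      field_simp
      linear_combination ((1 + S * N) * P) * q6 + ((1 + S * N) * P) * q7
    have s1' := QG_shift p 1 r hr hodd
    have s2' := QG_shift p (-1) r hr hodd
    have s3' := QG_shift p 3 r hr hodd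
    have s4' := QG_shift p (-3) r hr hodd
    have t : ∀ b : ℤ, Odd b → e ((b : ℂ) + r) = e (1 + r) := by
      rintro b ⟨c, rfl⟩
      exact e_congr c (by push_cast; ring)
    rw [t _ (by decide)] at s1' s2' s3' s4'
    norm_num at s1' s2' s3' s4'
    rw [← s1', ← s2', ← s3', ← s4'] at h3
    have h4 : ∑ l ∈ Finset.Ico 1 r, g l = (1 / (4 * Complex.I)) * (QG p 2 (4 * r) + QG p (-2) (4 * r) - QG p 6 (4 * r) - QG p (-6) (4 * r)) := by
      have h5 : ∑ l ∈ Finset.Ico 1 r, g l = (1 / 4) * ∑ l ∈ range (4 * r), g l := by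
        rw [h2, h]; ring
      rw [h5, h3]
      field_simp
      ring
    rw [h1, h4]
    have hs : ((Real.sqrt (((4 * r : ℕ) : ℝ) / ((p : ℕ) : ℝ)) : ℝ) : ℂ) * (Real.sqrt r : ℂ) = 2 * r / (Real.sqrt p : ℂ) := by
      have : Real.sqrt (((4 * r : ℕ) : ℝ) / ((p : ℕ) : ℝ)) * Real.sqrt r = 2 * r / Real.sqrt p := by
        rw [Real.sqrt_div (by positivity), div_mul_eq_mul_div, ← Real.sqrt_mul (by positivity)]
        congr 1
        rw [show (((4 * r : ℕ) : ℝ)) * r = (2 * r) ^ 2 by push_cast; ring, Real.sqrt_sq (by positivity)]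
      rw [← Complex.ofReal_mul, this]; push_cast; rfl
    rw [QG_eq p (4 * r) (by omega) (by omega) 2 (by refine ⟨2 * p * r + 1, ?_⟩; push_cast; ring),
      QG_eq p (4 * r) (by omega) (by omega) (-2) (by refine ⟨2 * p * r - 1, ?_⟩; push_cast; ring),
      QG_eq p (4 * r) (by omega) (by omega) 6 (by refine ⟨2 * p * r + 3, ?_⟩; push_cast; ring),
      QG_eq p (4 * r) (by omega) (by omega) (-6) (by refine ⟨2 * p * r - 3, ?_⟩; push_cast; ring)]
    have g1 : ∀ b : ℂ, b = 2 ∨ b = -2 → e (-(b ^ 2 / (4 * p * ((4 * r : ℕ) : ℂ)))) = e (-(1 / (4 * p * r))) := by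
      intro b hb
      congr 1
      rcases hb with rfl | rfl <;> · push_cast; field_simp; norm_num
    have g2 : ∀ b : ℂ, b = 6 ∨ b = -6 → e (-(b ^ 2 / (4 * p * ((4 * r : ℕ) : ℂ)))) = e (-(9 / (4 * p * r))) := by
      intro b hb
      congr 1
      rcases hb with rfl | rfl <;> · push_cast; field_simp; norm_num
    rw [g1 _ (by left; norm_num), g1 _ (by right; norm_num), g2 _ (by left; norm_num), g2 _ (by right; norm_num)]
    have hI : e (1 / 4) * e (1 / 4) = Complex.I := by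
      rw [← e_add, e, show (π : ℂ) * Complex.I * (1 / 4 + 1 / 4) = π / 2 * Complex.I by ring, Complex.exp_pi_div_two_mul_I]
    have hsp : ((Real.sqrt p : ℝ) : ℂ) ≠ 0 := by
      have : Real.sqrt p ≠ 0 := by
        rw [Real.sqrt_ne_zero']; exact_mod_cast hp1
      exact_mod_cast this
    have key : -(1 / 4) * (Real.sqrt r : ℂ) * e (1 / 4) * (1 / (4 * Complex.I)) *
        ((Real.sqrt (((4 * r : ℕ) : ℝ) / ((p : ℕ) : ℝ)) : ℝ) : ℂ) * e (1 / 4) = - (r / (8 * (Real.sqrt p : ℂ))) := by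
      have : -(1 / 4) * (Real.sqrt r : ℂ) * e (1 / 4) * (1 / (4 * Complex.I)) *
        ((Real.sqrt (((4 * r : ℕ) : ℝ) / ((p : ℕ) : ℝ)) : ℝ) : ℂ) * e (1 / 4) =
        -(1 / (16 * Complex.I)) * (((Real.sqrt (((4 * r : ℕ) : ℝ) / ((p : ℕ) : ℝ)) : ℝ) : ℂ) * (Real.sqrt r : ℂ)) * (e (1 / 4) * e (1 / 4)) := by
        field_simp; ring
      rw [this, hs, hI]
      field_simp
      norm_num
    linear_combination (e (-(1 / (4 * r))) * (e (-(1 / (4 * p * r))) * (QR p 2 (4 * r) + QR p (-2) (4 * r)) -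
      e (-(9 / (4 * p * r))) * (QR p 6 (4 * r) + QR p (-6) (4 * r)))) * key
  · simp [g]
  · simp only [g]
    rw [sin_int_zero _ r hr0 1 (by push_cast; ring)]
    ring

end SU2
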