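import Mathlib
import Pool.Agent.Helper427.WRTDefs

/-!
# Quantum SU(N) invariants of circle bundles over surfaces, and a weaker kind of expansion
-/

set_option autoImplicit false

open Finset

namespace WRT

/-- The quantum SU(N) invariant Z = tau / tau (S^1 x S^2) at r = k + N of the circle bundle with Euler
number n over the closed oriented surface of genus g: the sum over all colours l of
S_{0l} ^ (2 - 2 g) * (twist l) ^ n with S_{0l} = qdim l / D (the vector space attached to the torus has a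
basis indexed by the colours, on which the trace of the gluing is taken), corrected to the framing
given by surgery, (C_+ / D) ^ (-b_+) * (C_- / D) ^ (-b_-), where (b_+, b_-) is (1, 0), (0, 0) or (0, 1)
for n > 0, n = 0 or n < 0: the linking matrix of the surgery presentation is diag (n, 0, ..., 0). -/
noncomputable def circleBundle (N r g : ℕ) (n : ℤ) : ℂ :=
  (if 0 < n then (gauss N r 1 / (dtot N r : ℂ))⁻¹ else 1) *
    (if n < 0 then (gauss N r (-1) / (dtot N r : ℂ))⁻¹ else 1) *
    ∑ l ∈ colours N r, (qdim r l / (dtot N r : ℂ)) ^ (2 - 2 * (g : ℤ)) * twist r l ^ n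

/-- A weaker kind of expansion than `HasExpansion`: the numbers v_j * exp (2 π i I_j / 8) and
v_j * exp (2 π i I_j / 8) * a_{j,e} are replaced by arbitrary complex numbers b_{j,0} and b_{j,e}, zero
allowed. -/
def HasWeakExpansion (Z : ℕ → ℂ) (m : ℕ) (c : Fin (m + 1) → ℝ) : Prop :=
  ∃ (d : Fin (m + 1) → ℚ) (b : Fin (m + 1) → ℕ → ℂ),
    ∀ E : ℕ, ∃ C : ℝ, ∀ r : ℕ, 2 ≤ r →
      ‖Z r - ∑ j, Complex.exp (2 * Real.pi * Complex.I * (r * (c j : ℂ))) *
          (((r : ℝ) ^ (d j : ℝ) : ℝ) : ℂ) * ∑ e ∈ Finset.range (E + 1), b j e * ((r : ℂ) ^ e)⁻¹‖ ≤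
        C * (r : ℝ) ^ (((Finset.univ.sup' Finset.univ_nonempty d : ℚ) : ℝ) - E - 1)

end WRT
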