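import Mathlib
set_option autoImplicit false
open Filter Topology Asymptotics
open scoped Real

namespace Uniq

/-- geometric sums of a unimodular number different from one are bounded -/
lemma geom_bdd (w : ℂ) (hw : ‖w‖ = 1) (hw1 : w ≠ 1) (n : ℕ) :
    ‖∑ k ∈ Finset.range n, w ^ k‖ ≤ 2 / ‖w - 1‖ := by
  rw [geom_sum_eq hw1, norm_div]
  have h1 : 0 < ‖w - 1‖ := norm_pos_iff.mpr (sub_ne_zero.mpr hw1)
  have h2 : ‖w ^ n - 1‖ ≤ 2 := by
    calc ‖w ^ n - 1‖ ≤ ‖w ^ n‖ + ‖(1 : ℂ)‖ := norm_sub_le _ _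
      _ = 2 := by rw [norm_pow, hw]; norm_num
  gcongr

lemma mean_geom (w : ℂ) (hw : ‖w‖ = 1) (hw1 : w ≠ 1) :
    Tendsto (fun n : ℕ => (n : ℝ)⁻¹ • ∑ k ∈ Finset.range n, w ^ k) atTop (𝓝 0) := by
  have h0 : Tendsto (fun n : ℕ => (n : ℝ)⁻¹) atTop (𝓝 0) := tendsto_inv_atTop_nhds_zero_nat
  rw [tendsto_zero_iff_norm_tendsto_zero]
  have h1 : Tendsto (fun n : ℕ => (n : ℝ)⁻¹ * (2 / ‖w - 1‖)) atTop (𝓝 0) := by
    simpa using h0.mul_const (2 / ‖w - 1‖)
  refine squeeze_zero (fun n => norm_nonneg _) (fun n => ?_) h1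
  rw [norm_smul, norm_inv, Real.norm_natCast]
  exact mul_le_mul_of_nonneg_left (geom_bdd w hw hw1 n) (by positivity)

/-- A trigonometric polynomial on ℕ tending to zero has zero coefficients. -/
lemma trig_zero {ι : Type*} (J : Finset ι) (z b : ι → ℂ) (hz : ∀ i ∈ J, ‖z i‖ = 1)
    (h : Tendsto (fun r : ℕ => ∑ i ∈ J, b i * z i ^ r) atTop (𝓝 0)) (z0 : ℂ) (hz0 : ‖z0‖ = 1) :
    ∑ i ∈ J with z i = z0, b i = 0 := by
  classical
  have hz00 : z0 ≠ 0 := by rintro rfl; simp at hz0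
  have h1 : Tendsto (fun r : ℕ => (∑ i ∈ J, b i * z i ^ r) * (z0⁻¹) ^ r) atTop (𝓝 0) := by
    rw [tendsto_zero_iff_norm_tendsto_zero] at h ⊢
    refine h.congr fun r => ?_
    rw [norm_mul, norm_pow, norm_inv, hz0]; simp
  have h2 := h1.cesaro_smul
  have h3 : Tendsto (fun n : ℕ => ∑ i ∈ J, b i * ((n : ℝ)⁻¹ • ∑ k ∈ Finset.range n, (z i * z0⁻¹) ^ k)) atTop
      (𝓝 (∑ i ∈ J, if z i = z0 then b i else 0)) := by
    refine tendsto_finsetSum _ fun i hi => ?_
    by_cases hi0 : z i = z0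
    · have : ∀ᶠ n : ℕ in atTop, b i * ((n : ℝ)⁻¹ • ∑ k ∈ Finset.range n, (z i * z0⁻¹) ^ k) = b i := by
        filter_upwards [eventually_gt_atTop 0] with n hn
        have hn' : (n : ℂ) ≠ 0 := by exact_mod_cast hn.ne'
        rw [hi0, mul_inv_cancel₀ hz00]
        simp [hn']
      simp only [hi0, if_true]
      refine Tendsto.congr' ?_ tendsto_const_nhds
      filter_upwards [this] with n hn
      rw [hi0] at hn; exact hn.symm
    · simp only [hi0, if_false]
      have hw : ‖z i * z0⁻¹‖ = 1 := by rw [norm_mul, norm_inv, hz i hi, hz0]; norm_num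
      have hw1 : z i * z0⁻¹ ≠ 1 := by
        intro h; apply hi0
        field_simp at h; exact h
      simpa using (mean_geom _ hw hw1).const_mul (b i)
  have h4 : Tendsto (fun n : ℕ => ∑ i ∈ J, b i * ((n : ℝ)⁻¹ • ∑ k ∈ Finset.range n, (z i * z0⁻¹) ^ k)) atTop (𝓝 0) := by
    refine h2.congr fun n => ?_
    rw [Finset.smul_sum]
    simp_rw [Finset.smul_sum, Finset.mul_sum, Finset.sum_mul, Finset.smul_sum]
    rw [Finset.sum_comm]
    refine Finset.sum_congr rfl fun i _ => Finset.sum_congr rfl fun k _ => ?_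
    rw [mul_pow, mul_smul_comm, ← mul_assoc]
  have h5 := tendsto_nhds_unique h3 h4
  rw [Finset.sum_filter]
  exact h5

/-- Uniqueness of the coefficients of a generalized expansion Σ b_i z_i^r r^{s_i}. -/
theorem coeff_zero {ι : Type*} [DecidableEq ι] (J : Finset ι) (z b : ι → ℂ) (s : ι → ℝ) (hz : ∀ i ∈ J, ‖z i‖ = 1)
    (t : ℝ)
    (h : (fun r : ℕ => ∑ i ∈ J, b i * z i ^ r * (((r : ℝ) ^ s i : ℝ) : ℂ)) =O[atTop] fun r : ℕ => (r : ℝ) ^ t)
    (z0 : ℂ) (hz0 : ‖z0‖ = 1) (s0 : ℝ) (hs0 : t < s0) :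
    ∑ i ∈ J with z i = z0 ∧ s i = s0, b i = 0 := by
  classical
  by_contra hne
  -- the set of failing exponents
  let bad : Finset ℝ := (J.image s).filter fun σ => t < σ ∧ ∃ ζ : ℂ, ‖ζ‖ = 1 ∧ ∑ i ∈ J with z i = ζ ∧ s i = σ, b i ≠ 0
  have hbad : s0 ∈ bad := by
    simp only [bad, Finset.mem_filter, Finset.mem_image]
    refine ⟨?_, hs0, z0, hz0, hne⟩
    by_contra hno
    push Not at hno
    apply hne
    refine Finset.sum_eq_zero fun i hi => ?_
    rw [Finset.mem_filter] at hi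
    exact absurd hi.2.2 (hno i hi.1)
  obtain ⟨σ, hσ, hmax⟩ := bad.exists_max_image id ⟨s0, hbad⟩
  simp only [bad, Finset.mem_filter, Finset.mem_image, id] at hσ hmax
  obtain ⟨⟨i0, hi0, rfl⟩, htσ, ζ, hζ, hζne⟩ := hσ
  set σ := s i0 with hσdef
  -- exponents above σ contribute nothing
  have habove : ∀ r : ℕ, ∑ i ∈ J with σ < s i, b i * z i ^ r * (((r : ℝ) ^ s i : ℝ) : ℂ) = 0 := by
    intro r
    rw [← Finset.sum_fiberwise_of_maps_to (g := s) (t := (J.image s)) (fun i hi => by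
      rw [Finset.mem_filter] at hi; exact Finset.mem_image_of_mem _ hi.1)]
    refine Finset.sum_eq_zero fun ρ hρ => ?_
    rw [Finset.filter_filter]
    rw [← Finset.sum_fiberwise_of_maps_to (g := z) (t := (J.image z)) (fun i hi => by
      rw [Finset.mem_filter] at hi; exact Finset.mem_image_of_mem _ hi.1)]
    refine Finset.sum_eq_zero fun ξ hξ => ?_
    rw [Finset.filter_filter]
    by_cases hσρ : σ < ρ
    · obtain ⟨i1, hi1, rfl⟩ := Finset.mem_image.mp hξ
      have h0 : ∑ i ∈ J with z i = z i1 ∧ s i = ρ, b i = 0 := by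
        by_contra hcon
        have := hmax ρ ⟨Finset.mem_image.mp hρ, htσ.trans hσρ, z i1, hz i1 hi1, hcon⟩
        linarith
      have h1 : (J.filter fun i => (σ < s i ∧ s i = ρ) ∧ z i = z i1) = J.filter fun i => z i = z i1 ∧ s i = ρ := by
        ext i
        simp only [Finset.mem_filter]
        constructor
        · rintro ⟨a, ⟨_, c⟩, d⟩; exact ⟨a, d, c⟩
        · rintro ⟨a, d, c⟩; exact ⟨a, ⟨c ▸ hσρ, c⟩, d⟩
      rw [h1]
      calc ∑ i ∈ J with z i = z i1 ∧ s i = ρ, b i * z i ^ r * (((r : ℝ) ^ s i : ℝ) : ℂ)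
          = ∑ i ∈ J with z i = z i1 ∧ s i = ρ, b i * (z i1 ^ r * (((r : ℝ) ^ ρ : ℝ) : ℂ)) := by
            refine Finset.sum_congr rfl fun i hi => ?_
            rw [Finset.mem_filter] at hi
            rw [hi.2.1, hi.2.2]; ring
        _ = 0 := by rw [← Finset.sum_mul, h0, zero_mul]
    · refine Finset.sum_eq_zero fun i hi => ?_
      rw [Finset.mem_filter] at hi
      exact absurd (hi.2.1.2 ▸ hi.2.1.1) hσρ
  -- hence the sum over exponents = σ tends to zero after division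
  have hP : Tendsto (fun r : ℕ => ∑ i ∈ J with s i = σ, b i * z i ^ r) atTop (𝓝 0) := by
    have h1 : ∀ᶠ r : ℕ in atTop, (∑ i ∈ J with s i = σ, b i * z i ^ r) =
        (∑ i ∈ J, b i * z i ^ r * (((r : ℝ) ^ s i : ℝ) : ℂ)) * (((r : ℝ) ^ (-σ) : ℝ) : ℂ) -
        ∑ i ∈ J with s i < σ, b i * z i ^ r * (((r : ℝ) ^ (s i - σ) : ℝ) : ℂ) := by
      filter_upwards [eventually_gt_atTop 0] with r hr
      have hr' : (0 : ℝ) < r := by exact_mod_cast hr
      have hsplit : ∑ i ∈ J, b i * z i ^ r * (((r : ℝ) ^ s i : ℝ) : ℂ) =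
          ∑ i ∈ J with s i = σ, b i * z i ^ r * (((r : ℝ) ^ s i : ℝ) : ℂ) +
          ∑ i ∈ J with s i < σ, b i * z i ^ r * (((r : ℝ) ^ s i : ℝ) : ℂ) := by
        have e1 := Finset.sum_filter_add_sum_filter_not J (fun i => σ < s i)
          (fun i => b i * z i ^ r * (((r : ℝ) ^ s i : ℝ) : ℂ))
        rw [habove r, zero_add] at e1
        rw [← e1]
        rw [← Finset.sum_filter_add_sum_filter_not (J.filter fun i => ¬ σ < s i) (fun i => s i = σ)]
        rw [Finset.filter_filter, Finset.filter_filter]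
        congr 1
        · refine Finset.sum_congr ?_ fun _ _ => rfl
          ext i; simp only [Finset.mem_filter]
          constructor
          · rintro ⟨a, _, c⟩; exact ⟨a, c⟩
          · rintro ⟨a, c⟩; exact ⟨a, by rw [c]; exact lt_irrefl _, c⟩
        · refine Finset.sum_congr ?_ fun _ _ => rfl
          ext i; simp only [Finset.mem_filter]
          constructor
          · rintro ⟨a, c, d⟩; exact ⟨a, lt_of_le_of_ne (not_lt.mp c) d⟩
          · rintro ⟨a, c⟩; exact ⟨a, not_lt.mpr c.le, c.ne⟩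
      rw [hsplit, add_mul, Finset.sum_mul, Finset.sum_mul]
      have e2 : ∑ i ∈ J with s i = σ, b i * z i ^ r * (((r : ℝ) ^ s i : ℝ) : ℂ) * (((r : ℝ) ^ (-σ) : ℝ) : ℂ) =
          ∑ i ∈ J with s i = σ, b i * z i ^ r := by
        refine Finset.sum_congr rfl fun i hi => ?_
        rw [Finset.mem_filter] at hi
        rw [mul_assoc, ← Complex.ofReal_mul, ← Real.rpow_add hr', hi.2, add_neg_cancel, Real.rpow_zero]
        simp
      have e3 : ∑ i ∈ J with s i < σ, b i * z i ^ r * (((r : ℝ) ^ s i : ℝ) : ℂ) * (((r : ℝ) ^ (-σ) : ℝ) : ℂ) =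
          ∑ i ∈ J with s i < σ, b i * z i ^ r * (((r : ℝ) ^ (s i - σ) : ℝ) : ℂ) := by
        refine Finset.sum_congr rfl fun i hi => ?_
        rw [mul_assoc, ← Complex.ofReal_mul, ← Real.rpow_add hr', ← sub_eq_add_neg]
      rw [e2, e3]; ring
    have h2 : Tendsto (fun r : ℕ => (∑ i ∈ J, b i * z i ^ r * (((r : ℝ) ^ s i : ℝ) : ℂ)) *
        (((r : ℝ) ^ (-σ) : ℝ) : ℂ)) atTop (𝓝 0) := by
      have hO : (fun r : ℕ => (∑ i ∈ J, b i * z i ^ r * (((r : ℝ) ^ s i : ℝ) : ℂ)) *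
        (((r : ℝ) ^ (-σ) : ℝ) : ℂ)) =O[atTop] fun r : ℕ => (r : ℝ) ^ t * (r : ℝ) ^ (-σ) := by
        refine h.mul ?_
        refine IsBigO.of_norm_left ?_
        refine IsBigO.of_norm_right ?_
        simp only [Complex.norm_real]
        exact isBigO_refl _ _
      refine hO.trans_tendsto ?_
      have h3 : Tendsto (fun r : ℕ => (r : ℝ) ^ (-(σ - t))) atTop (𝓝 0) :=
        (tendsto_rpow_neg_atTop (by linarith)).comp tendsto_natCast_atTop_atTop
      refine h3.congr' ?_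
      filter_upwards [eventually_gt_atTop 0] with r hr
      have hr' : (0 : ℝ) < r := by exact_mod_cast hr
      rw [← Real.rpow_add hr']; congr 1; ring
    have h4 : Tendsto (fun r : ℕ => ∑ i ∈ J with s i < σ, b i * z i ^ r * (((r : ℝ) ^ (s i - σ) : ℝ) : ℂ)) atTop (𝓝 0) := by
      rw [← Finset.sum_const_zero (s := J.filter fun i => s i < σ)]
      refine tendsto_finsetSum _ fun i hi => ?_
      rw [Finset.mem_filter] at hi
      have h5 : Tendsto (fun r : ℕ => (r : ℝ) ^ (-(σ - s i))) atTop (𝓝 0) :=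
        (tendsto_rpow_neg_atTop (by linarith [hi.2])).comp tendsto_natCast_atTop_atTop
      rw [tendsto_zero_iff_norm_tendsto_zero]
      have h6 : Tendsto (fun r : ℕ => ‖b i‖ * (r : ℝ) ^ (-(σ - s i))) atTop (𝓝 0) := by
        simpa using h5.const_mul ‖b i‖
      refine h6.congr fun r => ?_
      rw [norm_mul, norm_mul, norm_pow, hz i hi.1, one_pow, mul_one, Complex.norm_real, Real.norm_eq_abs,
        abs_of_nonneg (Real.rpow_nonneg (Nat.cast_nonneg r) _)]
      congr 2; ring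
    have h7 := h2.sub h4
    rw [sub_zero] at h7
    exact h7.congr' (h1.mono fun r hr => hr.symm)
  have hfin := trig_zero (J.filter fun i => s i = σ) z b (fun i hi => hz i (Finset.mem_filter.mp hi).1) hP ζ hζ
  rw [Finset.filter_filter] at hfin
  apply hζne
  rw [← hfin]
  refine Finset.sum_congr ?_ fun _ _ => rfl
  ext i; simp only [Finset.mem_filter]; tauto

end Uniq
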