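import Mathlib
import Pool.Agent.Helper427.Chain2
import Pool.Agent.Helper427.Uniq
set_option autoImplicit false
open Finset
open scoped Real

namespace SU2
open WRT

lemma bplus_of_posDef (a : List ℤ) (h : (linking a).PosDef) : bplus a = a.length := by
  have : ∀ i, 0 < (linking_symm a).eigenvalues i := fun i => h.eigenvalues_pos i
  rw [bplus, Fintype.card_subtype]
  simp [this]

lemma bminus_of_posDef (a : List ℤ) (h : (linking a).PosDef) : bminus a = 0 := by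
  have : ∀ i, 0 < (linking_symm a).eigenvalues i := fun i => h.eigenvalues_pos i
  rw [bminus, Fintype.card_subtype]
  simp [fun i => (this i).le]

lemma bzero_of_posDef (a : List ℤ) (h : (linking a).PosDef) : bzero a = 0 := by
  have : ∀ i, 0 < (linking_symm a).eigenvalues i := fun i => h.eigenvalues_pos i
  rw [bzero, Fintype.card_subtype]
  simp [fun i => (this i).ne']

lemma posDef2 : (linking [13, 2]).PosDef := by
  refine Matrix.PosDef.of_dotProduct_mulVec_pos (linking_symm _) ?_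
  intro x hx
  have h0 : x 0 ≠ 0 ∨ x 1 ≠ 0 := by
    by_contra h
    push Not at h
    apply hx; ext i; fin_cases i
    · exact h.1
    · exact h.2
  simp [linking, dotProduct, Matrix.mulVec, Fin.sum_univ_succ]
  rcases h0 with h | h
  · have := mul_self_pos.mpr h
    nlinarith [sq_nonneg (x 0 + 2 * x 1)]
  · have := mul_self_pos.mpr h
    nlinarith [sq_nonneg (13 * x 0 + x 1)]

lemma eig_zero (i : Fin ([0] : List ℤ).length) : (linking_symm [0]).eigenvalues i = 0 := by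
  have h : linking [0] = 0 := by
    ext i j
    fin_cases i; fin_cases j
    simp [linking]
  have h2 := (linking_symm [0]).eigenvalues_eq_zero_iff.mpr h
  exact congrFun h2 i

lemma bplus_zero : bplus [0] = 0 := by
  rw [bplus, Fintype.card_eq_zero_iff]
  exact ⟨fun ⟨i, hi⟩ => by rw [eig_zero] at hi; exact lt_irrefl _ hi⟩

lemma bminus_zero : bminus [0] = 0 := by
  rw [bminus, Fintype.card_eq_zero_iff]
  exact ⟨fun ⟨i, hi⟩ => by rw [eig_zero] at hi; exact lt_irrefl _ hi⟩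

lemma bzero_zero : bzero [0] = 1 := by
  rw [bzero, Fintype.card_of_subtype Finset.univ]
  · rfl
  · intro x
    simp only [Finset.mem_univ, true_iff]
    exact eig_zero x

/-- D as a real number: √(r/2) / sin(π/r) -/
lemma dtot_eq (r : ℕ) (hr : 2 ≤ r) : dtot 2 r = Real.sqrt (r / 2) / Real.sin (π / r) := by
  have hs := sin_pi_div_pos r hr
  rw [dtot, sum_colours2]
  have h1 : ∑ l ∈ Finset.Ico 1 r, ‖qdim r (V l)‖ ^ 2 = (r / 2) / Real.sin (π / r) ^ 2 := by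
    rw [← sum_sin_sq r hr, Finset.sum_div]
    refine Finset.sum_congr rfl fun l _ => ?_
    have : qdim r (V l) = ((Real.sin (π * l / r) / Real.sin (π / r) : ℝ) : ℂ) := by
      rw [qdim2, s1]; push_cast; rfl
    rw [this, Complex.norm_real, Real.norm_eq_abs, sq_abs, div_pow]
  rw [h1, Real.sqrt_div (by positivity), Real.sqrt_sq hs.le]

lemma s1_real (r : ℕ) : s1 r = ((Real.sin (π / r) : ℝ) : ℂ) := by rw [s1]; push_cast; rfl

lemma dtot_ne (r : ℕ) (hr : 2 ≤ r) : (dtot 2 r : ℂ) ≠ 0 := by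
  have hs := sin_pi_div_pos r hr
  have : (0 : ℝ) < dtot 2 r := by
    rw [dtot_eq r hr]
    have : (0 : ℝ) < r := by exact_mod_cast (by omega : 0 < r)
    positivity
  exact_mod_cast this.ne'

lemma gauss_one (r : ℕ) (hr : 2 ≤ r) : gauss 2 r 1 = (dtot 2 r : ℂ) * e (3 / 4) * e (-(3 / (2 * r))) := by
  have hr0 : (r : ℂ) ≠ 0 := by exact_mod_cast (by omega : r ≠ 0)
  have hs := s1_ne r hr
  rw [gauss, sum_colours2]
  have h1 : ∑ l ∈ Finset.Ico 1 r, qdim r (V l) ^ 2 * twist r (V l) ^ (1 : ℤ) = e (-(1 / (2 * r))) / s1 r ^ 2 * X 1 r := by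
    rw [X, Finset.mul_sum]
    refine Finset.sum_congr rfl fun l _ => ?_
    rw [qdim2, twist2, zpow_one]
    have : Complex.exp (π * Complex.I * ((l : ℂ) ^ 2 - 1) / (2 * r)) = e (-(1 / (2 * r))) * e (((1 : ℤ) : ℂ) * (l : ℂ) ^ 2 / (2 * r)) := by
      rw [← e_add, e]; congr 1; push_cast; ring
    rw [this]
    field_simp
  rw [h1, X_one r (by omega), dtot_eq r hr]
  have h2 : ((Real.sqrt (2 * r) : ℝ) : ℂ) = 2 * ((Real.sqrt (r / 2) : ℝ) : ℂ) := by
    have : Real.sqrt (2 * r) = 2 * Real.sqrt (r / 2) := by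
      rw [show (2 : ℝ) * r = 2 ^ 2 * (r / 2) by ring, Real.sqrt_mul (by norm_num), Real.sqrt_sq (by norm_num)]
    rw [this]; push_cast; rfl
  have h3 : e (-(3 / (2 * r))) = e (-(1 / (2 * r))) * e (-(1 / r)) := by
    rw [← e_add]; congr 1; field_simp; ring
  rw [h2, h3, Complex.ofReal_div, ← s1_real]
  field_simp

lemma tau_zero (r : ℕ) (hr : 2 ≤ r) : tau 2 r [0] = (dtot 2 r : ℂ) := by
  rw [tau, bplus_zero, bminus_zero, bzero_zero]
  have h1 : chainSum r [0] (rho 2) = ((dtot 2 r : ℝ) : ℂ) ^ 2 := by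
    rw [dtot, ← Complex.ofReal_pow, Real.sq_sqrt (Finset.sum_nonneg fun _ _ => by positivity), chainSum, sum_colours2, sum_colours2]
    push_cast
    refine Finset.sum_congr rfl fun l _ => ?_
    have h2 : qdim r (V l) = ((Real.sin (π * l / r) / Real.sin (π / r) : ℝ) : ℂ) := by
      rw [qdim2, s1]; push_cast; rfl
    have h3 : hopf r (rho 2) (V l) = qdim r (V l) := by
      rw [rho2, hopf2, qdim2]; simp
    rw [zpow_zero, mul_one, chainSum, h3, ← qdim, h2, Complex.norm_real, Real.norm_eq_abs]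
    rw [← Complex.ofReal_mul, ← Complex.ofReal_pow, sq_abs, sq]
  rw [h1]
  have h2 := dtot_ne r hr
  simp
  field_simp

lemma chainSum_two (a : ℕ) (r : ℕ) (hr : 2 ≤ r) :
    chainSum r [(a : ℤ), 2] (rho 2) = (s1 r)⁻¹ ^ 3 * e (-((a + 2) / (2 * r))) * F a r := by
  have hr0 : (r : ℂ) ≠ 0 := by exact_mod_cast (by omega : r ≠ 0)
  have hs := s1_ne r hr
  rw [chainSum, sum_colours2, F, Finset.mul_sum]
  refine Finset.sum_congr rfl fun l _ => ?_
  rw [chainSum, sum_colours2, J]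
  simp only [Finset.mul_sum]
  refine Finset.sum_congr rfl fun m _ => ?_
  rw [chainSum, rho2, hopf2, hopf2, hopf2, twist2, twist2]
  have h1 : Complex.exp (π * Complex.I * ((l : ℂ) ^ 2 - 1) / (2 * r)) ^ (a : ℤ) = e (a * (l : ℂ) ^ 2 / (2 * r)) * e (-(a / (2 * r))) := by
    rw [zpow_natCast, ← Complex.exp_nat_mul, ← e_add, e]; congr 1; field_simp; ring
  have h2 : Complex.exp (π * Complex.I * ((m : ℂ) ^ 2 - 1) / (2 * r)) ^ (2 : ℤ) = e ((m : ℂ) ^ 2 / r) * e (-(1 / r)) := by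
    rw [show (2 : ℤ) = ((2 : ℕ) : ℤ) by rfl, zpow_natCast, ← Complex.exp_nat_mul, ← e_add, e]; congr 1; push_cast; field_simp; ring
  have h3 : e (-((a + 2) / (2 * r))) = e (-(a / (2 * r))) * e (-(1 / r)) := by
    rw [← e_add]; congr 1; field_simp; ring
  rw [h1, h2, h3]
  push_cast
  rw [mul_one, one_mul]
  field_simp

lemma s1_inv (r : ℕ) (hr : 2 ≤ r) : (s1 r)⁻¹ * (Real.sqrt (r / 2) : ℂ) = (dtot 2 r : ℂ) := by
  rw [dtot_eq r hr, Complex.ofReal_div, ← s1_real]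
  ring

/-- the normalised invariant of the manifold with chain [13, 2] -/
lemma Z_eq (r : ℕ) (hr : 2 ≤ r) :
    tau 2 r [13, 2] / tau 2 r [0] = (Complex.I * Real.sqrt 2 / 20) * ((r : ℝ) ^ (-(1 / 2) : ℝ) : ℝ) *
      (e (-(121 / 25) / r) * (QR 25 6 (4 * r) + QR 25 (-6) (4 * r)) -
       e (-(119 / 25) / r) * (QR 25 2 (4 * r) + QR 25 (-2) (4 * r))) := by
  have hr0 : (r : ℂ) ≠ 0 := by exact_mod_cast (by omega : r ≠ 0)
  have hrr : (0 : ℝ) < r := by exact_mod_cast (by omega : 0 < r)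
  have hs := s1_ne r hr
  have hD := dtot_ne r hr
  rw [tau_zero r hr, tau, bplus_of_posDef _ posDef2, bminus_of_posDef _ posDef2, bzero_of_posDef _ posDef2, gauss_one r hr]
  have h1 := chainSum_two 13 r hr
  have h2 := F_eq 13 25 r (by omega) (by norm_num)
  have h3 : ((13 : ℕ) : ℤ) = 13 := rfl
  rw [h3] at h1 h2
  rw [h1, h2]
  have h4 : e (-((((13 : ℕ) : ℂ) + 2) / (2 * r))) * e (-(1 / (4 * r))) * e (-(9 / (4 * ((25 : ℕ) : ℂ) * r))) =
      e (-(3 / (2 * r))) ^ 2 * e (-(121 / 25) / r) := by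
    rw [sq, ← e_add, ← e_add, ← e_add, ← e_add]; congr 1; push_cast; field_simp; norm_num
  have h5 : e (-((((13 : ℕ) : ℂ) + 2) / (2 * r))) * e (-(1 / (4 * r))) * e (-(1 / (4 * ((25 : ℕ) : ℂ) * r))) =
      e (-(3 / (2 * r))) ^ 2 * e (-(119 / 25) / r) := by
    rw [sq, ← e_add, ← e_add, ← e_add, ← e_add]; congr 1; push_cast; field_simp; norm_num
  have h6 : ((Real.sqrt ((25 : ℕ) : ℝ) : ℝ) : ℂ) = 5 := by
    have : Real.sqrt ((25 : ℕ) : ℝ) = 5 := by
      rw [show ((25 : ℕ) : ℝ) = 5 ^ 2 by norm_num, Real.sqrt_sq (by norm_num)]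
    rw [this]; norm_num
  have h7 : e (3 / 4) ^ 2 = - Complex.I := by
    rw [sq, ← e_add, e, show (π : ℂ) * Complex.I * (3 / 4 + 3 / 4) = π * Complex.I + π / 2 * Complex.I by ring, Complex.exp_add,
      Complex.exp_pi_div_two_mul_I, Complex.exp_pi_mul_I]
    ring
  have h8 := s1_inv r hr
  have h9 : (Real.sqrt (r / 2) : ℂ) ^ 3 = (r / 4) * (Real.sqrt 2 : ℂ) * ((((r : ℝ) ^ (-(1 / 2) : ℝ) : ℝ) : ℂ))⁻¹ := by
    have : Real.sqrt (r / 2) ^ 3 = (r / 4) * (Real.sqrt 2) * ((r : ℝ) ^ (-(1 / 2) : ℝ))⁻¹ := by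
      rw [Real.rpow_neg hrr.le, inv_inv, ← Real.sqrt_eq_rpow, pow_succ, Real.sq_sqrt (by positivity), Real.sqrt_div hrr.le]
      have h10 : Real.sqrt 2 * Real.sqrt 2 = 2 := Real.mul_self_sqrt (by norm_num)
      have h11 : Real.sqrt 2 ≠ 0 := by positivity
      field_simp
      linear_combination (-(2 : ℝ)) * h10
    rw [← Complex.ofReal_pow, this, Complex.ofReal_mul, Complex.ofReal_mul, Complex.ofReal_inv, Complex.ofReal_div]
    norm_num
  have hρ : ((((r : ℝ) ^ (-(1 / 2) : ℝ) : ℝ) : ℂ)) ≠ 0 := by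
    have : (r : ℝ) ^ (-(1 / 2) : ℝ) ≠ 0 := (Real.rpow_pos_of_pos hrr _).ne'
    exact_mod_cast this
  have hW : (Real.sqrt 2 : ℂ) ^ 2 = 2 := by
    rw [← Complex.ofReal_pow, Real.sq_sqrt (by norm_num)]; norm_num
  have hD3 : ((((r : ℝ) ^ (-(1 / 2) : ℝ) : ℝ) : ℂ)) * (dtot 2 r : ℂ) ^ 3 = (s1 r)⁻¹ ^ 3 * ((r / 4) * (Real.sqrt 2 : ℂ)) := by
    rw [← h8, mul_pow, h9]
    field_simp
  rw [h6]
  have hA := e_ne (3 / 4)
  have hB := e_ne (-(3 / (2 * r)))
  have hlen : (([13, 2] : List ℤ).length : ℤ) = ((2 : ℕ) : ℤ) := rfl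
  have h00 : -((0 : ℕ) : ℤ) = 0 := rfl
  rw [hlen, h00, zpow_zero, zpow_zero, mul_one, mul_one, zpow_neg, zpow_natCast, div_eq_iff hD,
    inv_mul_eq_iff_eq_mul₀ (pow_ne_zero _ (mul_ne_zero (mul_ne_zero hD hA) hB))]
  generalize ((((r : ℝ) ^ (-(1 / 2) : ℝ) : ℝ) : ℂ)) = ρ at *
  generalize (dtot 2 r : ℂ) = D at *
  generalize (s1 r)⁻¹ = S at *
  generalize (Real.sqrt 2 : ℂ) = W at *
  generalize e (3 / 4) = A at *
  generalize e (-(3 / (2 * r))) = B at *
  generalize e (-((((13 : ℕ) : ℂ) + 2) / (2 * r))) = E13 at *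
  generalize e (-(1 / (4 * r))) = E14 at *
  generalize e (-(9 / (4 * ((25 : ℕ) : ℂ) * r))) = E9 at *
  generalize e (-(1 / (4 * ((25 : ℕ) : ℂ) * r))) = E1 at *
  generalize e (-(121 / 25) / r) = f1 at *
  generalize e (-(119 / 25) / r) = f2 at *
  generalize QR 25 6 (4 * r) + QR 25 (-6) (4 * r) = Q6 at *
  generalize QR 25 2 (4 * r) + QR 25 (-2) (4 * r) = Q2 at *
  have e1 : (D * A * B) ^ 2 * (Complex.I * W / 20 * ρ * (f1 * Q6 - f2 * Q2) * D) =
      Complex.I * W / 20 * (f1 * Q6 - f2 * Q2) * B ^ 2 * (ρ * D ^ 3) * A ^ 2 := by ring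
  rw [e1, hD3, h7]
  have e2 : Complex.I * W / 20 * (f1 * Q6 - f2 * Q2) * B ^ 2 * (S ^ 3 * (r / 4 * W)) * -Complex.I =
    -(Complex.I ^ 2) * (W ^ 2) / 20 * (f1 * Q6 - f2 * Q2) * B ^ 2 * (S ^ 3 * (r / 4)) := by ring
  rw [e2, hW, Complex.I_sq]
  linear_combination (S ^ 3 * (r / 40) * Q6) * h4 - (S ^ 3 * (r / 40) * Q2) * h5

end SU2
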