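import Mathlib
import Pool.Agent.Helper427.Tau2
set_option autoImplicit false
open Finset
open scoped Real

namespace SU2
open WRT

lemma posDef32 : (linking [3, 2]).PosDef := by
  refine Matrix.PosDef.of_dotProduct_mulVec_pos (linking_symm _) ?_
  intro x hx
  have h0 : x 0 ≠ 0 ∨ x 1 ≠ 0 := by
    by_contra h
    push Not at h
    apply hx; ext i; fin_cases i
    · exact h.1
    · exact h.2
  simp [linking, dotProduct, Matrix.mulVec, Fin.sum_univ_succ]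
  rcases h0 with h | h
  · have := mul_self_pos.mpr h
    nlinarith [sq_nonneg (x 0 + 2 * x 1)]
  · have := mul_self_pos.mpr h
    nlinarith [sq_nonneg (3 * x 0 + x 1)]

lemma posDef5 : (linking [5]).PosDef := by
  refine Matrix.PosDef.of_dotProduct_mulVec_pos (linking_symm _) ?_
  intro x hx
  have h0 : x 0 ≠ 0 := by
    intro h; apply hx; ext i; fin_cases i; exact h
  simp [linking, dotProduct, Matrix.mulVec, Fin.sum_univ_succ]
  have := mul_self_pos.mpr h0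
  nlinarith

/-- the normalised invariant of L(5,2), the manifold of the chain [3, 2] -/
lemma Z32_eq (r : ℕ) (hr : 2 ≤ r) :
    tau 2 r [3, 2] / tau 2 r [0] = (Complex.I * Real.sqrt 2 / (4 * Real.sqrt 5)) * ((r : ℝ) ^ (-(1 / 2) : ℝ) : ℝ) *
      (e (-(1 / 5) / r) * (QR 5 6 (4 * r) + QR 5 (-6) (4 * r)) -
       e ((1 / 5) / r) * (QR 5 2 (4 * r) + QR 5 (-2) (4 * r))) := by
  have hr0 : (r : ℂ) ≠ 0 := by exact_mod_cast (by omega : r ≠ 0)
  have hrr : (0 : ℝ) < r := by exact_mod_cast (by omega : 0 < r)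
  have hs := s1_ne r hr
  have hD := dtot_ne r hr
  rw [tau_zero r hr, tau, bplus_of_posDef _ posDef32, bminus_of_posDef _ posDef32, bzero_of_posDef _ posDef32, gauss_one r hr]
  have h1 := chainSum_two 3 r hr
  have h2 := F_eq 3 5 r (by omega) (by norm_num)
  have h3 : ((3 : ℕ) : ℤ) = 3 := rfl
  rw [h3] at h1 h2
  rw [h1, h2]
  have h4 : e (-((((3 : ℕ) : ℂ) + 2) / (2 * r))) * e (-(1 / (4 * r))) * e (-(9 / (4 * ((5 : ℕ) : ℂ) * r))) =
      e (-(3 / (2 * r))) ^ 2 * e (-(1 / 5) / r) := by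
    rw [sq, ← e_add, ← e_add, ← e_add, ← e_add]; congr 1; push_cast; field_simp; norm_num
  have h5 : e (-((((3 : ℕ) : ℂ) + 2) / (2 * r))) * e (-(1 / (4 * r))) * e (-(1 / (4 * ((5 : ℕ) : ℂ) * r))) =
      e (-(3 / (2 * r))) ^ 2 * e ((1 / 5) / r) := by
    rw [sq, ← e_add, ← e_add, ← e_add, ← e_add]; congr 1; push_cast; field_simp; norm_num
  have h7 : e (3 / 4) ^ 2 = - Complex.I := by
    rw [sq, ← e_add, e, show (π : ℂ) * Complex.I * (3 / 4 + 3 / 4) = π * Complex.I + π / 2 * Complex.I by ring, Complex.exp_add,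
      Complex.exp_pi_div_two_mul_I, Complex.exp_pi_mul_I]
    ring
  have h8 := s1_inv r hr
  have h9 : (Real.sqrt (r / 2) : ℂ) ^ 3 = (r / 4) * (Real.sqrt 2 : ℂ) * ((((r : ℝ) ^ (-(1 / 2) : ℝ) : ℝ) : ℂ))⁻¹ := by
    have : Real.sqrt (r / 2) ^ 3 = (r / 4) * (Real.sqrt 2) * ((r : ℝ) ^ (-(1 / 2) : ℝ))⁻¹ := by
      rw [Real.rpow_neg hrr.le, inv_inv, ← Real.sqrt_eq_rpow, pow_succ, Real.sq_sqrt (by positivity), Real.sqrt_div hrr.le]
      have h10 : Real.sqrt 2 * Real.sqrt 2 = 2 := Real.mul_self_sqrt (by norm_num)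
      have h11 : Real.sqrt 2 ≠ 0 := by positivity
      field_simp
      linear_combination (-(2 : ℝ)) * h10
    rw [← Complex.ofReal_pow, this, Complex.ofReal_mul, Complex.ofReal_mul, Complex.ofReal_inv, Complex.ofReal_div]
    norm_num
  have hρ : ((((r : ℝ) ^ (-(1 / 2) : ℝ) : ℝ) : ℂ)) ≠ 0 := by
    have : (r : ℝ) ^ (-(1 / 2) : ℝ) ≠ 0 := (Real.rpow_pos_of_pos hrr _).ne'
    exact_mod_cast this
  have hW : (Real.sqrt 2 : ℂ) ^ 2 = 2 := by
    rw [← Complex.ofReal_pow, Real.sq_sqrt (by norm_num)]; norm_num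
  have hD3 : ((((r : ℝ) ^ (-(1 / 2) : ℝ) : ℝ) : ℂ)) * (dtot 2 r : ℂ) ^ 3 = (s1 r)⁻¹ ^ 3 * ((r / 4) * (Real.sqrt 2 : ℂ)) := by
    rw [← h8, mul_pow, h9]
    field_simp
  have hV : (Real.sqrt 5 : ℂ) ≠ 0 := by
    have : Real.sqrt 5 ≠ 0 := by positivity
    exact_mod_cast this
  have h55 : Real.sqrt ((5 : ℕ) : ℝ) = Real.sqrt 5 := by norm_num
  rw [h55]
  have hA := e_ne (3 / 4)
  have hB := e_ne (-(3 / (2 * r)))
  have hlen : (([3, 2] : List ℤ).length : ℤ) = ((2 : ℕ) : ℤ) := rfl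
  have h00 : -((0 : ℕ) : ℤ) = 0 := rfl
  rw [hlen, h00, zpow_zero, zpow_zero, mul_one, mul_one, zpow_neg, zpow_natCast, div_eq_iff hD,
    inv_mul_eq_iff_eq_mul₀ (pow_ne_zero _ (mul_ne_zero (mul_ne_zero hD hA) hB))]
  generalize ((((r : ℝ) ^ (-(1 / 2) : ℝ) : ℝ) : ℂ)) = ρ at *
  generalize (dtot 2 r : ℂ) = D at *
  generalize (s1 r)⁻¹ = S at *
  generalize (Real.sqrt 2 : ℂ) = W at *
  generalize (Real.sqrt 5 : ℂ) = Q at *
  generalize e (3 / 4) = A at *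
  generalize e (-(3 / (2 * r))) = B at *
  generalize e (-((((3 : ℕ) : ℂ) + 2) / (2 * r))) = E13 at *
  generalize e (-(1 / (4 * r))) = E14 at *
  generalize e (-(9 / (4 * ((5 : ℕ) : ℂ) * r))) = E9 at *
  generalize e (-(1 / (4 * ((5 : ℕ) : ℂ) * r))) = E1 at *
  generalize e (-(1 / 5) / r) = f1 at *
  generalize e ((1 / 5) / r) = f2 at *
  generalize QR 5 6 (4 * r) + QR 5 (-6) (4 * r) = Q6 at *
  generalize QR 5 2 (4 * r) + QR 5 (-2) (4 * r) = Q2 at *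
  have e1 : (D * A * B) ^ 2 * (Complex.I * W / (4 * Q) * ρ * (f1 * Q6 - f2 * Q2) * D) =
      Complex.I * W / (4 * Q) * (f1 * Q6 - f2 * Q2) * B ^ 2 * (ρ * D ^ 3) * A ^ 2 := by ring
  rw [e1, hD3, h7]
  have e2 : Complex.I * W / (4 * Q) * (f1 * Q6 - f2 * Q2) * B ^ 2 * (S ^ 3 * (r / 4 * W)) * -Complex.I =
    -(Complex.I ^ 2) * (W ^ 2) / (4 * Q) * (f1 * Q6 - f2 * Q2) * B ^ 2 * (S ^ 3 * (r / 4)) := by ring
  rw [e2, hW, Complex.I_sq]
  have e3 : ∀ x : ℂ, -(-1 : ℂ) * 2 / (4 * Q) * x = x / (2 * Q) := by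
    intro x; field_simp; norm_num
  linear_combination (S ^ 3 * (r / (8 * Q)) * Q6) * h4 - (S ^ 3 * (r / (8 * Q)) * Q2) * h5

/-! chains of length one -/

lemma chainSum_one (a : ℕ) (r : ℕ) (hr : 2 ≤ r) :
    chainSum r [(a : ℤ)] (rho 2) = (s1 r)⁻¹ ^ 2 * e (-(a / (2 * r))) * X a r := by
  have hr0 : (r : ℂ) ≠ 0 := by exact_mod_cast (by omega : r ≠ 0)
  have hs := s1_ne r hr
  rw [chainSum, sum_colours2, X, Finset.mul_sum]
  refine Finset.sum_congr rfl fun l _ => ?_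
  rw [chainSum, rho2, hopf2, hopf2, twist2]
  have h1 : Complex.exp (π * Complex.I * ((l : ℂ) ^ 2 - 1) / (2 * r)) ^ (a : ℤ) = e (a * (l : ℂ) ^ 2 / (2 * r)) * e (-(a / (2 * r))) := by
    rw [zpow_natCast, ← Complex.exp_nat_mul, ← e_add, e]; congr 1; field_simp; ring
  rw [h1]
  push_cast
  rw [mul_one, one_mul]
  field_simp

lemma conj_e (x : ℝ) : (starRingEnd ℂ) (e (x : ℂ)) = e (-(x : ℂ)) := by
  rw [e, e, ← Complex.exp_conj]; congr 1; simp

lemma conj_hopf (r l m : ℕ) : (starRingEnd ℂ) (hopf r (V l) (V m)) = hopf r (V l) (V m) := by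
  have : hopf r (V l) (V m) = ((Real.sin (π * (l * m) / r) / Real.sin (π / r) : ℝ) : ℂ) := by
    rw [hopf2, s1]; push_cast; rfl
  rw [this, Complex.conj_ofReal]

lemma conj_twist (r l : ℕ) (n : ℤ) : (starRingEnd ℂ) (twist r (V l) ^ n) = twist r (V l) ^ (-n) := by
  have h : (starRingEnd ℂ) (twist r (V l)) = (twist r (V l))⁻¹ := by
    rw [twist, ← Complex.exp_conj, ← Complex.exp_neg]; congr 1; simp; ring
  rw [map_zpow₀, h, inv_zpow, zpow_neg]

lemma conj_gauss (r : ℕ) : gauss 2 r (-1) = (starRingEnd ℂ) (gauss 2 r 1) := by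
  rw [gauss, gauss, sum_colours2, sum_colours2, map_sum]
  refine Finset.sum_congr rfl fun l _ => ?_
  rw [map_mul, map_pow, conj_twist, qdim, rho2, conj_hopf]

lemma conj_chainSum (r : ℕ) (a : ℤ) : chainSum r [-a] (rho 2) = (starRingEnd ℂ) (chainSum r [a] (rho 2)) := by
  rw [chainSum, chainSum, sum_colours2, sum_colours2, map_sum]
  refine Finset.sum_congr rfl fun l _ => ?_
  rw [chainSum, rho2, map_mul, map_mul, conj_twist, conj_hopf, conj_hopf]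

end SU2
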