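import Mathlib
import Pool.Agent.Helper427.Dj1
set_option autoImplicit false
open Finset
open scoped Real

namespace SU2
open WRT

/-- the fifth root of unity -/
noncomputable def ze : ℂ := e (2 / 5)

lemma ze5 : ze ^ 5 = 1 := by
  rw [ze, ← e_nat_mul, ← e_zero]
  exact e_congr 1 (by push_cast; ring)

lemma ze_ne : ze ≠ 0 := e_ne _

lemma ze_re : ze + ze ^ 4 = ((Real.sqrt 5 : ℝ) - 1) / 2 := by
  have h1 : ze ^ 4 = e (-(2 / 5)) := by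
    rw [ze, ← e_nat_mul]; exact e_congr 1 (by push_cast; ring)
  have h2 : ze = Complex.exp (((2 * π / 5 : ℝ) : ℂ) * Complex.I) := by
    rw [ze, e]; congr 1; push_cast; ring
  have h3 : e (-(2 / 5)) = Complex.exp (-(((2 * π / 5 : ℝ) : ℂ) * Complex.I)) := by
    rw [e]; congr 1; push_cast; ring
  rw [h1, h3]
  nth_rewrite 1 [h2]
  have h4 : Complex.cos ((2 * π / 5 : ℝ) : ℂ) = (Complex.exp (((2 * π / 5 : ℝ) : ℂ) * Complex.I) + Complex.exp (-(((2 * π / 5 : ℝ) : ℂ) * Complex.I))) / 2 := by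
    rw [Complex.cos]; ring_nf
  have h5 : Real.cos (2 * π / 5) = (Real.sqrt 5 - 1) / 4 := by
    have h6 : Real.cos (2 * π / 5) = 2 * Real.cos (π / 5) ^ 2 - 1 := by
      rw [← Real.cos_two_mul]; congr 1; ring
    rw [h6, Real.cos_pi_div_five]
    have : Real.sqrt 5 ^ 2 = 5 := Real.sq_sqrt (by norm_num)
    linear_combination (1 / 8) * this
  have h7 : Complex.cos ((2 * π / 5 : ℝ) : ℂ) = (((Real.sqrt 5 - 1) / 4 : ℝ) : ℂ) := by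
    rw [← h5]; push_cast; rfl
  push_cast at h7 h4 ⊢
  linear_combination (-(2 : ℂ)) * h4 + 2 * h7

lemma ze_sum : 1 + ze + ze ^ 2 + ze ^ 3 + ze ^ 4 = 0 := by
  have h1 : ze ≠ 1 := by
    intro h
    rw [ze, e, Complex.exp_eq_one_iff] at h
    obtain ⟨n, hn⟩ := h
    have hpi : (π : ℂ) ≠ 0 := by exact_mod_cast Real.pi_ne_zero
    have h4 : (1 : ℂ) = 5 * n := by
      field_simp at hn
      linear_combination hn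
    have h5 : (1 : ℤ) = 5 * n := by exact_mod_cast h4
    omega
  have h2 : (ze - 1) * (1 + ze + ze ^ 2 + ze ^ 3 + ze ^ 4) = 0 := by
    linear_combination ze5
  exact (mul_eq_zero.mp h2).resolve_left (sub_ne_zero.mpr h1)

/-- α = 2 cos (2π/5) and β = 2 cos (4π/5) -/
noncomputable def al : ℂ := ((Real.sqrt 5 : ℝ) - 1) / 2
noncomputable def be : ℂ := (-(Real.sqrt 5 : ℝ) - 1) / 2

lemma al_eq : ze + ze ^ 4 = al := ze_re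
lemma be_eq : ze ^ 2 + ze ^ 3 = be := by
  have h1 := ze_sum
  have h2 := ze_re
  rw [be]
  linear_combination h1 - h2

lemma sq5 : (Real.sqrt 5 : ℂ) ^ 2 = 5 := by
  rw [← Complex.ofReal_pow, Real.sq_sqrt (by norm_num)]; norm_num

lemma zk (r j k : ℕ) : ze ^ j * (ze ^ r) ^ k = e (2 * (j + r * k) / 5) := by
  rw [ze, ← pow_mul, ← pow_add, ← e_nat_mul]; congr 1; push_cast; ring

lemma QR5_sum (b : ℤ) (c : ℕ) : QR 5 b c = 1 + e ((b - c) / 5) + e ((2 * b - 4 * c) / 5) + e ((3 * b - 9 * c) / 5) +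
    e ((4 * b - 16 * c) / 5) := by
  rw [QR]
  simp only [Finset.sum_range_succ, Finset.sum_range_zero, zero_add]
  push_cast
  have h0 : e (((b : ℂ) * 0 - c * 0 ^ 2) / 5) = 1 := by
    rw [show ((b : ℂ) * 0 - c * 0 ^ 2) / 5 = 0 by ring, e_zero]
  rw [h0]
  congr 1
  · congr 1
    · congr 1
      · congr 2; ring
      · congr 1; ring
    · congr 1; ring
  · congr 1; ring

lemma QR_p4 (r : ℕ) : QR 5 4 (2 * r) = 1 + be * (ze ^ r) ^ 4 + al * ze ^ r := by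
  rw [QR5_sum, ← al_eq, ← be_eq]
  have h1 : e ((((4 : ℤ) : ℂ) - ((2 * r : ℕ) : ℂ)) / 5) = ze ^ 2 * (ze ^ r) ^ 4 := by
    rw [zk]; exact e_congr (-r) (by push_cast; ring)
  have h2 : e ((2 * ((4 : ℤ) : ℂ) - 4 * ((2 * r : ℕ) : ℂ)) / 5) = ze ^ 4 * (ze ^ r) ^ 1 := by
    rw [zk]; exact e_congr (-r) (by push_cast; ring)
  have h3 : e ((3 * ((4 : ℤ) : ℂ) - 9 * ((2 * r : ℕ) : ℂ)) / 5) = ze ^ 1 * (ze ^ r) ^ 1 := by
    rw [zk]; exact e_congr (-(2 * r) + 1) (by push_cast; ring)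
  have h4 : e ((4 * ((4 : ℤ) : ℂ) - 16 * ((2 * r : ℕ) : ℂ)) / 5) = ze ^ 3 * (ze ^ r) ^ 4 := by
    rw [zk]; exact e_congr (-(4 * r) + 1) (by push_cast; ring)
  rw [h1, h2, h3, h4]; ring

lemma QR_m4 (r : ℕ) : QR 5 (-4) (2 * r) = 1 + be * (ze ^ r) ^ 4 + al * ze ^ r := by
  rw [QR5_sum, ← al_eq, ← be_eq]
  have h1 : e ((((-4 : ℤ) : ℂ) - ((2 * r : ℕ) : ℂ)) / 5) = ze ^ 3 * (ze ^ r) ^ 4 := by
    rw [zk]; exact e_congr (-r - 1) (by push_cast; ring)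
  have h2 : e ((2 * ((-4 : ℤ) : ℂ) - 4 * ((2 * r : ℕ) : ℂ)) / 5) = ze ^ 1 * (ze ^ r) ^ 1 := by
    rw [zk]; exact e_congr (-r - 1) (by push_cast; ring)
  have h3 : e ((3 * ((-4 : ℤ) : ℂ) - 9 * ((2 * r : ℕ) : ℂ)) / 5) = ze ^ 4 * (ze ^ r) ^ 1 := by
    rw [zk]; exact e_congr (-(2 * r) - 2) (by push_cast; ring)
  have h4 : e ((4 * ((-4 : ℤ) : ℂ) - 16 * ((2 * r : ℕ) : ℂ)) / 5) = ze ^ 2 * (ze ^ r) ^ 4 := by
    rw [zk]; exact e_congr (-(4 * r) - 2) (by push_cast; ring)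
  rw [h1, h2, h3, h4]; ring

lemma QR_z0 (r : ℕ) : QR 5 0 (2 * r) = 1 + 2 * (ze ^ r) ^ 4 + 2 * ze ^ r := by
  rw [QR5_sum]
  have h1 : e ((((0 : ℤ) : ℂ) - ((2 * r : ℕ) : ℂ)) / 5) = ze ^ 0 * (ze ^ r) ^ 4 := by
    rw [zk]; exact e_congr (-r) (by push_cast; ring)
  have h2 : e ((2 * ((0 : ℤ) : ℂ) - 4 * ((2 * r : ℕ) : ℂ)) / 5) = ze ^ 0 * (ze ^ r) ^ 1 := by
    rw [zk]; exact e_congr (-r) (by push_cast; ring)
  have h3 : e ((3 * ((0 : ℤ) : ℂ) - 9 * ((2 * r : ℕ) : ℂ)) / 5) = ze ^ 0 * (ze ^ r) ^ 1 := by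
    rw [zk]; exact e_congr (-(2 * r)) (by push_cast; ring)
  have h4 : e ((4 * ((0 : ℤ) : ℂ) - 16 * ((2 * r : ℕ) : ℂ)) / 5) = ze ^ 0 * (ze ^ r) ^ 4 := by
    rw [zk]; exact e_congr (-(4 * r)) (by push_cast; ring)
  rw [h1, h2, h3, h4]; ring

lemma QR_p6 (r : ℕ) : QR 5 6 (4 * r) = 1 + be * (ze ^ r) ^ 3 + al * (ze ^ r) ^ 2 := by
  rw [QR5_sum, ← al_eq, ← be_eq]
  have h1 : e ((((6 : ℤ) : ℂ) - ((4 * r : ℕ) : ℂ)) / 5) = ze ^ 3 * (ze ^ r) ^ 3 := by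
    rw [zk]; exact e_congr (-r) (by push_cast; ring)
  have h2 : e ((2 * ((6 : ℤ) : ℂ) - 4 * ((4 * r : ℕ) : ℂ)) / 5) = ze ^ 1 * (ze ^ r) ^ 2 := by
    rw [zk]; exact e_congr (-(2 * r) + 1) (by push_cast; ring)
  have h3 : e ((3 * ((6 : ℤ) : ℂ) - 9 * ((4 * r : ℕ) : ℂ)) / 5) = ze ^ 4 * (ze ^ r) ^ 2 := by
    rw [zk]; exact e_congr (-(4 * r) + 1) (by push_cast; ring)
  have h4 : e ((4 * ((6 : ℤ) : ℂ) - 16 * ((4 * r : ℕ) : ℂ)) / 5) = ze ^ 2 * (ze ^ r) ^ 3 := by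
    rw [zk]; exact e_congr (-(7 * r) + 2) (by push_cast; ring)
  rw [h1, h2, h3, h4]; ring

lemma QR_m6 (r : ℕ) : QR 5 (-6) (4 * r) = 1 + be * (ze ^ r) ^ 3 + al * (ze ^ r) ^ 2 := by
  rw [QR5_sum, ← al_eq, ← be_eq]
  have h1 : e ((((-6 : ℤ) : ℂ) - ((4 * r : ℕ) : ℂ)) / 5) = ze ^ 2 * (ze ^ r) ^ 3 := by
    rw [zk]; exact e_congr (-r - 1) (by push_cast; ring)
  have h2 : e ((2 * ((-6 : ℤ) : ℂ) - 4 * ((4 * r : ℕ) : ℂ)) / 5) = ze ^ 4 * (ze ^ r) ^ 2 := by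
    rw [zk]; exact e_congr (-(2 * r) - 2) (by push_cast; ring)
  have h3 : e ((3 * ((-6 : ℤ) : ℂ) - 9 * ((4 * r : ℕ) : ℂ)) / 5) = ze ^ 1 * (ze ^ r) ^ 2 := by
    rw [zk]; exact e_congr (-(4 * r) - 2) (by push_cast; ring)
  have h4 : e ((4 * ((-6 : ℤ) : ℂ) - 16 * ((4 * r : ℕ) : ℂ)) / 5) = ze ^ 3 * (ze ^ r) ^ 3 := by
    rw [zk]; exact e_congr (-(7 * r) - 3) (by push_cast; ring)
  rw [h1, h2, h3, h4]; ring

lemma QR_p2 (r : ℕ) : QR 5 2 (4 * r) = 1 + al * (ze ^ r) ^ 3 + be * (ze ^ r) ^ 2 := by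
  rw [QR5_sum, ← al_eq, ← be_eq]
  have h1 : e ((((2 : ℤ) : ℂ) - ((4 * r : ℕ) : ℂ)) / 5) = ze ^ 1 * (ze ^ r) ^ 3 := by
    rw [zk]; exact e_congr (-r) (by push_cast; ring)
  have h2 : e ((2 * ((2 : ℤ) : ℂ) - 4 * ((4 * r : ℕ) : ℂ)) / 5) = ze ^ 2 * (ze ^ r) ^ 2 := by
    rw [zk]; exact e_congr (-(2 * r)) (by push_cast; ring)
  have h3 : e ((3 * ((2 : ℤ) : ℂ) - 9 * ((4 * r : ℕ) : ℂ)) / 5) = ze ^ 3 * (ze ^ r) ^ 2 := by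
    rw [zk]; exact e_congr (-(4 * r)) (by push_cast; ring)
  have h4 : e ((4 * ((2 : ℤ) : ℂ) - 16 * ((4 * r : ℕ) : ℂ)) / 5) = ze ^ 4 * (ze ^ r) ^ 3 := by
    rw [zk]; exact e_congr (-(7 * r)) (by push_cast; ring)
  rw [h1, h2, h3, h4]; ring

lemma QR_m2 (r : ℕ) : QR 5 (-2) (4 * r) = 1 + al * (ze ^ r) ^ 3 + be * (ze ^ r) ^ 2 := by
  rw [QR5_sum, ← al_eq, ← be_eq]
  have h1 : e ((((-2 : ℤ) : ℂ) - ((4 * r : ℕ) : ℂ)) / 5) = ze ^ 4 * (ze ^ r) ^ 3 := by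
    rw [zk]; exact e_congr (-r - 1) (by push_cast; ring)
  have h2 : e ((2 * ((-2 : ℤ) : ℂ) - 4 * ((4 * r : ℕ) : ℂ)) / 5) = ze ^ 3 * (ze ^ r) ^ 2 := by
    rw [zk]; exact e_congr (-(2 * r) - 1) (by push_cast; ring)
  have h3 : e ((3 * ((-2 : ℤ) : ℂ) - 9 * ((4 * r : ℕ) : ℂ)) / 5) = ze ^ 2 * (ze ^ r) ^ 2 := by
    rw [zk]; exact e_congr (-(4 * r) - 1) (by push_cast; ring)
  have h4 : e ((4 * ((-2 : ℤ) : ℂ) - 16 * ((4 * r : ℕ) : ℂ)) / 5) = ze ^ 1 * (ze ^ r) ^ 3 := by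
    rw [zk]; exact e_congr (-(7 * r) - 1) (by push_cast; ring)
  rw [h1, h2, h3, h4]; ring

end SU2
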