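import Mathlib
import Pool.Agent.Helper427.Dj2
set_option autoImplicit false
open Finset
open scoped Real

namespace SU2
open WRT

lemma z5 (r : ℕ) : (ze ^ r) ^ 5 = 1 := by
  rw [← pow_mul, mul_comm, pow_mul, ze5, one_pow]

lemma X5_eq (r : ℕ) (hr : 1 ≤ r) :
    X 5 r = -(1 / 4) * (Real.sqrt (2 * r / 5) : ℂ) * e (1 / 4) *
      (e (-(2 / 5) / r) * (1 + be * (ze ^ r) ^ 4 + al * ze ^ r) - (1 + 2 * (ze ^ r) ^ 4 + 2 * ze ^ r)) := by
  have hr0 : (r : ℂ) ≠ 0 := by exact_mod_cast (by omega : r ≠ 0)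
  have h := X_sum 5 r hr
  have h3 : ((5 : ℕ) : ℤ) = 5 := rfl
  rw [h3] at h
  rw [h, QG_eq 5 (2 * r) (by norm_num) (by omega) 4 (by refine ⟨5 * r + 2, ?_⟩; push_cast; ring),
    QG_eq 5 (2 * r) (by norm_num) (by omega) (-4) (by refine ⟨5 * r - 2, ?_⟩; push_cast; ring),
    QG_eq 5 (2 * r) (by norm_num) (by omega) 0 (by refine ⟨5 * r, ?_⟩; push_cast; ring), QR_p4, QR_m4, QR_z0]
  have h4 : ∀ x : ℂ, x = 4 ∨ x = -4 → e (-(x ^ 2 / (4 * ((5 : ℕ) : ℂ) * ((2 * r : ℕ) : ℂ)))) = e (-(2 / 5) / r) := by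
    intro x hx
    congr 1
    rcases hx with rfl | rfl <;> · push_cast; field_simp; norm_num
  have h5 : e (-(((0 : ℤ) : ℂ) ^ 2 / (4 * ((5 : ℕ) : ℂ) * ((2 * r : ℕ) : ℂ)))) = 1 := by
    simp [e_zero]
  rw [h5, h4 _ (by left; norm_num), h4 _ (by right; norm_num)]
  have h6 : Real.sqrt (((2 * r : ℕ) : ℝ) / ((5 : ℕ) : ℝ)) = Real.sqrt (2 * r / 5) := by
    congr 1; push_cast; ring
  rw [h6]
  ring

lemma conj_ze : (starRingEnd ℂ) ze = ze ^ 4 := by
  have h := conj_e (2 / 5)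
  push_cast at h
  rw [ze, h, ← e_nat_mul]
  exact e_congr (-1) (by push_cast; ring)

lemma conj_al : (starRingEnd ℂ) al = al := by
  have : al = (((Real.sqrt 5 - 1) / 2 : ℝ) : ℂ) := by rw [al]; push_cast; rfl
  rw [this, Complex.conj_ofReal]

lemma conj_be : (starRingEnd ℂ) be = be := by
  have : be = (((-Real.sqrt 5 - 1) / 2 : ℝ) : ℂ) := by rw [be]; push_cast; rfl
  rw [this, Complex.conj_ofReal]

/-- U and its conjugate -/
noncomputable def U (r : ℕ) : ℂ := e (-(2 / 5) / r) * (1 + be * (ze ^ r) ^ 4 + al * ze ^ r) - (1 + 2 * (ze ^ r) ^ 4 + 2 * ze ^ r)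
noncomputable def U' (r : ℕ) : ℂ := e ((2 / 5) / r) * (1 + be * ze ^ r + al * (ze ^ r) ^ 4) - (1 + 2 * (ze ^ r) ^ 4 + 2 * ze ^ r)

lemma conj_U (r : ℕ) : (starRingEnd ℂ) (U r) = U' r := by
  have h1 : (starRingEnd ℂ) (e (-(2 / 5) / r)) = e ((2 / 5) / r) := by
    have h := conj_e (-(2 / 5) / r)
    push_cast at h
    rw [h]; congr 1; ring
  have h2 : (starRingEnd ℂ) (ze ^ r) = (ze ^ r) ^ 4 := by
    rw [map_pow, conj_ze, ← pow_mul, ← pow_mul, mul_comm]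
  rw [U, U']
  simp only [map_sub, map_mul, map_add, map_one, map_pow, conj_al, conj_be, h1, map_ofNat]
  rw [← map_pow, h2]
  have h5 := z5 r
  generalize ze ^ r = z at *
  linear_combination (e ((2 / 5) / r) * be * z * (z ^ 10 + z ^ 5 + 1) - 2 * z * (z ^ 10 + z ^ 5 + 1)) * h5

lemma tau_five (r : ℕ) (hr : 2 ≤ r) : tau 2 r [5] = (gauss 2 r 1)⁻¹ * ((s1 r)⁻¹ ^ 2 * e (-(5 / (2 * r))) * X 5 r) := by
  rw [tau, bplus_of_posDef _ posDef5, bminus_of_posDef _ posDef5, bzero_of_posDef _ posDef5]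
  have h := chainSum_one 5 r hr
  push_cast at h
  rw [h]
  simp

lemma eig_neg (i : Fin ([-5] : List ℤ).length) : (linking_symm [-5]).eigenvalues i < 0 := by
  have hpd : (-(linking [-5])).PosDef := by
    have : -(linking [-5]) = (linking [5]) := by
      ext i j
      fin_cases i; fin_cases j
      simp [linking]
    rw [this]; exact posDef5
  have h := (linking_symm [-5]).mulVec_eigenvectorBasis i
  set v := ((linking_symm [-5]).eigenvectorBasis i) with hv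
  have hv0 : v.ofLp ≠ 0 := by
    intro h0
    have h1 : ‖v‖ = 1 := (linking_symm [-5]).eigenvectorBasis.norm_eq_one i
    have h2 : v = 0 := by ext j; exact congrFun h0 j
    rw [h2] at h1; simp at h1
  have h3 := hpd.dotProduct_mulVec_pos hv0
  rw [Matrix.neg_mulVec, h] at h3
  have h4 : star v.ofLp ⬝ᵥ -((linking_symm [-5]).eigenvalues i • v.ofLp) = -((linking_symm [-5]).eigenvalues i) * (star v.ofLp ⬝ᵥ v.ofLp) := by
    rw [dotProduct_neg, dotProduct_smul]; simp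
  rw [h4] at h3
  have h5 : 0 ≤ star v.ofLp ⬝ᵥ v.ofLp := by
    simp only [dotProduct, Pi.star_apply]
    exact Finset.sum_nonneg fun j _ => by simp [mul_self_nonneg]
  by_contra hge
  push Not at hge
  nlinarith

lemma bplus_neg : bplus [-5] = 0 := by
  rw [bplus, Fintype.card_eq_zero_iff]
  exact ⟨fun ⟨i, hi⟩ => absurd (eig_neg i) (not_lt.mpr hi.le)⟩

lemma bzero_neg : bzero [-5] = 0 := by
  rw [bzero, Fintype.card_eq_zero_iff]
  exact ⟨fun ⟨i, hi⟩ => absurd (eig_neg i) (not_lt.mpr hi.ge)⟩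

lemma bminus_neg : bminus [-5] = 1 := by
  rw [bminus, Fintype.card_of_subtype Finset.univ]
  · rfl
  · intro x
    simp only [Finset.mem_univ, true_iff]
    exact eig_neg x

lemma tau_neg_five (r : ℕ) : tau 2 r [-5] = (gauss 2 r (-1))⁻¹ * chainSum r [-5] (rho 2) := by
  rw [tau, bplus_neg, bzero_neg, bminus_neg]
  simp

lemma tau_prod (r : ℕ) (hr : 2 ≤ r) : tau 2 r [5] * tau 2 r [-5] = (s1 r)⁻¹ ^ 2 / 20 * (U r * U' r) := by
  have hr0 : (r : ℂ) ≠ 0 := by exact_mod_cast (by omega : r ≠ 0)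
  have hs := s1_ne r hr
  have hD := dtot_ne r hr
  have h1 : tau 2 r [-5] = (starRingEnd ℂ) (tau 2 r [5]) := by
    rw [tau_neg_five, conj_gauss, conj_chainSum, tau, bplus_of_posDef _ posDef5, bminus_of_posDef _ posDef5, bzero_of_posDef _ posDef5]
    simp
  have hX : (starRingEnd ℂ) (X 5 r) = -(1 / 4) * (Real.sqrt (2 * r / 5) : ℂ) * e (-(1 / 4)) * U' r := by
    rw [X5_eq r (by omega), ← U, map_mul, map_mul, map_mul, conj_U, Complex.conj_ofReal]
    have h := conj_e (1 / 4)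
    push_cast at h
    rw [h, map_neg, map_div₀, map_one, map_ofNat]
  have hG : (starRingEnd ℂ) (gauss 2 r 1) = (dtot 2 r : ℂ) * e (-(3 / 4)) * e (3 / (2 * r)) := by
    rw [gauss_one r hr, map_mul, map_mul, Complex.conj_ofReal]
    have h2 := conj_e (3 / 4)
    have h3 := conj_e (-(3 / (2 * r)))
    push_cast at h2 h3
    rw [h2, h3, neg_neg]
  have hsc : (starRingEnd ℂ) (s1 r) = s1 r := by rw [s1_real, Complex.conj_ofReal]
  have h5 : (starRingEnd ℂ) (e (-(5 / (2 * r)))) = e (5 / (2 * r)) := by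
    have h3 := conj_e (-(5 / (2 * r)))
    push_cast at h3
    rw [h3, neg_neg]
  rw [h1, tau_five r hr, map_mul, map_mul, map_mul, map_inv₀, map_pow, map_inv₀, hG, hX, hsc, h5, gauss_one r hr, X5_eq r (by omega), ← U]
  have i1 : e (3 / 4) * e (-(3 / 4)) = 1 := by rw [← e_add]; simp [e_zero]
  have i2 : e (-(3 / (2 * r))) * e (3 / (2 * r)) = 1 := by rw [← e_add]; simp [e_zero]
  have i3 : e (-(5 / (2 * r))) * e (5 / (2 * r)) = 1 := by rw [← e_add]; simp [e_zero]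
  have i4 : e (1 / 4) * e (-(1 / 4)) = 1 := by rw [← e_add]; simp [e_zero]
  have hsq : (Real.sqrt (2 * r / 5) : ℂ) ^ 2 = 2 * r / 5 := by
    rw [← Complex.ofReal_pow, Real.sq_sqrt (by positivity)]; push_cast; ring
  have hD2 : (dtot 2 r : ℂ) ^ 2 = (s1 r)⁻¹ ^ 2 * (r / 2) := by
    rw [← s1_inv r hr, mul_pow]
    congr 1
    rw [← Complex.ofReal_pow, Real.sq_sqrt (by positivity)]; push_cast; ring
  have e1 := e_ne (3 / 4)
  have e2 := e_ne (-(3 / 4))
  have e3 := e_ne (-(3 / (2 * r)))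
  have e4 := e_ne (3 / (2 * r))
  generalize e (3 / 4) = A at *
  generalize e (-(3 / 4)) = A' at *
  generalize e (-(3 / (2 * r))) = B at *
  generalize e (3 / (2 * r)) = B' at *
  generalize e (-(5 / (2 * r))) = C at *
  generalize e (5 / (2 * r)) = C' at *
  generalize e (1 / 4) = F at *
  generalize e (-(1 / 4)) = F' at *
  generalize (Real.sqrt (2 * r / 5) : ℂ) = R at *
  generalize (dtot 2 r : ℂ) = D at *
  have k1 : (D * A * B)⁻¹ * ((s1 r)⁻¹ ^ 2 * C * (-(1 / 4) * R * F * U r)) *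
      ((D * A' * B')⁻¹ * ((s1 r)⁻¹ ^ 2 * C' * (-(1 / 4) * R * F' * U' r))) =
      (D ^ 2 * (A * A') * (B * B'))⁻¹ * ((s1 r)⁻¹ ^ 4 * (C * C') * (1 / 16) * R ^ 2 * (F * F') * (U r * U' r)) := by
    rw [mul_inv, mul_inv, mul_inv, mul_inv, mul_inv, mul_inv, mul_inv, mul_inv]; ring
  rw [k1, i1, i2, i3, i4, hsq, hD2]
  field_simp
  ring

/-- the exact value of the invariant of L(5,2) # L(5,1) # -L(5,1) -/
lemma ZM_eq (r : ℕ) (hr : 2 ≤ r) :
    tau 2 r [3, 2] * tau 2 r [5] * tau 2 r [-5] / tau 2 r [0] =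
      (Complex.I * Real.sqrt 2 / (40 * Real.sqrt 5)) * ((r : ℝ) ^ (-(1 / 2) : ℝ) : ℝ) * (s1 r)⁻¹ ^ 2 *
      ((e (-(1 / 5) / r) * (1 + be * (ze ^ r) ^ 3 + al * (ze ^ r) ^ 2) - e ((1 / 5) / r) * (1 + al * (ze ^ r) ^ 3 + be * (ze ^ r) ^ 2)) *
        (U r * U' r)) := by
  have h1 := Z32_eq r hr
  have h2 := tau_prod r hr
  rw [QR_p6, QR_m6, QR_p2, QR_m2] at h1
  have h3 : tau 2 r [3, 2] * tau 2 r [5] * tau 2 r [-5] / tau 2 r [0] = (tau 2 r [3, 2] / tau 2 r [0]) * (tau 2 r [5] * tau 2 r [-5]) := by ring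
  rw [h3, h1, h2]
  have hV : (Real.sqrt 5 : ℂ) ≠ 0 := by
    have : Real.sqrt 5 ≠ 0 := by positivity
    exact_mod_cast this
  generalize U r = u
  generalize U' r = u'
  generalize (s1 r)⁻¹ = s
  generalize ((r : ℝ) ^ (-(1 / 2) : ℝ) : ℝ) = ρ
  generalize e (-(1 / 5) / r) = w1
  generalize e ((1 / 5) / r) = w2
  field_simp
  ring

end SU2
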