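import Mathlib
import Pool.Agent.Helper427.Dj3
set_option autoImplicit false
open Finset
open scoped Real

namespace SU2
open WRT

lemma key_poly (a b z w v : ℂ) (h0 : w * v - 1 = 0) (h1 : b + a + 1 = 0) (h2 : a * a + a - 1 = 0) (h3 : z ^ 5 - 1 = 0) :
    (v * (1 + b * z ^ 3 + a * z ^ 2) - w * (1 + a * z ^ 3 + b * z ^ 2)) *
      ((v ^ 2 * (1 + b * z ^ 4 + a * z) - (1 + 2 * z ^ 4 + 2 * z)) * (w ^ 2 * (1 + b * z + a * z ^ 4) - (1 + 2 * z ^ 4 + 2 * z))) =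
    15 * (v * (1 + a * z ^ 2 + b * z ^ 3) - w * (1 + b * z ^ 2 + a * z ^ 3)) +
    5 * (v ^ 3 * (1 + b * z + a * z ^ 4) - w ^ 3 * (1 + a * z + b * z ^ 4)) := by
  linear_combination ((1) * b ^ 3 * z ^ 8 * w * v ^ 2 + (1) * b ^ 3 * z ^ 8 * v + (-1) * b ^ 3 * z ^ 7 * w ^ 2 * v +
      (-1) * b ^ 3 * z ^ 7 * w + (1) * b ^ 2 * a * z ^ 11 * w * v ^ 2 + (1) * b ^ 2 * a * z ^ 11 * v +
      (-1) * b ^ 2 * a * z ^ 10 * w ^ 2 * v + (-1) * b ^ 2 * a * z ^ 10 * w + (-1) * b ^ 2 * a * z ^ 8 * w ^ 2 * v +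
      (-1) * b ^ 2 * a * z ^ 8 * w + (1) * b ^ 2 * a * z ^ 7 * w * v ^ 2 + (1) * b ^ 2 * a * z ^ 7 * v +
      (1) * b ^ 2 * a * z ^ 5 * w * v ^ 2 + (1) * b ^ 2 * a * z ^ 5 * v + (-1) * b ^ 2 * a * z ^ 4 * w ^ 2 * v +
      (-1) * b ^ 2 * a * z ^ 4 * w + (2) * b ^ 2 * z ^ 10 * v + (-2) * b ^ 2 * z ^ 8 * w +
      (1) * b ^ 2 * z ^ 7 * w * v ^ 2 + (3) * b ^ 2 * z ^ 7 * v + (-1) * b ^ 2 * z ^ 6 * w ^ 2 * v +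
      (-1) * b ^ 2 * z ^ 6 * w + (1) * b ^ 2 * z ^ 6 * v + (-1) * b ^ 2 * z ^ 5 * w ^ 2 * v +
      (1) * b ^ 2 * z ^ 5 * w * v ^ 2 + (-3) * b ^ 2 * z ^ 5 * w + (1) * b ^ 2 * z ^ 5 * v +
      (1) * b ^ 2 * z ^ 4 * w * v ^ 2 + (-1) * b ^ 2 * z ^ 4 * w + (1) * b ^ 2 * z ^ 4 * v +
      (-1) * b ^ 2 * z ^ 3 * w ^ 2 * v + (-1) * b ^ 2 * z ^ 3 * w + (-1) * b * a ^ 2 * z ^ 11 * w ^ 2 * v +
      (-1) * b * a ^ 2 * z ^ 11 * w + (1) * b * a ^ 2 * z ^ 10 * w * v ^ 2 + (1) * b * a ^ 2 * z ^ 10 * v +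
      (1) * b * a ^ 2 * z ^ 8 * w * v ^ 2 + (1) * b * a ^ 2 * z ^ 8 * v + (-1) * b * a ^ 2 * z ^ 7 * w ^ 2 * v +
      (-1) * b * a ^ 2 * z ^ 7 * w + (-1) * b * a ^ 2 * z ^ 5 * w ^ 2 * v + (-1) * b * a ^ 2 * z ^ 5 * w +
      (1) * b * a ^ 2 * z ^ 4 * w * v ^ 2 + (1) * b * a ^ 2 * z ^ 4 * v + (-2) * b * a * z ^ 11 * w +
      (2) * b * a * z ^ 11 * v + (-1) * b * a * z ^ 8 * w ^ 2 * v + (1) * b * a * z ^ 8 * w * v ^ 2 +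
      (-3) * b * a * z ^ 8 * w + (3) * b * a * z ^ 8 * v + (-1) * b * a * z ^ 7 * w ^ 2 * v +
      (1) * b * a * z ^ 7 * w * v ^ 2 + (-4) * b * a * z ^ 7 * w + (4) * b * a * z ^ 7 * v +
      (-1) * b * a * z ^ 6 * w ^ 2 * v + (1) * b * a * z ^ 6 * w * v ^ 2 + (-1) * b * a * z ^ 6 * w +
      (1) * b * a * z ^ 6 * v + (-1) * b * a * z ^ 4 * w ^ 2 * v + (1) * b * a * z ^ 4 * w * v ^ 2 +
      (-3) * b * a * z ^ 4 * w + (3) * b * a * z ^ 4 * v + (-1) * b * a * z ^ 3 * w ^ 2 * v +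
      (1) * b * a * z ^ 3 * w * v ^ 2 + (-2) * b * a * z ^ 3 * w + (2) * b * a * z ^ 3 * v +
      (-1) * b * a * z ^ 2 * w ^ 2 * v + (1) * b * a * z ^ 2 * w * v ^ 2 + (-1) * b * a * z ^ 2 * w +
      (1) * b * a * z ^ 2 * v + (2) * b * z ^ 8 * v + (-2) * b * z ^ 7 * w + (2) * b * z ^ 6 * v + (-2) * b * z ^ 5 * w +
      (2) * b * z ^ 5 * v + (-1) * b * z ^ 4 * w ^ 2 * v + (1) * b * z ^ 4 * w * v ^ 2 + (-3) * b * z ^ 4 * w +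
      (2) * b * z ^ 4 * v + (1) * b * z ^ 3 * w * v ^ 2 + (-1) * b * z ^ 3 * w + (3) * b * z ^ 3 * v +
      (-1) * b * z ^ 2 * w ^ 2 * v + (-3) * b * z ^ 2 * w + (1) * b * z ^ 2 * v + (-1) * b * z * w ^ 2 * v +
      (1) * b * z * w * v ^ 2 + (-2) * b * z * w + (1) * b * z * v + (-1) * a ^ 3 * z ^ 8 * w ^ 2 * v +
      (-1) * a ^ 3 * z ^ 8 * w + (1) * a ^ 3 * z ^ 7 * w * v ^ 2 + (1) * a ^ 3 * z ^ 7 * v + (-2) * a ^ 2 * z ^ 10 * w +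
      (2) * a ^ 2 * z ^ 8 * v + (-1) * a ^ 2 * z ^ 7 * w ^ 2 * v + (-3) * a ^ 2 * z ^ 7 * w +
      (1) * a ^ 2 * z ^ 6 * w * v ^ 2 + (-1) * a ^ 2 * z ^ 6 * w + (1) * a ^ 2 * z ^ 6 * v +
      (-1) * a ^ 2 * z ^ 5 * w ^ 2 * v + (1) * a ^ 2 * z ^ 5 * w * v ^ 2 + (-1) * a ^ 2 * z ^ 5 * w +
      (3) * a ^ 2 * z ^ 5 * v + (-1) * a ^ 2 * z ^ 4 * w ^ 2 * v + (-1) * a ^ 2 * z ^ 4 * w + (1) * a ^ 2 * z ^ 4 * v +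
      (1) * a ^ 2 * z ^ 3 * w * v ^ 2 + (1) * a ^ 2 * z ^ 3 * v + (-2) * a * z ^ 8 * w + (2) * a * z ^ 7 * v +
      (-2) * a * z ^ 6 * w + (-2) * a * z ^ 5 * w + (2) * a * z ^ 5 * v + (-1) * a * z ^ 4 * w ^ 2 * v +
      (1) * a * z ^ 4 * w * v ^ 2 + (-2) * a * z ^ 4 * w + (3) * a * z ^ 4 * v + (-1) * a * z ^ 3 * w ^ 2 * v +
      (-3) * a * z ^ 3 * w + (1) * a * z ^ 3 * v + (1) * a * z ^ 2 * w * v ^ 2 + (-1) * a * z ^ 2 * w +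
      (3) * a * z ^ 2 * v + (-1) * a * z * w ^ 2 * v + (1) * a * z * w * v ^ 2 + (-1) * a * z * w + (2) * a * z * v +
      (-2) * z ^ 4 * w + (2) * z ^ 4 * v + (-2) * z * w + (2) * z * v + (-1) * w ^ 2 * v + (1) * w * v ^ 2 + (-2) * w +
      (2) * v) * h0 +
    ((1) * b ^ 2 * z ^ 8 * v + (-1) * b ^ 2 * z ^ 7 * w + (1) * b * a * z ^ 11 * v + (-1) * b * a * z ^ 10 * w +
      (-1) * b * a * z ^ 8 * w + (-1) * b * a * z ^ 8 * v + (1) * b * a * z ^ 7 * w + (1) * b * a * z ^ 7 * v +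
      (1) * b * a * z ^ 5 * v + (-1) * b * a * z ^ 4 * w + (-2) * b * z ^ 11 * v ^ 3 + (2) * b * z ^ 10 * v +
      (-2) * b * z ^ 8 * w + (-2) * b * z ^ 8 * v ^ 3 + (-1) * b * z ^ 8 * v + (2) * b * z ^ 7 * w ^ 3 +
      (1) * b * z ^ 7 * w + (-1) * b * z ^ 7 * v ^ 3 + (3) * b * z ^ 7 * v + (-1) * b * z ^ 6 * w + (1) * b * z ^ 6 * v +
      (-3) * b * z ^ 5 * w + (1) * b * z ^ 5 * v + (2) * b * z ^ 4 * w ^ 3 + (-1) * b * z ^ 4 * w + (1) * b * z ^ 4 * v +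
      (1) * b * z ^ 3 * w ^ 3 + (-1) * b * z ^ 3 * w + (-1) * a ^ 2 * z ^ 11 * w + (-1) * a ^ 2 * z ^ 11 * v +
      (1) * a ^ 2 * z ^ 10 * w + (1) * a ^ 2 * z ^ 10 * v + (1) * a ^ 2 * z ^ 8 * w + (2) * a ^ 2 * z ^ 8 * v +
      (-2) * a ^ 2 * z ^ 7 * w + (-1) * a ^ 2 * z ^ 7 * v + (-1) * a ^ 2 * z ^ 5 * w + (-1) * a ^ 2 * z ^ 5 * v +
      (1) * a ^ 2 * z ^ 4 * w + (1) * a ^ 2 * z ^ 4 * v + (-2) * a * z ^ 11 * w + (2) * a * z ^ 11 * v ^ 3 +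
      (1) * a * z ^ 11 * v + (2) * a * z ^ 10 * w ^ 3 + (1) * a * z ^ 10 * w + (-2) * a * z ^ 10 * v ^ 3 +
      (-2) * a * z ^ 10 * v + (2) * a * z ^ 8 * w ^ 3 + (5) * a * z ^ 8 * v + (-6) * a * z ^ 7 * w +
      (-1) * a * z ^ 7 * v ^ 3 + (1) * a * z ^ 6 * w ^ 3 + (-1) * a * z ^ 6 * v ^ 3 + (2) * a * z ^ 5 * w ^ 3 +
      (3) * a * z ^ 5 * w + (-2) * a * z ^ 5 * v ^ 3 + (-2) * a * z ^ 5 * v + (-1) * a * z ^ 4 * w ^ 3 +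
      (-1) * a * z ^ 4 * w + (-1) * a * z ^ 4 * v ^ 3 + (2) * a * z ^ 4 * v + (-1) * a * z ^ 3 * w ^ 3 +
      (-1) * a * z ^ 3 * w + (2) * a * z ^ 3 * v + (-1) * a * z ^ 2 * w + (1) * a * z ^ 2 * v + (2) * z ^ 11 * v ^ 3 +
      (4) * z ^ 11 * v + (-4) * z ^ 10 * w + (-2) * z ^ 10 * v + (2) * z ^ 8 * w + (11) * z ^ 8 * v +
      (-2) * z ^ 7 * w ^ 3 + (-11) * z ^ 7 * w + (-1) * z ^ 7 * v ^ 3 + (1) * z ^ 7 * v + (2) * z ^ 6 * w ^ 3 +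
      (-3) * z ^ 6 * w + (1) * z ^ 6 * v + (2) * z ^ 5 * w ^ 3 + (1) * z ^ 5 * w + (-2) * z ^ 5 * v ^ 3 +
      (5) * z ^ 5 * v + (3) * z ^ 4 * w ^ 3 + (-6) * z ^ 4 * w + (-3) * z ^ 4 * v ^ 3 + (5) * z ^ 4 * v +
      (1) * z ^ 3 * w ^ 3 + (-4) * z ^ 3 * w + (-1) * z ^ 3 * v ^ 3 + (-11) * z ^ 3 * v + (3) * z ^ 2 * w ^ 3 +
      (11) * z ^ 2 * w + (1) * z ^ 2 * v + (1) * z * w ^ 3 + (-2) * z * w + (-5) * z * v ^ 3 + (1) * z * v) * h1 +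
    ((1) * a * z ^ 11 * w + (1) * a * z ^ 11 * v + (-1) * a * z ^ 10 * w + (-1) * a * z ^ 10 * v +
      (-2) * a * z ^ 8 * w + (-2) * a * z ^ 8 * v + (2) * a * z ^ 7 * w + (2) * a * z ^ 7 * v + (1) * a * z ^ 5 * w +
      (1) * a * z ^ 5 * v + (-1) * a * z ^ 4 * w + (-1) * a * z ^ 4 * v + (2) * z ^ 11 * w ^ 3 + (2) * z ^ 11 * w +
      (-2) * z ^ 11 * v ^ 3 + (-1) * z ^ 11 * v + (-2) * z ^ 10 * w ^ 3 + (-3) * z ^ 10 * w + (2) * z ^ 10 * v ^ 3 +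
      (2) * z ^ 10 * v + (1) * z ^ 8 * w + (-3) * z ^ 8 * v + (1) * z ^ 7 * w ^ 3 + (3) * z ^ 7 * w +
      (-1) * z ^ 7 * v ^ 3 + (-1) * z ^ 7 * v + (-1) * z ^ 6 * w ^ 3 + (-1) * z ^ 6 * w + (1) * z ^ 6 * v ^ 3 +
      (1) * z ^ 6 * v + (-2) * z ^ 5 * w ^ 3 + (-4) * z ^ 5 * w + (2) * z ^ 5 * v ^ 3 + (5) * z ^ 5 * v +
      (1) * z ^ 4 * w ^ 3 + (-1) * z ^ 4 * v ^ 3 + (-1) * z ^ 4 * v + (1) * z ^ 3 * w ^ 3 + (1) * z ^ 3 * w +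
      (-1) * z ^ 3 * v ^ 3 + (-1) * z ^ 3 * v + (1) * z ^ 2 * w + (-1) * z ^ 2 * v) * h2 +
    ((-2) * a * z ^ 6 * w ^ 3 + (-3) * a * z ^ 6 * w + (-2) * a * z ^ 6 * v ^ 3 + (-3) * a * z ^ 6 * v +
      (5) * a * z ^ 5 * w + (5) * a * z ^ 5 * v + (-15) * a * z ^ 3 * w + (-15) * a * z ^ 3 * v +
      (3) * a * z ^ 2 * w ^ 3 + (12) * a * z ^ 2 * w + (3) * a * z ^ 2 * v ^ 3 + (12) * a * z ^ 2 * v +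
      (-4) * a * z * w ^ 3 + (-1) * a * z * w + (-4) * a * z * v ^ 3 + (-1) * a * z * v + (2) * z ^ 6 * w ^ 3 +
      (2) * z ^ 6 * w + (-4) * z ^ 6 * v ^ 3 + (-5) * z ^ 6 * v + (-2) * z ^ 5 * w ^ 3 + (1) * z ^ 5 * w +
      (2) * z ^ 5 * v ^ 3 + (4) * z ^ 5 * v + (-5) * z ^ 3 * w + (-10) * z ^ 3 * v + (3) * z ^ 2 * w ^ 3 +
      (14) * z ^ 2 * w + (-2) * z ^ 2 * v + (-1) * z * w ^ 3 + (4) * z * w + (-3) * z * v ^ 3 + (-5) * z * v +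
      (-6) * w ^ 3 + (-12) * w + (6) * v ^ 3 + (12) * v) * h3

end SU2
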