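import Mathlib
import Pool.Agent.Helper427.WRTDefs

/-!
# Expansion data and connected sums
-/

set_option autoImplicit false

open Finset

namespace WRT

/-- The expansion (E): the data d, I, v, a give the asymptotic expansion of Z with phases c 0, ..., c m. -/
def IsExpansion (Z : ℕ → ℂ) (m : ℕ) (c : Fin (m + 1) → ℝ) (d I : Fin (m + 1) → ℚ)
    (v : Fin (m + 1) → ℝ) (a : Fin (m + 1) → ℕ → ℂ) : Prop :=
  (∀ j, 0 < v j) ∧
    ∀ E : ℕ, ∃ C : ℝ, ∀ r : ℕ, 2 ≤ r →
      ‖Z r - ∑ j, (v j : ℂ) * (((r : ℝ) ^ (d j : ℝ) : ℝ) : ℂ) *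
          Complex.exp (2 * Real.pi * Complex.I * (r * (c j : ℂ) + (I j : ℂ) / 8)) *
          (1 + ∑ e ∈ Finset.Icc 1 E, a j e * ((r : ℂ) ^ e)⁻¹)‖ ≤
        C * (r : ℝ) ^ (((Finset.univ.sup' Finset.univ_nonempty d : ℚ) : ℝ) - E - 1)

/-- The Reshetikhin-Turaev invariant, normalised to be 1 on S^3, of the connected sum of the manifolds
obtained by surgery along the chains in the list L, i.e. of the manifold obtained by surgery along the split
union of these chains; it is the product of the invariants of the summands. -/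
noncomputable def tauSum (N r : ℕ) (L : List (List ℤ)) : ℂ := (L.map (tau N r)).prod

end WRT
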