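import Mathlib
import Pool.Agent.Helper427.Dj4
import Pool.Agent.Helper427.DjDefs
import Pool.Agent.Helper427.Exp
set_option autoImplicit false
open Finset Filter Asymptotics Topology
open scoped Real

namespace AE
open WRT

/-- A finite sum of terms exp(2πi c_j)^r r^{d_j} F_j(1/r), F_j analytic with F_j(0) = v_j exp(2πi I_j/8), has an
expansion (E). -/
theorem isExpansion_of (Z : ℕ → ℂ) (m : ℕ) (c : Fin (m + 1) → ℝ) (d I : Fin (m + 1) → ℚ) (v : Fin (m + 1) → ℝ)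
    (F : Fin (m + 1) → ℂ → ℂ) (hF : ∀ j, AnalyticAt ℂ (F j) 0) (hv : ∀ j, 0 < v j)
    (hF0 : ∀ j, F j 0 = (v j : ℂ) * Complex.exp (2 * Real.pi * Complex.I * ((I j : ℂ) / 8)))
    (hZ : ∀ r : ℕ, 2 ≤ r → Z r = ∑ j, Complex.exp (2 * Real.pi * Complex.I * c j) ^ r * (((r : ℝ) ^ (d j : ℝ) : ℝ) : ℂ) * F j (1 / r)) :
    ∃ a, IsExpansion Z m c d I v a := by
  choose g hg0 hg using fun j => taylor_nat (F j) (hF j)
  have hne : ∀ j, F j 0 ≠ 0 := by
    intro j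
    rw [hF0]
    exact mul_ne_zero (by exact_mod_cast (hv j).ne') (Complex.exp_ne_zero _)
  refine ⟨fun j e => g j e / F j 0, hv, ?_⟩
  intro E
  set D : ℝ := ((Finset.univ.sup' Finset.univ_nonempty d : ℚ) : ℝ) with hD
  have hdD : ∀ j, (d j : ℝ) ≤ D := by
    intro j
    rw [hD]
    exact_mod_cast Finset.le_sup' d (Finset.mem_univ j)
  have h1 : (fun r : ℕ => ∑ j, Complex.exp (2 * Real.pi * Complex.I * c j) ^ r * (((r : ℝ) ^ (d j : ℝ) : ℝ) : ℂ) * (F j (1 / r) -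
      ∑ k ∈ range (E + 1), g j k * (((r : ℝ) ^ (-(k : ℝ)) : ℝ) : ℂ))) =O[atTop] fun r : ℕ => (r : ℝ) ^ (D - E - 1) := by
    apply IsBigO.fun_sum
    intro j _
    have h2 := hg j (E + 1)
    have h3 : (fun r : ℕ => Complex.exp (2 * Real.pi * Complex.I * c j) ^ r * (((r : ℝ) ^ (d j : ℝ) : ℝ) : ℂ)) =O[atTop] fun r : ℕ => (r : ℝ) ^ (d j : ℝ) := by
      refine IsBigO.of_bound 1 (Filter.Eventually.of_forall fun r => ?_)
      have : ‖Complex.exp (2 * Real.pi * Complex.I * c j)‖ = 1 := by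
        rw [Complex.norm_exp]; simp
      rw [norm_mul, norm_pow, this, one_pow, one_mul, one_mul, Complex.norm_real]
    refine (h3.mul h2).trans ?_
    refine IsBigO.of_bound 1 ?_
    filter_upwards [eventually_ge_atTop 1] with r hr
    have hr1 : (1 : ℝ) ≤ r := by exact_mod_cast hr
    have hr0 : (0 : ℝ) < r := by linarith
    rw [← Real.rpow_add hr0, Real.norm_eq_abs, Real.norm_eq_abs, abs_of_pos (Real.rpow_pos_of_pos hr0 _),
      abs_of_pos (Real.rpow_pos_of_pos hr0 _), one_mul]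
    exact Real.rpow_le_rpow_of_exponent_le hr1 (by push_cast; linarith [hdD j])
  obtain ⟨C, hC, hb⟩ := Asymptotics.bound_of_isBigO_nat_atTop h1
  refine ⟨C, fun r hr => ?_⟩
  have hr0 : (0 : ℝ) < r := by exact_mod_cast (by omega : 0 < r)
  have h2 := hb (x := r) (Real.rpow_pos_of_pos hr0 _).ne'
  rw [Real.norm_eq_abs, abs_of_pos (Real.rpow_pos_of_pos hr0 _)] at h2
  refine le_trans (le_of_eq ?_) h2
  congr 1
  rw [hZ r hr, ← Finset.sum_sub_distrib]
  refine Finset.sum_congr rfl fun j _ => ?_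
  rw [mul_sub]
  congr 1
  have h3 : (1 + ∑ e ∈ Finset.Icc 1 E, g j e / F j 0 * ((r : ℂ) ^ e)⁻¹) = (F j 0)⁻¹ * ∑ e ∈ range (E + 1), g j e * (((r : ℝ) ^ (-(e : ℝ)) : ℝ) : ℂ) := by
    rw [Finset.sum_range_succ', mul_add]
    simp only [Nat.cast_zero, neg_zero, Real.rpow_zero, Complex.ofReal_one, mul_one]
    rw [hg0, inv_mul_cancel₀ (hne j), add_comm]
    congr 1
    rw [Finset.mul_sum, Finset.range_eq_Ico, Finset.sum_Ico_add' (fun e => (F j 0)⁻¹ * (g j e * (((r : ℝ) ^ (-((e : ℕ) : ℝ)) : ℝ) : ℂ))) 0 E 1]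
    refine Finset.sum_congr rfl fun e _ => ?_
    rw [Real.rpow_neg hr0.le, Real.rpow_natCast]
    push_cast
    ring
  have h4 : Complex.exp (2 * Real.pi * Complex.I * (r * (c j : ℂ) + (I j : ℂ) / 8)) =
      Complex.exp (2 * Real.pi * Complex.I * ((I j : ℂ) / 8)) * Complex.exp (2 * Real.pi * Complex.I * c j) ^ r := by
    rw [← Complex.exp_nat_mul, ← Complex.exp_add]; congr 1; ring
  rw [h3, h4]
  have h5 := hF0 j
  have h6 : (v j : ℂ) * Complex.exp (2 * Real.pi * Complex.I * ((I j : ℂ) / 8)) * (F j 0)⁻¹ = 1 := by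
    rw [← h5, mul_inv_cancel₀ (hne j)]
  linear_combination (Complex.exp (2 * Real.pi * Complex.I * c j) ^ r * (((r : ℝ) ^ (d j : ℝ) : ℝ) : ℂ) *
    ∑ e ∈ range (E + 1), g j e * (((r : ℝ) ^ (-(e : ℝ)) : ℝ) : ℂ)) * h6

/-- The coefficients of two expansions of the same function agree. -/
theorem compareD {Z : ℕ → ℂ} {m : ℕ} {c : Fin (m + 1) → ℝ} {d : Fin (m + 1) → ℚ} {a : Fin (m + 1) → ℕ → ℂ}
    (hE : ∀ E : ℕ, ∃ C : ℝ, ∀ r : ℕ, 2 ≤ r →
      ‖Z r - ∑ j, Complex.exp (2 * Real.pi * Complex.I * (r * (c j : ℂ))) *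
          (((r : ℝ) ^ (d j : ℝ) : ℝ) : ℂ) * ∑ e ∈ Finset.range (E + 1), a j e * ((r : ℂ) ^ e)⁻¹‖ ≤
        C * (r : ℝ) ^ (((Finset.univ.sup' Finset.univ_nonempty d : ℚ) : ℝ) - E - 1))
    {ι : Type} [DecidableEq ι] (J : Finset ι) (B z : ι → ℂ) (s : ι → ℝ) (f : ι → ℂ → ℂ) (hf : ∀ i ∈ J, AnalyticAt ℂ (f i) 0)
    (hz : ∀ i ∈ J, ‖z i‖ = 1)
    (hZ : ∀ r : ℕ, 2 ≤ r → Z r = ∑ i ∈ J, B i * z i ^ r * (((r : ℝ) ^ s i : ℝ) : ℂ) * f i (1 / r)) :
    ∃ (g : ι → ℕ → ℂ), (∀ i ∈ J, g i 0 = f i 0) ∧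
      ∀ (z0 : ℂ), ‖z0‖ = 1 → ∀ s0 : ℝ, ∃ E K : ℕ, (∀ i ∈ J, s i - K ≤ s0 - 1) ∧
        ∑ q ∈ (Finset.univ : Finset (Fin (m + 1))) ×ˢ range (E + 1) with
            Complex.exp (2 * Real.pi * Complex.I * c q.1) = z0 ∧ (d q.1 : ℝ) - q.2 = s0, a q.1 q.2 =
        ∑ q ∈ J ×ˢ range K with z q.1 = z0 ∧ s q.1 - q.2 = s0, B q.1 * g q.1 q.2 := by
  have hg : ∀ i : ι, ∃ g : ℕ → ℂ, i ∈ J → g 0 = f i 0 ∧ ∀ K : ℕ, (fun r : ℕ => f i (1 / r) -
      ∑ k ∈ range K, g k * (((r : ℝ) ^ (-(k : ℝ)) : ℝ) : ℂ)) =O[atTop] fun r : ℕ => (r : ℝ) ^ (-(K : ℝ)) := by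
    intro i
    by_cases hi : i ∈ J
    · obtain ⟨g, hg⟩ := taylor_nat (f i) (hf i hi)
      exact ⟨g, fun _ => hg⟩
    · exact ⟨0, fun h => absurd h hi⟩
  choose g hg using hg
  refine ⟨g, fun i hi => (hg i hi).1, ?_⟩
  intro z0 hz0 s0
  set D : ℝ := ((Finset.univ.sup' Finset.univ_nonempty d : ℚ) : ℝ) with hD
  obtain ⟨E, hE'⟩ := exists_nat_ge (D - s0)
  obtain ⟨K, hK⟩ : ∃ K : ℕ, ∀ i ∈ J, s i - K ≤ s0 - 1 := by
    obtain ⟨M, hM⟩ := (J.image s).bddAbove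
    obtain ⟨K, hK⟩ := exists_nat_ge (M - (s0 - 1))
    refine ⟨K, fun i hi => ?_⟩
    have := hM (Finset.mem_coe.mpr (Finset.mem_image_of_mem s hi))
    linarith
  refine ⟨E, K, hK, ?_⟩
  obtain ⟨C, hC⟩ := hE E
  -- first expansion
  have hA : (fun r : ℕ => Z r - ∑ q ∈ (Finset.univ : Finset (Fin (m + 1))) ×ˢ range (E + 1),
      a q.1 q.2 *
      Complex.exp (2 * Real.pi * Complex.I * c q.1) ^ r * (((r : ℝ) ^ ((d q.1 : ℝ) - q.2) : ℝ) : ℂ))
      =O[atTop] fun r : ℕ => (r : ℝ) ^ (s0 - 1) := by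
    refine IsBigO.of_bound |C| ?_
    filter_upwards [eventually_ge_atTop 2] with r hr
    have hr0 : (0 : ℝ) < r := by exact_mod_cast (by omega : 0 < r)
    have hr1 : (1 : ℝ) ≤ r := by exact_mod_cast (by omega : 1 ≤ r)
    have h1 := hC r hr
    have h2 : ∑ j, Complex.exp (2 * Real.pi * Complex.I * (r * (c j : ℂ))) *
          (((r : ℝ) ^ (d j : ℝ) : ℝ) : ℂ) * ∑ e ∈ Finset.range (E + 1), a j e * ((r : ℂ) ^ e)⁻¹ =
        ∑ q ∈ (Finset.univ : Finset (Fin (m + 1))) ×ˢ range (E + 1),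
      a q.1 q.2 *
      Complex.exp (2 * Real.pi * Complex.I * c q.1) ^ r * (((r : ℝ) ^ ((d q.1 : ℝ) - q.2) : ℝ) : ℂ) := by
      rw [Finset.sum_product]
      refine Finset.sum_congr rfl fun j _ => ?_
      rw [Finset.mul_sum]
      refine Finset.sum_congr rfl fun e _ => ?_
      have h4 : Complex.exp (2 * Real.pi * Complex.I * (r * (c j : ℂ))) = Complex.exp (2 * Real.pi * Complex.I * c j) ^ r := by
        rw [← Complex.exp_nat_mul]; congr 1; ring
      have h5 : (((r : ℝ) ^ ((d j : ℝ) - e) : ℝ) : ℂ) = (((r : ℝ) ^ (d j : ℝ) : ℝ) : ℂ) * ((r : ℂ) ^ e)⁻¹ := by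
        rw [Real.rpow_sub hr0, Real.rpow_natCast]; push_cast; ring
      rw [h4, h5]
      ring
    rw [← h2]
    refine h1.trans ?_
    rw [Real.norm_eq_abs, abs_of_pos (Real.rpow_pos_of_pos hr0 _)]
    refine mul_le_mul (le_abs_self C) ?_ (Real.rpow_nonneg hr0.le _) (abs_nonneg C)
    exact Real.rpow_le_rpow_of_exponent_le hr1 (by linarith)
  -- second expansion
  have hB : (fun r : ℕ => Z r - ∑ q ∈ J ×ˢ range K, (B q.1 * g q.1 q.2) * z q.1 ^ r * (((r : ℝ) ^ (s q.1 - q.2) : ℝ) : ℂ))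
      =O[atTop] fun r : ℕ => (r : ℝ) ^ (s0 - 1) := by
    have h1 : (fun r : ℕ => ∑ i ∈ J, B i * z i ^ r * (((r : ℝ) ^ s i : ℝ) : ℂ) * (f i (1 / r) -
        ∑ k ∈ range K, g i k * (((r : ℝ) ^ (-(k : ℝ)) : ℝ) : ℂ))) =O[atTop] fun r : ℕ => (r : ℝ) ^ (s0 - 1) := by
      apply IsBigO.fun_sum
      intro i hi
      have h2 := (hg i hi).2 K
      have h3 : (fun r : ℕ => B i * z i ^ r * (((r : ℝ) ^ s i : ℝ) : ℂ)) =O[atTop] fun r : ℕ => (r : ℝ) ^ s i := by
        refine IsBigO.of_bound ‖B i‖ (Filter.Eventually.of_forall fun r => ?_)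
        rw [norm_mul, norm_mul, norm_pow, hz i hi, one_pow, mul_one, Complex.norm_real]
      refine (h3.mul h2).trans ?_
      refine IsBigO.of_bound 1 ?_
      filter_upwards [eventually_ge_atTop 1] with r hr
      have hr1 : (1 : ℝ) ≤ r := by exact_mod_cast hr
      have hr0 : (0 : ℝ) < r := by linarith
      rw [← Real.rpow_add hr0, Real.norm_eq_abs, Real.norm_eq_abs, abs_of_pos (Real.rpow_pos_of_pos hr0 _),
        abs_of_pos (Real.rpow_pos_of_pos hr0 _), one_mul]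
      exact Real.rpow_le_rpow_of_exponent_le hr1 (by linarith [hK i hi])
    refine h1.congr' ?_ (EventuallyEq.refl _ _)
    filter_upwards [eventually_ge_atTop 2] with r hr
    have hr0 : (0 : ℝ) < r := by exact_mod_cast (by omega : 0 < r)
    rw [hZ r hr, Finset.sum_product, ← Finset.sum_sub_distrib]
    refine Finset.sum_congr rfl fun i _ => ?_
    rw [mul_sub, Finset.mul_sum]
    congr 1
    refine Finset.sum_congr rfl fun k _ => ?_
    have h5 : (((r : ℝ) ^ (s i - k) : ℝ) : ℂ) = (((r : ℝ) ^ (s i) : ℝ) : ℂ) * (((r : ℝ) ^ (-(k : ℝ)) : ℝ) : ℂ) := by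
      rw [sub_eq_add_neg, Real.rpow_add hr0]; push_cast; ring
    rw [h5]
    ring
  have hAB := hB.sub hA
  have key := Uniq.coeff_zero (ι := (Fin (m + 1) × ℕ) ⊕ (ι × ℕ))
    (((Finset.univ : Finset (Fin (m + 1))) ×ˢ range (E + 1)).disjSum (J ×ˢ range K))
    (Sum.elim (fun q => Complex.exp (2 * Real.pi * Complex.I * c q.1)) (fun q => z q.1))
    (Sum.elim (fun q => a q.1 q.2) (fun q => -(B q.1 * g q.1 q.2)))
    (Sum.elim (fun q => (d q.1 : ℝ) - q.2) (fun q => s q.1 - q.2)) ?_ (s0 - 1) ?_ z0 hz0 s0 (by linarith)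
  · rw [Finset.sum_filter, Finset.sum_disjSum] at key
    have key : (∑ x ∈ (Finset.univ : Finset (Fin (m + 1))) ×ˢ range (E + 1),
        if Complex.exp (2 * Real.pi * Complex.I * c x.1) = z0 ∧ (d x.1 : ℝ) - x.2 = s0 then a x.1 x.2
        else 0) +
      ∑ x ∈ J ×ˢ range K, (if z x.1 = z0 ∧ s x.1 - x.2 = s0 then -(B x.1 * g x.1 x.2) else 0) = 0 := by
      exact key
    rw [Finset.sum_filter, Finset.sum_filter]
    have h6 : ∑ x ∈ J ×ˢ range K, (if z x.1 = z0 ∧ s x.1 - x.2 = s0 then -(B x.1 * g x.1 x.2) else 0) =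
        - ∑ x ∈ J ×ˢ range K, (if z x.1 = z0 ∧ s x.1 - x.2 = s0 then (B x.1 * g x.1 x.2) else 0) := by
      rw [← Finset.sum_neg_distrib]
      refine Finset.sum_congr rfl fun x _ => ?_
      split_ifs <;> simp
    rw [h6] at key
    linear_combination key
  · intro i hi
    rw [Finset.mem_disjSum] at hi
    rcases hi with ⟨q, _, rfl⟩ | ⟨q, hq, rfl⟩
    · simp only [Sum.elim_inl]
      rw [Complex.norm_exp]
      simp
    · simp only [Sum.elim_inr]
      exact hz _ (Finset.mem_product.mp hq).1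
  · refine hAB.congr_left fun r => ?_
    rw [Finset.sum_disjSum]
    simp only [Sum.elim_inl, Sum.elim_inr]
    have h6 : ∑ x ∈ J ×ˢ range K, -(B x.1 * g x.1 x.2) * z x.1 ^ r * (((r : ℝ) ^ (s x.1 - x.2) : ℝ) : ℂ) =
        - ∑ x ∈ J ×ˢ range K, (B x.1 * g x.1 x.2) * z x.1 ^ r * (((r : ℝ) ^ (s x.1 - x.2) : ℝ) : ℂ) := by
      rw [← Finset.sum_neg_distrib]
      refine Finset.sum_congr rfl fun x _ => ?_
      ring
    rw [h6]
    ring


lemma weak_data {Z : ℕ → ℂ} {m : ℕ} {c : Fin (m + 1) → ℝ} {d I : Fin (m + 1) → ℚ} {v : Fin (m + 1) → ℝ}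
    {a : Fin (m + 1) → ℕ → ℂ} (h : IsExpansion Z m c d I v a) :
    ∀ E : ℕ, ∃ C : ℝ, ∀ r : ℕ, 2 ≤ r →
      ‖Z r - ∑ j, Complex.exp (2 * Real.pi * Complex.I * (r * (c j : ℂ))) *
          (((r : ℝ) ^ (d j : ℝ) : ℝ) : ℂ) * ∑ e ∈ Finset.range (E + 1),
          ((v j : ℂ) * Complex.exp (2 * Real.pi * Complex.I * ((I j : ℂ) / 8)) * (if e = 0 then 1 else a j e)) * ((r : ℂ) ^ e)⁻¹‖ ≤
        C * (r : ℝ) ^ (((Finset.univ.sup' Finset.univ_nonempty d : ℚ) : ℝ) - E - 1) := by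
  intro E
  obtain ⟨C, hC⟩ := h.2 E
  refine ⟨C, fun r hr => ?_⟩
  have h1 := hC r hr
  convert h1 using 3
  refine Finset.sum_congr rfl fun j _ => ?_
  have h3 : (1 + ∑ e ∈ Finset.Icc 1 E, a j e * ((r : ℂ) ^ e)⁻¹) = ∑ e ∈ range (E + 1), (if e = 0 then 1 else a j e) * ((r : ℂ) ^ e)⁻¹ := by
    rw [Finset.sum_range_succ']
    simp only [if_true, pow_zero, inv_one, mul_one, Nat.succ_ne_zero, if_false]
    rw [add_comm]
    congr 1
    rw [Finset.range_eq_Ico, Finset.sum_Ico_add' (fun e => a j e * ((r : ℂ) ^ e)⁻¹) 0 E 1]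
    rfl
  rw [h3, Finset.mul_sum, Finset.mul_sum]
  refine Finset.sum_congr rfl fun e _ => ?_
  have h4 : Complex.exp (2 * Real.pi * Complex.I * (r * (c j : ℂ) + (I j : ℂ) / 8)) =
      Complex.exp (2 * Real.pi * Complex.I * (r * (c j : ℂ))) * Complex.exp (2 * Real.pi * Complex.I * ((I j : ℂ) / 8)) := by
    rw [← Complex.exp_add]; congr 1; ring
  rw [h4]
  ring

/-- In every expansion (E) of a sum of terms with different phases, phase z = 1 belonging to the term i = 0 of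
the sum, whose leading coefficient is nonzero, the exponent d 0 is the one of the sum. -/
theorem d0_eq {Z : ℕ → ℂ} {m : ℕ} {c : Fin (m + 1) → ℝ} {d I : Fin (m + 1) → ℚ} {v : Fin (m + 1) → ℝ}
    {a : Fin (m + 1) → ℕ → ℂ} (h : IsExpansion Z m c d I v a) (h0 : c 0 = 0)
    (hc : ∀ i j, i ≠ j → ∀ n : ℤ, c i - c j ≠ n)
    {n : ℕ} (z : Fin (n + 1) → ℂ) (s : Fin (n + 1) → ℝ) (f : Fin (n + 1) → ℂ → ℂ) (hf : ∀ i, AnalyticAt ℂ (f i) 0)
    (hz : ∀ i, ‖z i‖ = 1) (hz0 : z 0 = 1) (hz1 : ∀ i, i ≠ 0 → z i ≠ 1) (hf0 : f 0 0 ≠ 0)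
    (hZ : ∀ r : ℕ, 2 ≤ r → Z r = ∑ i, z i ^ r * (((r : ℝ) ^ s i : ℝ) : ℂ) * f i (1 / r)) :
    (d 0 : ℝ) = s 0 := by
  obtain ⟨g, hg, hcomp⟩ := compareD (weak_data h) (Finset.univ : Finset (Fin (n + 1))) (fun _ => 1) z s f
    (fun i _ => hf i) (fun i _ => hz i) (fun r hr => by rw [hZ r hr]; exact Finset.sum_congr rfl fun i _ => by ring)
  have hj : ∀ j : Fin (m + 1), Complex.exp (2 * Real.pi * Complex.I * c j) = 1 → j = 0 := by
    intro j h1
    by_contra hj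
    rw [Complex.exp_eq_one_iff] at h1
    obtain ⟨n, hn⟩ := h1
    have hpi : (π : ℂ) ≠ 0 := by exact_mod_cast Real.pi_ne_zero
    have h4 : (c j : ℂ) = n := by
      have h5 : (2 * π * Complex.I) * ((c j : ℂ) - n) = 0 := by linear_combination hn
      have h6 : (2 * π * Complex.I : ℂ) ≠ 0 := by
        simp [hpi]
      have := (mul_eq_zero.mp h5).resolve_left h6
      linear_combination this
    have h7 : c j = n := by exact_mod_cast h4
    exact hc j 0 hj n (by rw [h0, h7]; ring)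
  -- d 0 ≤ s 0
  have hle : ∃ k : ℕ, (s 0 : ℝ) - k = d 0 := by
    obtain ⟨E, K, hK, h1⟩ := hcomp 1 (by simp) (d 0)
    by_contra hno
    push Not at hno
    rw [Finset.sum_eq_single (a := (0, 0)), Finset.sum_eq_zero] at h1
    · simp only [if_true, mul_one] at h1
      have h2 : (v 0 : ℂ) ≠ 0 := by exact_mod_cast (h.1 0).ne'
      exact mul_ne_zero h2 (Complex.exp_ne_zero _) h1
    · rintro ⟨i, k⟩ hq
      exfalso
      rw [Finset.mem_filter] at hq
      obtain ⟨-, h2, h3⟩ := hq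
      simp only at h2 h3
      by_cases hi : i = 0
      · subst hi; exact hno k h3
      · exact hz1 i hi h2
    · rintro ⟨j, k⟩ hq hne
      exfalso
      rw [Finset.mem_filter] at hq
      obtain ⟨-, h2, h3⟩ := hq
      simp only at h2 h3
      have := hj j h2
      subst this
      have : (k : ℝ) = 0 := by linarith
      have : k = 0 := by exact_mod_cast this
      subst this
      exact hne rfl
    · intro hq
      exfalso
      apply hq
      rw [Finset.mem_filter]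
      simp [h0]
  have hge : ∃ k : ℕ, (d 0 : ℝ) - k = s 0 := by
    obtain ⟨E, K, hK, h1⟩ := hcomp 1 (by simp) (s 0)
    have hK1 : 0 < K := by
      have h1 := hK 0 (Finset.mem_univ 0)
      have h2 : (1 : ℝ) ≤ K := by linarith
      exact_mod_cast (by linarith : (0 : ℝ) < K)
    by_contra hno
    push Not at hno
    rw [Finset.sum_eq_single (a := ((0 : Fin (n + 1)), 0)) (s := ((Finset.univ : Finset (Fin (n + 1))) ×ˢ range K).filter _), Finset.sum_eq_zero] at h1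
    · rw [hg 0 (Finset.mem_univ _), one_mul] at h1
      exact hf0 h1.symm
    · rintro ⟨j, k⟩ hq
      exfalso
      rw [Finset.mem_filter] at hq
      obtain ⟨-, h2, h3⟩ := hq
      simp only at h2 h3
      have := hj j h2
      subst this
      exact hno k h3
    · rintro ⟨i, k⟩ hq hne
      exfalso
      rw [Finset.mem_filter] at hq
      obtain ⟨-, h2, h3⟩ := hq
      simp only at h2 h3
      by_cases hi : i = 0
      · subst hi
        have : (k : ℝ) = 0 := by linarith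
        have : k = 0 := by exact_mod_cast this
        subst this
        exact hne rfl
      · exact hz1 i hi h2
    · intro hq
      exfalso
      apply hq
      rw [Finset.mem_filter, Finset.mem_product]
      simp [hz0, hK1]
  obtain ⟨k1, h1⟩ := hle
  obtain ⟨k2, h2⟩ := hge
  have h3 : (k1 : ℝ) + k2 = 0 := by linarith
  have h4 : (0 : ℝ) ≤ k1 := Nat.cast_nonneg _
  have h5 : (0 : ℝ) ≤ k2 := Nat.cast_nonneg _
  linarith

end AE
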