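import Mathlib
import Pool.Agent.Helper427.Tau2
import Pool.Agent.Helper427.Exp
set_option autoImplicit false
set_option linter.constructorNameAsVariable false
open Finset
open scoped Real

namespace SU2
open WRT

lemma norm_e (x : ℝ) : ‖e (x : ℂ)‖ = 1 := by
  rw [e, Complex.norm_exp]; simp

lemma e_analytic (x : ℂ) : AnalyticAt ℂ (fun y : ℂ => e (x * y)) 0 := by
  unfold e
  fun_prop

lemma filter5 : (range 25).filter (fun n => 5 ∣ n) = {0, 5, 10, 15, 20} := by decide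

lemma QR25 (b : ℤ) (hb : ¬ (5 : ℤ) ∣ b) (r : ℕ) :
    QR 25 (2 * b) (4 * r) = ∑ n ∈ (range 25).filter (fun n => ¬ 5 ∣ n), e (2 * b * n / 25) * e (-(4 * (n : ℂ) ^ 2 / 25)) ^ r := by
  have h1 : ∀ n : ℕ, e ((((2 * b : ℤ) : ℂ) * (n : ℂ) - ((4 * r : ℕ) : ℂ) * (n : ℂ) ^ 2) / ((25 : ℕ) : ℂ)) =
      e (2 * b * n / 25) * e (-(4 * (n : ℂ) ^ 2 / 25)) ^ r := by
    intro n
    rw [← e_nat_mul, ← e_add]; congr 1; push_cast; ring
  rw [QR]
  simp_rw [h1]
  rw [← Finset.sum_filter_add_sum_filter_not (range 25) (fun n => 5 ∣ n), filter5]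
  suffices h : ∑ n ∈ ({0, 5, 10, 15, 20} : Finset ℕ), e (2 * b * n / 25) * e (-(4 * (n : ℂ) ^ 2 / 25)) ^ r = 0 by
    rw [h, zero_add]
  have h2 : ∀ j : ℕ, e (2 * b * ((5 * j : ℕ) : ℂ) / 25) * e (-(4 * ((5 * j : ℕ) : ℂ) ^ 2 / 25)) ^ r = e (2 * b / 5) ^ j := by
    intro j
    rw [← e_nat_mul, ← e_nat_mul, ← e_add]
    refine e_congr (-(2 * r * j ^ 2)) ?_
    push_cast; ring
  have h3 : ∑ n ∈ ({0, 5, 10, 15, 20} : Finset ℕ), e (2 * b * n / 25) * e (-(4 * (n : ℂ) ^ 2 / 25)) ^ r = ∑ j ∈ range 5, e (2 * b / 5) ^ j := by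
    rw [show ({0, 5, 10, 15, 20} : Finset ℕ) = (range 5).image (fun j => 5 * j) by decide, Finset.sum_image (by intro a _ b _ h; simpa using h)]
    exact Finset.sum_congr rfl fun j _ => h2 j
  rw [h3]
  have hne : e (2 * b / 5) ≠ 1 := by
    intro h
    rw [e, Complex.exp_eq_one_iff] at h
    obtain ⟨n, hn⟩ := h
    have hpi : (π : ℂ) ≠ 0 := by exact_mod_cast Real.pi_ne_zero
    have h4 : (b : ℂ) = 5 * n := by
      field_simp at hn
      linear_combination hn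
    exact hb ⟨n, by exact_mod_cast h4⟩
  rw [geom_sum_eq hne, ← e_nat_mul, e_congr (x := ((5 : ℕ) : ℂ) * (2 * b / 5)) (y := 0) b (by push_cast; ring), e_zero]
  simp

lemma zeta_ne (n : ℕ) (hn : ¬ 5 ∣ n) : e (-(4 * (n : ℂ) ^ 2 / 25)) ≠ 1 := by
  intro h
  rw [e, Complex.exp_eq_one_iff] at h
  obtain ⟨k, hk⟩ := h
  have hpi : (π : ℂ) ≠ 0 := by exact_mod_cast Real.pi_ne_zero
  have h4 : (2 * (n : ℂ) ^ 2) = 25 * (-k) := by
    field_simp at hk
    linear_combination (-(1 / 2 : ℂ)) * hk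
  have h5 : (2 * (n : ℤ) ^ 2) = 25 * (-k) := by exact_mod_cast h4
  have h6 : (5 : ℤ) ∣ 2 * (n : ℤ) ^ 2 := ⟨5 * (-k), by rw [h5]; ring⟩
  have h7 : Prime (5 : ℤ) := by norm_num
  rcases h7.dvd_or_dvd h6 with h8 | h8
  · norm_num at h8
  · have := h7.dvd_of_dvd_pow h8
    exact hn (by exact_mod_cast this)

/-- the four values of b, their signs, and the exponents -/
def bb : Fin 4 → ℤ := ![3, -3, 1, -1]
def sg : Fin 4 → ℂ := ![1, 1, -1, -1]
noncomputable def xx : Fin 4 → ℂ := ![-(121 / 25), -(121 / 25), -(119 / 25), -(119 / 25)]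

lemma Z_form (r : ℕ) (hr : 2 ≤ r) :
    tau 2 r [13, 2] / tau 2 r [0] = ∑ i ∈ (Finset.univ : Finset (Fin 4)) ×ˢ (range 25).filter (fun n => ¬ 5 ∣ n),
      (Complex.I * Real.sqrt 2 / 20 * sg i.1 * e (2 * bb i.1 * i.2 / 25)) * e (-(4 * (i.2 : ℂ) ^ 2 / 25)) ^ r *
        (((r : ℝ) ^ (-(1 / 2) : ℝ) : ℝ) : ℂ) * e (xx i.1 * (1 / r)) := by
  rw [Z_eq r hr, Finset.sum_product]
  have h : ∀ k : Fin 4, ∑ n ∈ (range 25).filter (fun n => ¬ 5 ∣ n), (Complex.I * Real.sqrt 2 / 20 * sg k * e (2 * bb k * n / 25)) *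
      e (-(4 * (n : ℂ) ^ 2 / 25)) ^ r * (((r : ℝ) ^ (-(1 / 2) : ℝ) : ℝ) : ℂ) * e (xx k * (1 / r)) =
      Complex.I * Real.sqrt 2 / 20 * sg k * (((r : ℝ) ^ (-(1 / 2) : ℝ) : ℝ) : ℂ) * e (xx k * (1 / r)) * QR 25 (2 * bb k) (4 * r) := by
    intro k
    rw [QR25 (bb k) (by fin_cases k <;> simp [bb]), Finset.mul_sum]
    refine Finset.sum_congr rfl fun n _ => ?_
    ring
  rw [Finset.sum_congr rfl (fun k _ => h k)]
  simp only [Fin.sum_univ_four, bb, sg, xx, Matrix.cons_val]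
  norm_num
  ring

theorem no_expansion (m : ℕ) (c : Fin (m + 1) → ℝ) (h0 : c 0 = 0) (hc : ∀ i j, i ≠ j → ∀ n : ℤ, c i - c j ≠ n) :
    ¬ HasExpansion (fun r => tau 2 r [13, 2] / tau 2 r [0]) m c := by
  intro hE
  obtain ⟨d, I, v, a, g, hv, ha, -, hcomp⟩ := AE.compare hE ((Finset.univ : Finset (Fin 4)) ×ˢ (range 25).filter (fun n => ¬ 5 ∣ n))
    (fun i => Complex.I * Real.sqrt 2 / 20 * sg i.1 * e (2 * bb i.1 * i.2 / 25)) (fun i => e (-(4 * (i.2 : ℂ) ^ 2 / 25)))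
    (fun _ => -(1 / 2)) (fun i y => e (xx i.1 * y)) (fun i _ => e_analytic _)
    (fun i _ => by
      have := norm_e (-(4 * (i.2 : ℝ) ^ 2 / 25))
      push_cast at this
      exact this) (fun r hr => Z_form r hr)
  obtain ⟨E, K, h⟩ := hcomp 1 (by simp) (d 0)
  rw [Finset.sum_eq_single (0, 0)] at h
  · rw [Finset.sum_filter, Finset.sum_eq_zero] at h
    · simp only [ha, mul_one] at h
      have h1 : (v 0 : ℂ) ≠ 0 := by exact_mod_cast (hv 0).ne'
      exact mul_ne_zero h1 (Complex.exp_ne_zero _) h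
    · intro q hq
      rw [Finset.mem_product, Finset.mem_product, Finset.mem_filter] at hq
      rw [if_neg]
      rintro ⟨h1, -⟩
      exact zeta_ne _ hq.1.2.2 h1
  · rintro ⟨j, k⟩ hq hne
    exfalso
    rw [Finset.mem_filter] at hq
    obtain ⟨-, h1, h2⟩ := hq
    simp only at h1 h2
    have hj : j = 0 := by
      by_contra hj
      rw [Complex.exp_eq_one_iff] at h1
      obtain ⟨n, hn⟩ := h1
      have hpi : (π : ℂ) ≠ 0 := by exact_mod_cast Real.pi_ne_zero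
      have h4 : (c j : ℂ) = n := by
        have h5 : (2 * π * Complex.I) * ((c j : ℂ) - n) = 0 := by linear_combination hn
        have h6 : (2 * π * Complex.I : ℂ) ≠ 0 := by
          simp [hpi]
        have := (mul_eq_zero.mp h5).resolve_left h6
        linear_combination this
      have h7 : c j = n := by exact_mod_cast h4
      exact hc j 0 hj n (by rw [h0, h7]; ring)
    subst hj
    have : (k : ℝ) = 0 := by linarith
    have : k = 0 := by exact_mod_cast this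
    subst this
    exact hne rfl
  · intro hq
    exfalso
    apply hq
    rw [Finset.mem_filter]
    simp [h0]

end SU2
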