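import Mathlib
import Pool.Agent.Helper427.Dj5
import Pool.Agent.Helper427.Final1
set_option autoImplicit false
open Finset Filter Asymptotics Topology
open scoped Real

namespace SU2
open WRT

lemma analytic_dslope {f : ℂ → ℂ} (hf : AnalyticAt ℂ f 0) : AnalyticAt ℂ (dslope f 0) 0 := by
  obtain ⟨p, hp⟩ := hf
  exact ⟨_, hp.has_fpower_series_dslope_fslope⟩

/-- sin(πy)/y -/
noncomputable def Sf : ℂ → ℂ := dslope (fun y : ℂ => Complex.sin (π * y)) 0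

lemma Sf_analytic : AnalyticAt ℂ Sf 0 := by
  apply analytic_dslope
  fun_prop

lemma Sf_zero : Sf 0 = π := by
  rw [Sf, dslope_same]
  have h : HasDerivAt (fun y : ℂ => Complex.sin (π * y)) (Complex.cos (π * 0) * (π * 1)) 0 :=
    (((hasDerivAt_id' (0 : ℂ)).const_mul (π : ℂ)).csin)
  rw [h.deriv]; simp

lemma Sf_inv (r : ℕ) (hr : 2 ≤ r) : (s1 r)⁻¹ ^ 2 = (r : ℂ) ^ 2 / Sf (1 / r) ^ 2 := by
  have hr0 : (r : ℂ) ≠ 0 := by exact_mod_cast (by omega : r ≠ 0)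
  have hs := s1_ne r hr
  have h1 : Sf (1 / r) = r * s1 r := by
    rw [Sf, dslope_of_ne _ (by simp [hr0]), slope_def_field]
    simp only [mul_zero, Complex.sin_zero, sub_zero, s1]
    rw [div_eq_iff (by simp [hr0])]
    rw [show (π : ℂ) * (1 / r) = π / r by ring]
    field_simp
  rw [h1]
  field_simp

noncomputable def KK : ℂ := Complex.I * Real.sqrt 2 / (40 * Real.sqrt 5)

noncomputable def hh : Fin 5 → ℂ → ℂ := ![
  fun y => 15 * (e (-(1 / 5) * y) - e ((1 / 5) * y)) + 5 * (e (-(3 / 5) * y) - e ((3 / 5) * y)),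
  fun y => 5 * be * e (-(3 / 5) * y) - 5 * al * e ((3 / 5) * y),
  fun y => 15 * al * e (-(1 / 5) * y) - 15 * be * e ((1 / 5) * y),
  fun y => 15 * be * e (-(1 / 5) * y) - 15 * al * e ((1 / 5) * y),
  fun y => 5 * al * e (-(3 / 5) * y) - 5 * be * e ((3 / 5) * y)]

noncomputable def ff (k : Fin 5) (y : ℂ) : ℂ := KK * hh k y / Sf y ^ 2

lemma hh_analytic (k : Fin 5) : AnalyticAt ℂ (hh k) 0 := by
  have h1 := e_analytic (-(1 / 5))
  have h2 := e_analytic (1 / 5)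
  have h3 := e_analytic (-(3 / 5))
  have h4 := e_analytic (3 / 5)
  fin_cases k
  · change AnalyticAt ℂ (fun y => 15 * (e (-(1 / 5) * y) - e ((1 / 5) * y)) + 5 * (e (-(3 / 5) * y) - e ((3 / 5) * y))) 0
    fun_prop
  · change AnalyticAt ℂ (fun y => 5 * be * e (-(3 / 5) * y) - 5 * al * e ((3 / 5) * y)) 0
    fun_prop
  · change AnalyticAt ℂ (fun y => 15 * al * e (-(1 / 5) * y) - 15 * be * e ((1 / 5) * y)) 0
    fun_prop
  · change AnalyticAt ℂ (fun y => 15 * be * e (-(1 / 5) * y) - 15 * al * e ((1 / 5) * y)) 0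
    fun_prop
  · change AnalyticAt ℂ (fun y => 5 * al * e (-(3 / 5) * y) - 5 * be * e ((3 / 5) * y)) 0
    fun_prop

lemma ff_analytic (k : Fin 5) : AnalyticAt ℂ (ff k) 0 := by
  have h1 := hh_analytic k
  have h2 := Sf_analytic
  have h3 : Sf 0 ^ 2 ≠ 0 := by
    rw [Sf_zero]
    exact pow_ne_zero _ (by exact_mod_cast Real.pi_ne_zero)
  unfold ff
  exact (analyticAt_const.mul h1).div (h2.pow 2) h3

noncomputable def FF : Fin 5 → ℂ → ℂ := ![dslope (ff 0) 0, ff 1, ff 2, ff 3, ff 4]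

lemma FF_analytic (k : Fin 5) : AnalyticAt ℂ (FF k) 0 := by
  fin_cases k
  · exact analytic_dslope (ff_analytic 0)
  · exact ff_analytic 1
  · exact ff_analytic 2
  · exact ff_analytic 3
  · exact ff_analytic 4

noncomputable def ZM (r : ℕ) : ℂ := tau 2 r [3, 2] * tau 2 r [5] * tau 2 r [-5] / tau 2 r [0]

lemma ff0_zero : ff 0 0 = 0 := by
  simp [ff, hh]

lemma FF0_inv (r : ℕ) (hr : 2 ≤ r) : ff 0 (1 / r) = (1 / r) * FF 0 (1 / r) := by
  have hr0 : (r : ℂ) ≠ 0 := by exact_mod_cast (by omega : r ≠ 0)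
  change ff 0 (1 / r) = (1 / r) * dslope (ff 0) 0 (1 / r)
  rw [dslope_of_ne _ (by simp [hr0]), slope_def_field, ff0_zero]
  field_simp
  ring_nf

lemma ZM_form (r : ℕ) (hr : 2 ≤ r) :
    ZM r = KK * ((r : ℝ) ^ (3 / 2 : ℝ) : ℝ) / Sf (1 / r) ^ 2 * ∑ k : Fin 5, (ze ^ (k : ℕ)) ^ r * hh k (1 / r) := by
  have hr0 : (r : ℂ) ≠ 0 := by exact_mod_cast (by omega : r ≠ 0)
  have hrr : (0 : ℝ) < r := by exact_mod_cast (by omega : 0 < r)
  rw [ZM, ZM_eq r hr, Sf_inv r hr, U, U']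
  have hw : e ((1 / 5) / r) * e (-(1 / 5) / r) - 1 = 0 := by
    rw [← e_add, show (1 / 5 : ℂ) / r + -(1 / 5) / r = 0 by ring, e_zero, sub_self]
  have hab : be + al + 1 = 0 := by rw [al, be]; ring
  have ha2 : al * al + al - 1 = 0 := by
    rw [al]; linear_combination (1 / 4) * sq5
  have hz5 : (ze ^ r) ^ 5 - 1 = 0 := by rw [z5, sub_self]
  have key := key_poly al be (ze ^ r) (e ((1 / 5) / r)) (e (-(1 / 5) / r)) hw hab ha2 hz5
  have h1 : e (-(2 / 5) / r) = e (-(1 / 5) / r) ^ 2 := by rw [sq, ← e_add]; congr 1; ring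
  have h2 : e ((2 / 5) / r) = e ((1 / 5) / r) ^ 2 := by rw [sq, ← e_add]; congr 1; ring
  have h3 : e (-(3 / 5) * (1 / r)) = e (-(1 / 5) / r) ^ 3 := by rw [← e_nat_mul]; congr 1; push_cast; ring
  have h4 : e ((3 / 5) * (1 / r)) = e ((1 / 5) / r) ^ 3 := by rw [← e_nat_mul]; congr 1; push_cast; ring
  have h5 : e (-(1 / 5) * (1 / r)) = e (-(1 / 5) / r) := by congr 1; ring
  have h6 : e ((1 / 5) * (1 / r)) = e ((1 / 5) / r) := by congr 1; ring
  rw [h1, h2]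
  have h7 : (e (-(1 / 5) / r) * (1 + be * (ze ^ r) ^ 3 + al * (ze ^ r) ^ 2) - e ((1 / 5) / r) * (1 + al * (ze ^ r) ^ 3 + be * (ze ^ r) ^ 2)) *
      ((e (-(1 / 5) / r) ^ 2 * (1 + be * (ze ^ r) ^ 4 + al * ze ^ r) - (1 + 2 * (ze ^ r) ^ 4 + 2 * ze ^ r)) *
        (e ((1 / 5) / r) ^ 2 * (1 + be * ze ^ r + al * (ze ^ r) ^ 4) - (1 + 2 * (ze ^ r) ^ 4 + 2 * ze ^ r))) =
      ∑ k : Fin 5, (ze ^ (k : ℕ)) ^ r * hh k (1 / r) := by
    rw [key]
    simp only [Fin.sum_univ_five, hh, Matrix.cons_val, h3, h4, h5, h6]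
    have p0 : (ze ^ ((0 : Fin 5) : ℕ)) ^ r = 1 := by simp
    have p1 : (ze ^ ((1 : Fin 5) : ℕ)) ^ r = ze ^ r := by simp
    have p2 : (ze ^ ((2 : Fin 5) : ℕ)) ^ r = (ze ^ r) ^ 2 := by rw [← pow_mul, ← pow_mul, mul_comm]; rfl
    have p3 : (ze ^ ((3 : Fin 5) : ℕ)) ^ r = (ze ^ r) ^ 3 := by rw [← pow_mul, ← pow_mul, mul_comm]; rfl
    have p4 : (ze ^ ((4 : Fin 5) : ℕ)) ^ r = (ze ^ r) ^ 4 := by rw [← pow_mul, ← pow_mul, mul_comm]; rfl
    rw [p0, p1, p2, p3, p4]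
    ring
  rw [h7, KK]
  have h8 : (((r : ℝ) ^ (3 / 2 : ℝ) : ℝ) : ℂ) = (((r : ℝ) ^ (-(1 / 2) : ℝ) : ℝ) : ℂ) * (r : ℂ) ^ 2 := by
    have : (r : ℝ) ^ (3 / 2 : ℝ) = (r : ℝ) ^ (-(1 / 2) : ℝ) * (r : ℝ) ^ 2 := by
      rw [← Real.rpow_natCast, ← Real.rpow_add hrr]; norm_num
    rw [this]; push_cast; rfl
  rw [h8]
  ring

/-- exponents -/
def dd : Fin 5 → ℚ := ![1 / 2, 3 / 2, 3 / 2, 3 / 2, 3 / 2]

lemma ZM_sum (r : ℕ) (hr : 2 ≤ r) :
    ZM r = ∑ k : Fin 5, (ze ^ (k : ℕ)) ^ r * (((r : ℝ) ^ (dd k : ℝ) : ℝ) : ℂ) * FF k (1 / r) := by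
  have hr0 : (r : ℂ) ≠ 0 := by exact_mod_cast (by omega : r ≠ 0)
  have hrr : (0 : ℝ) < r := by exact_mod_cast (by omega : 0 < r)
  rw [ZM_form r hr, Finset.mul_sum]
  refine Finset.sum_congr rfl fun k _ => ?_
  have h1 : KK * ((r : ℝ) ^ (3 / 2 : ℝ) : ℝ) / Sf (1 / r) ^ 2 * ((ze ^ (k : ℕ)) ^ r * hh k (1 / r)) =
      (ze ^ (k : ℕ)) ^ r * (((r : ℝ) ^ (3 / 2 : ℝ) : ℝ) : ℂ) * ff k (1 / r) := by
    rw [ff]; ring
  rw [h1]
  have h2 : ∀ k : Fin 5, k ≠ 0 → (dd k : ℝ) = 3 / 2 ∧ FF k = ff k := by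
    intro k hk
    fin_cases k
    · exact absurd rfl hk
    all_goals exact ⟨by simp [dd], rfl⟩
  by_cases hk : k = 0
  · subst hk
    rw [FF0_inv r hr]
    have h3 : ((dd 0 : ℚ) : ℝ) = 1 / 2 := by simp [dd]
    have h4 : (((r : ℝ) ^ (3 / 2 : ℝ) : ℝ) : ℂ) = (((r : ℝ) ^ (1 / 2 : ℝ) : ℝ) : ℂ) * (r : ℂ) := by
      have : (r : ℝ) ^ (3 / 2 : ℝ) = (r : ℝ) ^ (1 / 2 : ℝ) * (r : ℝ) := by
        nth_rewrite 3 [← Real.rpow_one (r : ℝ)]
        rw [← Real.rpow_add hrr]; norm_num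
      rw [this]; push_cast; rfl
    rw [h3, h4]
    field_simp
  · rw [(h2 k hk).1, (h2 k hk).2]

/-- phases -/
noncomputable def cc : Fin 5 → ℝ := fun k => (k : ℕ) / 5

lemma exp_cc (k : Fin 5) : Complex.exp (2 * Real.pi * Complex.I * cc k) = ze ^ (k : ℕ) := by
  rw [ze, ← e_nat_mul, e]
  congr 1
  simp only [cc]
  push_cast
  ring

lemma hasDerivAt_e (x : ℂ) : HasDerivAt (fun y : ℂ => e (x * y)) (π * Complex.I * x) 0 := by
  unfold e
  have h := (((hasDerivAt_id' (0 : ℂ)).const_mul x).const_mul (π * Complex.I)).cexp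
  simpa using h

lemma FF0_zero : FF 0 0 = ((3 * Real.sqrt 2 / (10 * Real.sqrt 5 * π) : ℝ) : ℂ) := by
  have hpi : (π : ℂ) ≠ 0 := by exact_mod_cast Real.pi_ne_zero
  have hV : (Real.sqrt 5 : ℂ) ≠ 0 := by
    have : Real.sqrt 5 ≠ 0 := by positivity
    exact_mod_cast this
  change dslope (ff 0) 0 0 = _
  rw [dslope_same]
  have h1 : HasDerivAt (hh 0) (15 * (π * Complex.I * (-(1 / 5)) - π * Complex.I * (1 / 5)) + 5 * (π * Complex.I * (-(3 / 5)) - π * Complex.I * (3 / 5))) 0 :=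
    (((hasDerivAt_e (-(1 / 5))).sub (hasDerivAt_e (1 / 5))).const_mul 15).add (((hasDerivAt_e (-(3 / 5))).sub (hasDerivAt_e (3 / 5))).const_mul 5)
  have h2 : HasDerivAt Sf (deriv Sf 0) 0 := Sf_analytic.differentiableAt.hasDerivAt
  have h3 : Sf 0 ^ 2 ≠ 0 := by
    rw [Sf_zero]
    exact pow_ne_zero _ hpi
  have h4 := (h1.const_mul KK).div (h2.pow 2) h3
  have h5 : hh 0 0 = 0 := by simp [hh]
  have h6 := h4.deriv
  have h7 : deriv (ff 0) 0 = _ := h6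
  rw [h7, Pi.pow_apply, Sf_zero, h5, KK]
  push_cast
  field_simp
  linear_combination (-(600 : ℂ) * (π : ℂ) ^ 2) * Complex.I_sq

/-- leading coefficients -/
noncomputable def vv : Fin 5 → ℝ := ![3 * Real.sqrt 2 / (10 * Real.sqrt 5 * π), Real.sqrt 2 / (8 * π ^ 2),
  3 * Real.sqrt 2 / (8 * π ^ 2), 3 * Real.sqrt 2 / (8 * π ^ 2), Real.sqrt 2 / (8 * π ^ 2)]

def II : Fin 5 → ℚ := ![0, 6, 2, 6, 2]

lemma vv_pos (k : Fin 5) : 0 < vv k := by
  have := Real.pi_pos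
  fin_cases k <;> simp only [vv, Fin.zero_eta, Fin.mk_one, Fin.reduceFinMk, Matrix.cons_val] <;> positivity

lemma FF_zero (k : Fin 5) : FF k 0 = (vv k : ℂ) * Complex.exp (2 * Real.pi * Complex.I * ((II k : ℂ) / 8)) := by
  have hpi : (π : ℂ) ≠ 0 := by exact_mod_cast Real.pi_ne_zero
  have hV : (Real.sqrt 5 : ℂ) ≠ 0 := by
    have : Real.sqrt 5 ≠ 0 := by positivity
    exact_mod_cast this
  have e2 : Complex.exp (2 * Real.pi * Complex.I * (2 / 8)) = Complex.I := by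
    rw [show (2 * Real.pi * Complex.I * (2 / 8) : ℂ) = π / 2 * Complex.I by ring, Complex.exp_pi_div_two_mul_I]
  have e6 : Complex.exp (2 * Real.pi * Complex.I * (6 / 8)) = -Complex.I := by
    rw [show (2 * Real.pi * Complex.I * (6 / 8) : ℂ) = π * Complex.I + π / 2 * Complex.I by ring, Complex.exp_add,
      Complex.exp_pi_div_two_mul_I, Complex.exp_pi_mul_I]
    ring
  fin_cases k
  · change FF 0 0 = (vv 0 : ℂ) * Complex.exp (2 * Real.pi * Complex.I * ((II 0 : ℂ) / 8))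
    rw [FF0_zero]
    simp [vv, II]
  · change ff 1 0 = (vv 1 : ℂ) * Complex.exp (2 * Real.pi * Complex.I * ((II 1 : ℂ) / 8))
    simp only [ff, hh, vv, II, Matrix.cons_val, mul_zero, e_zero, Sf_zero, KK, al, be]
    push_cast
    rw [e6]
    field_simp
    linear_combination (0 : ℂ) * sq5
  · change ff 2 0 = (vv 2 : ℂ) * Complex.exp (2 * Real.pi * Complex.I * ((II 2 : ℂ) / 8))
    simp only [ff, hh, vv, II, Matrix.cons_val, mul_zero, e_zero, Sf_zero, KK, al, be]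
    push_cast
    rw [e2]
    field_simp
    linear_combination (0 : ℂ) * sq5
  · change ff 3 0 = (vv 3 : ℂ) * Complex.exp (2 * Real.pi * Complex.I * ((II 3 : ℂ) / 8))
    simp only [ff, hh, vv, II, Matrix.cons_val, mul_zero, e_zero, Sf_zero, KK, al, be]
    push_cast
    rw [e6]
    field_simp
    linear_combination (0 : ℂ) * sq5
  · change ff 4 0 = (vv 4 : ℂ) * Complex.exp (2 * Real.pi * Complex.I * ((II 4 : ℂ) / 8))
    simp only [ff, hh, vv, II, Matrix.cons_val, mul_zero, e_zero, Sf_zero, KK, al, be]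
    push_cast
    rw [e2]
    field_simp
    linear_combination (0 : ℂ) * sq5

/-- the expansion exists -/
theorem expansion_exists : ∃ a, IsExpansion ZM 4 cc dd II vv a :=
  AE.isExpansion_of ZM 4 cc dd II vv FF FF_analytic vv_pos FF_zero (fun r hr => by
    rw [ZM_sum r hr]
    refine Finset.sum_congr rfl fun k _ => ?_
    rw [exp_cc])

lemma norm_ze : ‖ze‖ = 1 := by
  have := norm_e (2 / 5)
  push_cast at this
  exact this

theorem exponent_unique (d I : Fin 5 → ℚ) (v : Fin 5 → ℝ) (a : Fin 5 → ℕ → ℂ) (h : IsExpansion ZM 4 cc d I v a) :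
    d 0 = 1 / 2 := by
  have h1 := AE.d0_eq h (by simp [cc]) ?_ (n := 4) (fun k => ze ^ (k : ℕ)) (fun k => (dd k : ℝ)) FF FF_analytic
    (fun k => by rw [norm_pow, norm_ze, one_pow]) (by simp) ?_ ?_ (fun r hr => ZM_sum r hr)
  · have h2 : ((d 0 : ℚ) : ℝ) = ((1 / 2 : ℚ) : ℝ) := by
      rw [h1]; simp [dd]
    exact_mod_cast h2
  · intro i j hij n hn
    simp only [cc] at hn
    have h2 : ((i : ℕ) : ℝ) - ((j : ℕ) : ℝ) = 5 * n := by linarith
    have h3 : (((i : ℕ) : ℤ) - ((j : ℕ) : ℤ)) = 5 * n := by exact_mod_cast h2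
    have h4 := i.2
    have h5 := j.2
    have h6 : (i : ℕ) ≠ (j : ℕ) := fun h => hij (Fin.ext h)
    omega
  · intro i hi h2
    rw [ze, ← e_nat_mul, e, Complex.exp_eq_one_iff] at h2
    obtain ⟨n, hn⟩ := h2
    have hpi : (π : ℂ) ≠ 0 := by exact_mod_cast Real.pi_ne_zero
    have h4 : ((i : ℕ) : ℂ) = 5 * n := by
      field_simp at hn
      linear_combination hn
    have h5 : ((i : ℕ) : ℤ) = 5 * n := by exact_mod_cast h4
    have h6 := i.2
    have h7 : (i : ℕ) ≠ 0 := fun h => hi (Fin.ext h)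
    omega
  · rw [FF0_zero]
    have : (3 * Real.sqrt 2 / (10 * Real.sqrt 5 * π) : ℝ) ≠ 0 := by
      have := Real.pi_pos
      positivity
    exact_mod_cast this

end SU2
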