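import Mathlib

/-!
# Flat SU(2)-connections on a connected sum of three lens spaces of order 5, and their cohomology
-/

set_option autoImplicit false

open Matrix

namespace WRT

/-- The group SU(2). -/
abbrev SUtwo : Type := Matrix.specialUnitaryGroup (Fin 2) ℂ

/-- The fundamental group Z/5 * Z/5 * Z/5 of a connected sum of three lens spaces of order 5. Gauge
classes of flat SU(2)-connections are its homomorphisms to SU(2) up to conjugation. -/
abbrev PiOne : Type := Monoid.CoprodI (fun _ : Fin 3 => Multiplicative (ZMod 5))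

/-- The generator of the i-th free factor Z/5. -/
def gen (i : Fin 3) : PiOne :=
  Monoid.CoprodI.of (M := fun _ : Fin 3 => Multiplicative (ZMod 5)) (i := i) (Multiplicative.ofAdd 1)

/-- The Lie algebra su(2): the traceless skew-Hermitian matrices, a real vector space. -/
def suLie : Set (Matrix (Fin 2) (Fin 2) ℂ) := {X | X.conjTranspose = -X ∧ X.trace = 0}

/-- The adjoint action Ad(g) X = g X g⁻¹. -/
def adj (g : SUtwo) (X : Matrix (Fin 2) (Fin 2) ℂ) : Matrix (Fin 2) (Fin 2) ℂ := g.1 * X * (g⁻¹).1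

/-- H^0(M; d_A) for the flat connection A with holonomy ρ: the elements of su(2) fixed by the adjoint
action; a real vector space. -/
def spaceH0 (ρ : PiOne →* SUtwo) : Set (Matrix (Fin 2) (Fin 2) ℂ) :=
  {X | X ∈ suLie ∧ ∀ g, adj (ρ g) X = X}

/-- The 1-cocycles of the fundamental group with values in su(2), for the adjoint action; a real vector
space. -/
def spaceZ1 (ρ : PiOne →* SUtwo) : Set (PiOne → Matrix (Fin 2) (Fin 2) ℂ) :=
  {f | (∀ g, f g ∈ suLie) ∧ ∀ g h, f (g * h) = f g + adj (ρ g) (f h)}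

/-- The 1-coboundaries; a real vector space. -/
def spaceB1 (ρ : PiOne →* SUtwo) : Set (PiOne → Matrix (Fin 2) (Fin 2) ℂ) :=
  {f | ∃ X ∈ suLie, ∀ g, f g = adj (ρ g) X - X}

/-- h^0 = dim H^0(M; d_A), the real dimension. -/
noncomputable def h0 (ρ : PiOne →* SUtwo) : ℤ := Set.finrank ℝ (spaceH0 ρ)

/-- h^1 = dim H^1(M; d_A), H^1 of the fundamental group with values in su(2): the real dimension of the
space of 1-cocycles minus the real dimension of the space of 1-coboundaries. -/
noncomputable def h1 (ρ : PiOne →* SUtwo) : ℤ := (Set.finrank ℝ (spaceZ1 ρ) : ℤ) - Set.finrank ℝ (spaceB1 ρ)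

/-- The Chern-Simons invariant modulo 1 of the flat SU(2)-connection with holonomy ρ on
M = L(5,2) # L(5,1) # -L(5,1) is c: the generator of the i-th free factor is mapped to a matrix with
eigenvalues exp (± 2 π i n_i / 5), i.e. of trace 2 cos (2 π n_i / 5), and c is minus
(2 n_0 ^ 2 + n_1 ^ 2 - n_2 ^ 2) / 5 modulo 1 (the Chern-Simons invariant is additive under connected sum,
and for the three summands it is -2 n ^ 2 / 5, -n ^ 2 / 5 and n ^ 2 / 5). -/
def HasCS (ρ : PiOne →* SUtwo) (c : ℝ) : Prop :=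
  ∃ n : Fin 3 → ℤ, (∀ i, (ρ (gen i)).1.trace = ((2 * Real.cos (2 * Real.pi * n i / 5) : ℝ) : ℂ)) ∧
    ∃ k : ℤ, c = k - (2 * (n 0 : ℝ) ^ 2 + (n 1 : ℝ) ^ 2 - (n 2 : ℝ) ^ 2) / 5

end WRT
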