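import Mathlib
import Pool.Agent.Helper427.Exp
import Pool.Agent.Helper427.CircleDefs
set_option autoImplicit false
open Finset Filter Asymptotics Topology
open scoped Real

namespace AE
open WRT

lemma weak_of_has {Z : ℕ → ℂ} {m : ℕ} {c : Fin (m + 1) → ℝ} (h : HasExpansion Z m c) : HasWeakExpansion Z m c := by
  obtain ⟨d, I, v, a, hv, hE⟩ := h
  refine ⟨d, fun j e => (v j : ℂ) * Complex.exp (2 * Real.pi * Complex.I * ((I j : ℂ) / 8)) * (if e = 0 then 1 else a j e), ?_⟩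
  intro E
  obtain ⟨C, hC⟩ := hE E
  refine ⟨C, fun r hr => ?_⟩
  have h1 := hC r hr
  convert h1 using 3
  refine Finset.sum_congr rfl fun j _ => ?_
  have h3 : (1 + ∑ e ∈ Finset.Icc 1 E, a j e * ((r : ℂ) ^ e)⁻¹) = ∑ e ∈ range (E + 1), (if e = 0 then 1 else a j e) * ((r : ℂ) ^ e)⁻¹ := by
    rw [Finset.sum_range_succ']
    simp only [if_true, pow_zero, inv_one, mul_one, Nat.succ_ne_zero, if_false]
    rw [add_comm]
    congr 1
    rw [Finset.range_eq_Ico, Finset.sum_Ico_add' (fun e => a j e * ((r : ℂ) ^ e)⁻¹) 0 E 1]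
    rfl
  rw [h3, Finset.mul_sum, Finset.mul_sum]
  refine Finset.sum_congr rfl fun e _ => ?_
  have h4 : Complex.exp (2 * Real.pi * Complex.I * (r * (c j : ℂ) + (I j : ℂ) / 8)) =
      Complex.exp (2 * Real.pi * Complex.I * (r * (c j : ℂ))) * Complex.exp (2 * Real.pi * Complex.I * ((I j : ℂ) / 8)) := by
    rw [← Complex.exp_add]; congr 1; ring
  rw [h4]
  ring

/-- The coefficients of two expansions of the same function agree. -/
theorem compareW {Z : ℕ → ℂ} {m : ℕ} {c : Fin (m + 1) → ℝ} (h : HasWeakExpansion Z m c)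
    {ι : Type} [DecidableEq ι] (J : Finset ι) (B z : ι → ℂ) (s : ι → ℝ) (f : ι → ℂ → ℂ) (hf : ∀ i ∈ J, AnalyticAt ℂ (f i) 0)
    (hz : ∀ i ∈ J, ‖z i‖ = 1)
    (hZ : ∀ r : ℕ, 2 ≤ r → Z r = ∑ i ∈ J, B i * z i ^ r * (((r : ℝ) ^ s i : ℝ) : ℂ) * f i (1 / r)) :
    ∃ (d : Fin (m + 1) → ℚ) (b : Fin (m + 1) → ℕ → ℂ) (g : ι → ℕ → ℂ),
      (∀ i ∈ J, g i 0 = f i 0) ∧
      ∀ (z0 : ℂ), ‖z0‖ = 1 → ∀ s0 : ℝ, ∃ E K : ℕ, (∀ i ∈ J, s i - K ≤ s0 - 1) ∧
        ∑ q ∈ (Finset.univ : Finset (Fin (m + 1))) ×ˢ range (E + 1) with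
            Complex.exp (2 * Real.pi * Complex.I * c q.1) = z0 ∧ (d q.1 : ℝ) - q.2 = s0, b q.1 q.2 =
        ∑ q ∈ J ×ˢ range K with z q.1 = z0 ∧ s q.1 - q.2 = s0, B q.1 * g q.1 q.2 := by
  obtain ⟨d, a, hE⟩ := h
  have hg : ∀ i : ι, ∃ g : ℕ → ℂ, i ∈ J → g 0 = f i 0 ∧ ∀ K : ℕ, (fun r : ℕ => f i (1 / r) -
      ∑ k ∈ range K, g k * (((r : ℝ) ^ (-(k : ℝ)) : ℝ) : ℂ)) =O[atTop] fun r : ℕ => (r : ℝ) ^ (-(K : ℝ)) := by
    intro i
    by_cases hi : i ∈ J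
    · obtain ⟨g, hg⟩ := taylor_nat (f i) (hf i hi)
      exact ⟨g, fun _ => hg⟩
    · exact ⟨0, fun h => absurd h hi⟩
  choose g hg using hg
  refine ⟨d, a, g, fun i hi => (hg i hi).1, ?_⟩
  intro z0 hz0 s0
  set D : ℝ := ((Finset.univ.sup' Finset.univ_nonempty d : ℚ) : ℝ) with hD
  obtain ⟨E, hE'⟩ := exists_nat_ge (D - s0)
  obtain ⟨K, hK⟩ : ∃ K : ℕ, ∀ i ∈ J, s i - K ≤ s0 - 1 := by
    obtain ⟨M, hM⟩ := (J.image s).bddAbove
    obtain ⟨K, hK⟩ := exists_nat_ge (M - (s0 - 1))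
    refine ⟨K, fun i hi => ?_⟩
    have := hM (Finset.mem_coe.mpr (Finset.mem_image_of_mem s hi))
    linarith
  refine ⟨E, K, hK, ?_⟩
  obtain ⟨C, hC⟩ := hE E
  -- first expansion
  have hA : (fun r : ℕ => Z r - ∑ q ∈ (Finset.univ : Finset (Fin (m + 1))) ×ˢ range (E + 1),
      a q.1 q.2 *
      Complex.exp (2 * Real.pi * Complex.I * c q.1) ^ r * (((r : ℝ) ^ ((d q.1 : ℝ) - q.2) : ℝ) : ℂ))
      =O[atTop] fun r : ℕ => (r : ℝ) ^ (s0 - 1) := by
    refine IsBigO.of_bound |C| ?_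
    filter_upwards [eventually_ge_atTop 2] with r hr
    have hr0 : (0 : ℝ) < r := by exact_mod_cast (by omega : 0 < r)
    have hr1 : (1 : ℝ) ≤ r := by exact_mod_cast (by omega : 1 ≤ r)
    have h1 := hC r hr
    have h2 : ∑ j, Complex.exp (2 * Real.pi * Complex.I * (r * (c j : ℂ))) *
          (((r : ℝ) ^ (d j : ℝ) : ℝ) : ℂ) * ∑ e ∈ Finset.range (E + 1), a j e * ((r : ℂ) ^ e)⁻¹ =
        ∑ q ∈ (Finset.univ : Finset (Fin (m + 1))) ×ˢ range (E + 1),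
      a q.1 q.2 *
      Complex.exp (2 * Real.pi * Complex.I * c q.1) ^ r * (((r : ℝ) ^ ((d q.1 : ℝ) - q.2) : ℝ) : ℂ) := by
      rw [Finset.sum_product]
      refine Finset.sum_congr rfl fun j _ => ?_
      rw [Finset.mul_sum]
      refine Finset.sum_congr rfl fun e _ => ?_
      have h4 : Complex.exp (2 * Real.pi * Complex.I * (r * (c j : ℂ))) = Complex.exp (2 * Real.pi * Complex.I * c j) ^ r := by
        rw [← Complex.exp_nat_mul]; congr 1; ring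
      have h5 : (((r : ℝ) ^ ((d j : ℝ) - e) : ℝ) : ℂ) = (((r : ℝ) ^ (d j : ℝ) : ℝ) : ℂ) * ((r : ℂ) ^ e)⁻¹ := by
        rw [Real.rpow_sub hr0, Real.rpow_natCast]; push_cast; ring
      rw [h4, h5]
      ring
    rw [← h2]
    refine h1.trans ?_
    rw [Real.norm_eq_abs, abs_of_pos (Real.rpow_pos_of_pos hr0 _)]
    refine mul_le_mul (le_abs_self C) ?_ (Real.rpow_nonneg hr0.le _) (abs_nonneg C)
    exact Real.rpow_le_rpow_of_exponent_le hr1 (by linarith)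
  -- second expansion
  have hB : (fun r : ℕ => Z r - ∑ q ∈ J ×ˢ range K, (B q.1 * g q.1 q.2) * z q.1 ^ r * (((r : ℝ) ^ (s q.1 - q.2) : ℝ) : ℂ))
      =O[atTop] fun r : ℕ => (r : ℝ) ^ (s0 - 1) := by
    have h1 : (fun r : ℕ => ∑ i ∈ J, B i * z i ^ r * (((r : ℝ) ^ s i : ℝ) : ℂ) * (f i (1 / r) -
        ∑ k ∈ range K, g i k * (((r : ℝ) ^ (-(k : ℝ)) : ℝ) : ℂ))) =O[atTop] fun r : ℕ => (r : ℝ) ^ (s0 - 1) := by
      apply IsBigO.fun_sum
      intro i hi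
      have h2 := (hg i hi).2 K
      have h3 : (fun r : ℕ => B i * z i ^ r * (((r : ℝ) ^ s i : ℝ) : ℂ)) =O[atTop] fun r : ℕ => (r : ℝ) ^ s i := by
        refine IsBigO.of_bound ‖B i‖ (Filter.Eventually.of_forall fun r => ?_)
        rw [norm_mul, norm_mul, norm_pow, hz i hi, one_pow, mul_one, Complex.norm_real]
      refine (h3.mul h2).trans ?_
      refine IsBigO.of_bound 1 ?_
      filter_upwards [eventually_ge_atTop 1] with r hr
      have hr1 : (1 : ℝ) ≤ r := by exact_mod_cast hr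
      have hr0 : (0 : ℝ) < r := by linarith
      rw [← Real.rpow_add hr0, Real.norm_eq_abs, Real.norm_eq_abs, abs_of_pos (Real.rpow_pos_of_pos hr0 _),
        abs_of_pos (Real.rpow_pos_of_pos hr0 _), one_mul]
      exact Real.rpow_le_rpow_of_exponent_le hr1 (by linarith [hK i hi])
    refine h1.congr' ?_ (EventuallyEq.refl _ _)
    filter_upwards [eventually_ge_atTop 2] with r hr
    have hr0 : (0 : ℝ) < r := by exact_mod_cast (by omega : 0 < r)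
    rw [hZ r hr, Finset.sum_product, ← Finset.sum_sub_distrib]
    refine Finset.sum_congr rfl fun i _ => ?_
    rw [mul_sub, Finset.mul_sum]
    congr 1
    refine Finset.sum_congr rfl fun k _ => ?_
    have h5 : (((r : ℝ) ^ (s i - k) : ℝ) : ℂ) = (((r : ℝ) ^ (s i) : ℝ) : ℂ) * (((r : ℝ) ^ (-(k : ℝ)) : ℝ) : ℂ) := by
      rw [sub_eq_add_neg, Real.rpow_add hr0]; push_cast; ring
    rw [h5]
    ring
  have hAB := hB.sub hA
  have key := Uniq.coeff_zero (ι := (Fin (m + 1) × ℕ) ⊕ (ι × ℕ))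
    (((Finset.univ : Finset (Fin (m + 1))) ×ˢ range (E + 1)).disjSum (J ×ˢ range K))
    (Sum.elim (fun q => Complex.exp (2 * Real.pi * Complex.I * c q.1)) (fun q => z q.1))
    (Sum.elim (fun q => a q.1 q.2) (fun q => -(B q.1 * g q.1 q.2)))
    (Sum.elim (fun q => (d q.1 : ℝ) - q.2) (fun q => s q.1 - q.2)) ?_ (s0 - 1) ?_ z0 hz0 s0 (by linarith)
  · rw [Finset.sum_filter, Finset.sum_disjSum] at key
    have key : (∑ x ∈ (Finset.univ : Finset (Fin (m + 1))) ×ˢ range (E + 1),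
        if Complex.exp (2 * Real.pi * Complex.I * c x.1) = z0 ∧ (d x.1 : ℝ) - x.2 = s0 then a x.1 x.2
        else 0) +
      ∑ x ∈ J ×ˢ range K, (if z x.1 = z0 ∧ s x.1 - x.2 = s0 then -(B x.1 * g x.1 x.2) else 0) = 0 := by
      exact key
    rw [Finset.sum_filter, Finset.sum_filter]
    have h6 : ∑ x ∈ J ×ˢ range K, (if z x.1 = z0 ∧ s x.1 - x.2 = s0 then -(B x.1 * g x.1 x.2) else 0) =
        - ∑ x ∈ J ×ˢ range K, (if z x.1 = z0 ∧ s x.1 - x.2 = s0 then (B x.1 * g x.1 x.2) else 0) := by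
      rw [← Finset.sum_neg_distrib]
      refine Finset.sum_congr rfl fun x _ => ?_
      split_ifs <;> simp
    rw [h6] at key
    linear_combination key
  · intro i hi
    rw [Finset.mem_disjSum] at hi
    rcases hi with ⟨q, _, rfl⟩ | ⟨q, hq, rfl⟩
    · simp only [Sum.elim_inl]
      rw [Complex.norm_exp]
      simp
    · simp only [Sum.elim_inr]
      exact hz _ (Finset.mem_product.mp hq).1
  · refine hAB.congr_left fun r => ?_
    rw [Finset.sum_disjSum]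
    simp only [Sum.elim_inl, Sum.elim_inr]
    have h6 : ∑ x ∈ J ×ˢ range K, -(B x.1 * g x.1 x.2) * z x.1 ^ r * (((r : ℝ) ^ (s x.1 - x.2) : ℝ) : ℂ) =
        - ∑ x ∈ J ×ˢ range K, (B x.1 * g x.1 x.2) * z x.1 ^ r * (((r : ℝ) ^ (s x.1 - x.2) : ℝ) : ℂ) := by
      rw [← Finset.sum_neg_distrib]
      refine Finset.sum_congr rfl fun x _ => ?_
      ring
    rw [h6]
    ring

end AE
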