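import Mathlib
import Pool.Agent.Helper427.Final1
import Pool.Agent.Helper427.Exp2
set_option autoImplicit false
set_option linter.constructorNameAsVariable false
open Finset
open scoped Real

namespace SU2
open WRT

lemma sum_half (r : ℕ) (hr : 1 ≤ r) : ∑ l ∈ Finset.Ico 1 r, e ((l : ℂ) ^ 2 / (2 * r)) =
    (1 / 2) * ((Real.sqrt 2 : ℂ) * (((r : ℝ) ^ (1 / 2 : ℝ) : ℝ) : ℂ) * e (1 / 4) - 1 - e (1 / 2) ^ r) := by
  have hr0 : (r : ℂ) ≠ 0 := by exact_mod_cast (by omega : r ≠ 0)
  -- full period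
  have h1 : ∑ l ∈ range (2 * r), e ((l : ℂ) ^ 2 / (2 * r)) = (Real.sqrt 2 : ℂ) * (((r : ℝ) ^ (1 / 2 : ℝ) : ℝ) : ℂ) * e (1 / 4) := by
    have h := QG_eq 1 (2 * r) one_pos (by omega) 0 (by refine ⟨r, ?_⟩; push_cast; ring)
    rw [QR_one] at h
    have h2 : QG 1 0 (2 * r) = ∑ l ∈ range (2 * r), e ((l : ℂ) ^ 2 / (2 * r)) := by
      rw [QG]
      refine Finset.sum_congr rfl fun n _ => ?_
      congr 1; push_cast; ring
    rw [← h2, h]
    have h6 : Real.sqrt (((2 * r : ℕ) : ℝ) / ((1 : ℕ) : ℝ)) = Real.sqrt 2 * (r : ℝ) ^ (1 / 2 : ℝ) := by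
      rw [← Real.sqrt_eq_rpow, ← Real.sqrt_mul (by norm_num)]
      congr 1; push_cast; ring
    have h5 : e (-(((0 : ℤ) : ℂ) ^ 2 / (4 * ((1 : ℕ) : ℂ) * ((2 * r : ℕ) : ℂ)))) = 1 := by
      simp [e_zero]
    rw [h6, h5]
    push_cast
    ring
  have h2 : ∑ l ∈ range (2 * r), e ((l : ℂ) ^ 2 / (2 * r)) = ∑ l ∈ Finset.Ico 0 r, e ((l : ℂ) ^ 2 / (2 * r)) +
      ∑ l ∈ Finset.Ico r (2 * r), e ((l : ℂ) ^ 2 / (2 * r)) := by
    rw [Finset.range_eq_Ico, Finset.sum_Ico_consecutive _ (Nat.zero_le r) (by omega)]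
  have h3 : ∑ l ∈ Finset.Ico 0 r, e ((l : ℂ) ^ 2 / (2 * r)) = 1 + ∑ l ∈ Finset.Ico 1 r, e ((l : ℂ) ^ 2 / (2 * r)) := by
    rw [Finset.sum_eq_sum_Ico_succ_bot (by omega)]
    simp [e_zero]
  have h4 : ∑ l ∈ Finset.Ico r (2 * r), e ((l : ℂ) ^ 2 / (2 * r)) = e (1 / 2) ^ r + ∑ l ∈ Finset.Ico 1 r, e ((l : ℂ) ^ 2 / (2 * r)) := by
    rw [Finset.sum_eq_sum_Ico_succ_bot (by omega)]
    congr 1
    · rw [← e_nat_mul]; congr 1; field_simp
    · have h4 := Finset.sum_Ico_reflect (fun j : ℕ => e ((j : ℂ) ^ 2 / (2 * r))) 1 (show r ≤ 2 * r + 1 by omega)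
      have h5 : 2 * r + 1 - r = r + 1 := by omega
      have h6 : 2 * r + 1 - 1 = 2 * r := by omega
      rw [h5, h6] at h4
      rw [← h4]
      refine Finset.sum_congr rfl fun j hj => ?_
      rw [Finset.mem_Ico] at hj
      rw [Nat.cast_sub (by omega)]
      refine e_congr (r - j) ?_
      push_cast
      field_simp
      ring
  rw [h2, h3, h4] at h1
  linear_combination (1 / 2) * h1

/-- coefficients, phases and exponents of the three terms -/
noncomputable def B3 : Fin 3 → ℂ := ![(1 / 2) * (Real.sqrt 2 : ℂ) * e (-(1 / 2)), -(1 / 2) * e (-(3 / 4)), -(1 / 2) * e (-(3 / 4))]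
noncomputable def z3 : Fin 3 → ℂ := ![1, 1, e (1 / 2)]
noncomputable def s3 : Fin 3 → ℝ := ![1 / 2, 0, 0]

lemma circle_form (r : ℕ) (hr : 2 ≤ r) :
    circleBundle 2 r 1 1 = ∑ i ∈ (Finset.univ : Finset (Fin 3)), B3 i * z3 i ^ r * (((r : ℝ) ^ s3 i : ℝ) : ℂ) * e (1 * (1 / r)) := by
  have hr0 : (r : ℂ) ≠ 0 := by exact_mod_cast (by omega : r ≠ 0)
  have hD := dtot_ne r hr
  rw [circleBundle, if_pos one_pos, if_neg (by norm_num), gauss_one r hr, sum_colours2]
  have h1 : ∑ l ∈ Finset.Ico 1 r, (qdim r (V l) / (dtot 2 r : ℂ)) ^ (2 - 2 * ((1 : ℕ) : ℤ)) * twist r (V l) ^ (1 : ℤ) =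
      e (-(1 / (2 * r))) * ∑ l ∈ Finset.Ico 1 r, e ((l : ℂ) ^ 2 / (2 * r)) := by
    rw [Finset.mul_sum]
    refine Finset.sum_congr rfl fun l _ => ?_
    have : (2 - 2 * ((1 : ℕ) : ℤ)) = 0 := by norm_num
    rw [this, zpow_zero, one_mul, zpow_one, twist2, ← e_add, e]
    congr 1; ring
  rw [h1, sum_half r (by omega)]
  have h2 : ((dtot 2 r : ℂ) * e (3 / 4) * e (-(3 / (2 * r))) / (dtot 2 r : ℂ))⁻¹ = e (-(3 / 4)) * e (3 / (2 * r)) := by
    rw [mul_assoc, mul_div_cancel_left₀ _ hD, mul_inv, ← e_neg, ← e_neg]; congr 2; ring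
  rw [h2]
  have h3 : e (3 / (2 * r)) * e (-(1 / (2 * r))) = e (1 * (1 / r)) := by
    rw [← e_add]; congr 1; field_simp; norm_num
  have h4 : e (-(3 / 4)) * e (1 / 4) = e (-(1 / 2)) := by
    rw [← e_add]; congr 1; norm_num
  simp only [Fin.sum_univ_three, B3, z3, s3, Matrix.cons_val, one_pow, Real.rpow_zero]
  rw [← h3, ← h4]
  push_cast
  ring

theorem no_weak_expansion (m : ℕ) (c : Fin (m + 1) → ℝ) (h0 : c 0 = 0) (hc : ∀ i j, i ≠ j → ∀ n : ℤ, c i - c j ≠ n) :
    ¬ HasWeakExpansion (fun r => circleBundle 2 r 1 1) m c := by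
  intro hE
  have hz3 : ∀ i : Fin 3, ‖z3 i‖ = 1 := by
    intro i
    have h1 := norm_e (1 / 2)
    push_cast at h1
    fin_cases i <;> simp [z3]
    simpa using h1
  obtain ⟨d, b, g, hg, hcomp⟩ := AE.compareW hE (Finset.univ : Finset (Fin 3)) B3 z3 s3 (fun _ y => e (1 * y))
    (fun i _ => e_analytic _) (fun i _ => hz3 i) (fun r hr => circle_form r hr)
  have hhalf : e (1 / 2) ≠ 1 := by
    have : e (1 / 2) = Complex.I := by
      rw [e, show (π : ℂ) * Complex.I * (1 / 2) = π / 2 * Complex.I by ring, Complex.exp_pi_div_two_mul_I]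
    rw [this]
    intro h
    have := congrArg Complex.re h
    simp at this
  -- every phase one term on the left comes from j = 0
  have hj : ∀ j : Fin (m + 1), Complex.exp (2 * Real.pi * Complex.I * c j) = 1 → j = 0 := by
    intro j h1
    by_contra hj
    rw [Complex.exp_eq_one_iff] at h1
    obtain ⟨n, hn⟩ := h1
    have hpi : (π : ℂ) ≠ 0 := by exact_mod_cast Real.pi_ne_zero
    have h4 : (c j : ℂ) = n := by
      have h5 : (2 * π * Complex.I) * ((c j : ℂ) - n) = 0 := by linear_combination hn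
      have h6 : (2 * π * Complex.I : ℂ) ≠ 0 := by
        simp [hpi]
      have := (mul_eq_zero.mp h5).resolve_left h6
      linear_combination this
    have h7 : c j = n := by exact_mod_cast h4
    exact hc j 0 hj n (by rw [h0, h7]; ring)
  -- the key step: a nonzero coefficient at (1, s0) forces d 0 - e = s0
  have key : ∀ (i : Fin 3), z3 i = 1 → B3 i ≠ 0 → (∀ i', i' ≠ i → z3 i' = 1 → ∀ k : ℕ, s3 i' - k ≠ s3 i) →
      ∃ e' : ℕ, (d 0 : ℝ) - e' = s3 i := by
    intro i hi hB hother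
    obtain ⟨E, K, hK, h⟩ := hcomp 1 (by simp) (s3 i)
    have hK1 : 0 < K := by
      have h1 := hK i (Finset.mem_univ i)
      have h2 : (1 : ℝ) ≤ K := by linarith
      exact_mod_cast (by linarith : (0 : ℝ) < K)
    rw [Finset.sum_eq_single (a := (i, 0)) (s := ((Finset.univ : Finset (Fin 3)) ×ˢ range K).filter _)] at h
    · by_contra hno
      push Not at hno
      rw [Finset.sum_eq_zero] at h
      · have h3 := hg i (Finset.mem_univ i)
        simp only [mul_zero, e_zero] at h3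
        simp only [h3, mul_one] at h
        exact hB h.symm
      · rintro ⟨j, k⟩ hq
        exfalso
        rw [Finset.mem_filter] at hq
        obtain ⟨-, h1, h2⟩ := hq
        simp only at h1 h2
        have := hj j h1
        subst this
        exact hno k h2
    · rintro ⟨i', k⟩ hq hne
      exfalso
      rw [Finset.mem_filter] at hq
      obtain ⟨-, h1, h2⟩ := hq
      simp only at h1 h2
      by_cases hii : i' = i
      · subst hii
        have : (k : ℝ) = 0 := by linarith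
        have : k = 0 := by exact_mod_cast this
        subst this
        exact hne rfl
      · exact hother i' hii h1 k h2
    · intro hq
      exfalso
      apply hq
      rw [Finset.mem_filter, Finset.mem_product]
      simp [hi, hK1]
  obtain ⟨e1, he1⟩ := key 0 (by simp [z3]) (by
      have h2 : (Real.sqrt 2 : ℂ) ≠ 0 := by
        have : Real.sqrt 2 ≠ 0 := by positivity
        exact_mod_cast this
      simp only [B3, Matrix.cons_val]
      exact mul_ne_zero (mul_ne_zero (by norm_num) h2) (e_ne _)) (by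
    intro i' hi' hz k
    fin_cases i'
    · exact absurd rfl hi'
    · simp only [s3]
      intro h
      simp at h
      have : ((-(2 * k) : ℤ) : ℝ) = ((1 : ℤ) : ℝ) := by push_cast; linarith
      have : (-(2 * k) : ℤ) = 1 := by exact_mod_cast this
      omega
    · simp [z3] at hz
      exact absurd (by simpa using hz) hhalf)
  obtain ⟨e2, he2⟩ := key 1 (by simp [z3]) (by
      simp only [B3, Matrix.cons_val]
      exact mul_ne_zero (by norm_num) (e_ne _)) (by
    intro i' hi' hz k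
    fin_cases i'
    · simp only [s3]
      intro h
      simp at h
      have : ((2 * k : ℤ) : ℝ) = ((1 : ℤ) : ℝ) := by push_cast; linarith
      have : (2 * k : ℤ) = 1 := by exact_mod_cast this
      omega
    · exact absurd rfl hi'
    · simp [z3] at hz
      exact absurd (by simpa using hz) hhalf)
  simp only [s3, Matrix.cons_val] at he1 he2
  have h9 : (2 * (e2 : ℝ) - 2 * e1) = 1 := by linarith
  have h10 : ((2 * e2 - 2 * e1 : ℤ) : ℝ) = ((1 : ℤ) : ℝ) := by push_cast; linarith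
  have h11 : (2 * e2 - 2 * e1 : ℤ) = 1 := by exact_mod_cast h10
  omega

end SU2
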