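import Mathlib
import Pool.Agent.Helper427.DjFlat

/-!
# Flat SU(2)-connections on a connected sum of three lens spaces of order 5, and their cohomology
-/

set_option autoImplicit false

open Matrix

namespace WRT

/-- The Lie algebra su(2) of traceless skew-Hermitian matrices, a real vector space. -/
def suAlg : Submodule ℝ (Matrix (Fin 2) (Fin 2) ℂ) where
  carrier := {X | X.conjTranspose = -X ∧ X.trace = 0}
  add_mem' := by
    rintro X Y ⟨h1, h2⟩ ⟨h3, h4⟩
    refine ⟨?_, ?_⟩
    · rw [Matrix.conjTranspose_add, h1, h3]; abel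
    · rw [Matrix.trace_add, h2, h4, add_zero]
  zero_mem' := by simp
  smul_mem' := by
    rintro c X ⟨h1, h2⟩
    refine ⟨?_, ?_⟩
    · rw [Matrix.conjTranspose_smul, h1]; simp
    · rw [Matrix.trace_smul, h2, smul_zero]

/-- The adjoint action Ad(g) X = g X g⁻¹ of SU(2) on su(2). -/
def Ad (g : SUtwo) : suAlg →ₗ[ℝ] suAlg where
  toFun X := ⟨g.1 * X.1 * (g⁻¹).1, by
    have h1 := X.2.1
    have h2 := X.2.2
    have hg : (g⁻¹).1 = g.1.conjTranspose := rfl
    have hg2 : g.1.conjTranspose * g.1 = 1 := g.2.1.1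
    refine ⟨?_, ?_⟩
    · rw [hg, Matrix.conjTranspose_mul, Matrix.conjTranspose_mul, Matrix.conjTranspose_conjTranspose, h1]
      simp [Matrix.mul_assoc]
    · rw [hg, Matrix.trace_mul_comm, ← Matrix.mul_assoc, hg2, Matrix.one_mul, h2]⟩
  map_add' X Y := by
    ext1
    simp [Matrix.mul_add, Matrix.add_mul]
  map_smul' c X := by
    ext1
    simp

/-- H^0(M; d_A) for the flat connection A with holonomy ρ: the vectors fixed by the adjoint action. -/
def Hzero (ρ : PiOne →* SUtwo) : Submodule ℝ suAlg where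
  carrier := {X | ∀ g, Ad (ρ g) X = X}
  add_mem' := by
    intro X Y hX hY g
    rw [map_add, hX g, hY g]
  zero_mem' := by intro g; rw [map_zero]
  smul_mem' := by
    intro c X hX g
    rw [map_smul, hX g]

/-- The 1-cocycles of the fundamental group with values in su(2), for the adjoint action. -/
def Zone (ρ : PiOne →* SUtwo) : Submodule ℝ (PiOne → suAlg) where
  carrier := {f | ∀ g h, f (g * h) = f g + Ad (ρ g) (f h)}
  add_mem' := by
    intro f f' hf hf' g h
    simp only [Pi.add_apply, hf g h, hf' g h, map_add]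
    abel
  zero_mem' := by intro g h; simp
  smul_mem' := by
    intro c f hf g h
    simp only [Pi.smul_apply, hf g h, map_smul, smul_add]

/-- The 1-coboundaries. -/
def Bone (ρ : PiOne →* SUtwo) : Submodule ℝ (PiOne → suAlg) where
  carrier := {f | ∃ X : suAlg, ∀ g, f g = Ad (ρ g) X - X}
  add_mem' := by
    rintro f f' ⟨X, hX⟩ ⟨Y, hY⟩
    refine ⟨X + Y, fun g => ?_⟩
    simp only [Pi.add_apply, hX g, hY g, map_add]
    abel
  zero_mem' := ⟨0, fun g => by simp⟩
  smul_mem' := by
    rintro c f ⟨X, hX⟩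
    refine ⟨c • X, fun g => ?_⟩
    simp only [Pi.smul_apply, hX g, map_smul, smul_sub]

/-- h^0 = dim H^0(M; d_A). -/
noncomputable def hzero (ρ : PiOne →* SUtwo) : ℤ := Module.finrank ℝ (Hzero ρ)

/-- h^1 = dim H^1(M; d_A), the cohomology H^1 of the fundamental group with values in su(2): the dimension
of the space of 1-cocycles minus the dimension of its subspace of 1-coboundaries. -/
noncomputable def hone (ρ : PiOne →* SUtwo) : ℤ :=
  (Module.finrank ℝ (Zone ρ) : ℤ) - Module.finrank ℝ (Bone ρ)

end WRT
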