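import Mathlib
import Pool.Agent.Helper427.FlatDefs
set_option autoImplicit false
open Matrix Finset

namespace WRT

/-- Ad as a monoid homomorphism -/
noncomputable def AdHom : SUtwo →* Module.End ℝ suAlg where
  toFun := Ad
  map_one' := by
    ext1 X
    ext1
    simp [Ad]
  map_mul' g h := by
    ext1 X
    ext1
    simp [Ad, Matrix.mul_assoc]

/-- the representation of the fundamental group -/
noncomputable def sig (ρ : PiOne →* SUtwo) : PiOne →* Module.End ℝ suAlg := AdHom.comp ρ

lemma sig_apply (ρ : PiOne →* SUtwo) (g : PiOne) (X : suAlg) : sig ρ g X = Ad (ρ g) X := rfl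

lemma gen_pow (i : Fin 3) : gen i ^ 5 = 1 := by
  rw [gen, ← map_pow, ← ofAdd_nsmul]
  have : (5 : ℕ) • (1 : ZMod 5) = 0 := by decide
  rw [this]; simp

lemma of_eq (i : Fin 3) (m : Multiplicative (ZMod 5)) :
    Monoid.CoprodI.of (M := fun _ : Fin 3 => Multiplicative (ZMod 5)) (i := i) m = gen i ^ (Multiplicative.toAdd m).val := by
  rw [gen, ← map_pow, ← ofAdd_nsmul]
  congr 1
  simp

/-- the operator T_i -/
noncomputable def T (ρ : PiOne →* SUtwo) (i : Fin 3) : Module.End ℝ suAlg := sig ρ (gen i)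

lemma T_pow (ρ : PiOne →* SUtwo) (i : Fin 3) : T ρ i ^ 5 = 1 := by
  rw [T, ← map_pow, gen_pow, map_one]

lemma cocycle_one {ρ : PiOne →* SUtwo} {f : PiOne → suAlg} (hf : f ∈ Zone ρ) : f 1 = 0 := by
  have h := hf 1 1
  rw [mul_one, map_one] at h
  have h2 : Ad 1 (f 1) = f 1 := by
    have := AdHom.map_one
    have h3 : Ad 1 = (1 : Module.End ℝ suAlg) := this
    rw [h3]; rfl
  rw [h2] at h
  simpa using h

lemma cocycle_pow {ρ : PiOne →* SUtwo} {f : PiOne → suAlg} (hf : f ∈ Zone ρ) (g : PiOne) (n : ℕ) :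
    f (g ^ n) = ∑ k ∈ range n, (sig ρ g ^ k) (f g) := by
  induction n with
  | zero => simp [cocycle_one hf]
  | succ n ih =>
    rw [pow_succ, hf, ih, Finset.sum_range_succ, ← sig_apply, map_pow]

lemma cocycle_mem_range {ρ : PiOne →* SUtwo} {f : PiOne → suAlg} (hf : f ∈ Zone ρ) (i : Fin 3) :
    f (gen i) ∈ LinearMap.range (T ρ i - 1) := by
  have h := cocycle_pow hf (gen i) 5
  rw [gen_pow, cocycle_one hf] at h
  change 0 = ∑ k ∈ range 5, (T ρ i ^ k) (f (gen i)) at h
  have h2 : ∀ k : ℕ, f (gen i) - (T ρ i ^ k) (f (gen i)) ∈ LinearMap.range (T ρ i - 1) := by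
    intro k
    induction k with
    | zero => simp
    | succ k ih =>
      have h3 : f (gen i) - (T ρ i ^ (k + 1)) (f (gen i)) = (f (gen i) - (T ρ i ^ k) (f (gen i))) -
          (T ρ i - 1) ((T ρ i ^ k) (f (gen i))) := by
        rw [LinearMap.sub_apply, pow_succ']
        simp
      rw [h3]
      exact Submodule.sub_mem _ ih ⟨_, rfl⟩
  have h4 : f (gen i) = (5 : ℝ)⁻¹ • ∑ k ∈ range 5, (f (gen i) - (T ρ i ^ k) (f (gen i))) := by
    rw [Finset.sum_sub_distrib, ← h, Finset.sum_const, Finset.card_range, sub_zero, ← Nat.cast_smul_eq_nsmul ℝ, smul_smul]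
    norm_num
  rw [h4]
  exact Submodule.smul_mem _ _ (Submodule.sum_mem _ fun k _ => h2 k)

lemma cocycle_ext {ρ : PiOne →* SUtwo} {f : PiOne → suAlg} (hf : f ∈ Zone ρ) (h : ∀ i, f (gen i) = 0) : f = 0 := by
  funext g
  induction g using Monoid.CoprodI.induction_on with
  | one => exact cocycle_one hf
  | of i m =>
    rw [of_eq, cocycle_pow hf, h i]
    simp
  | mul x y hx hy =>
    rw [hf, hx, hy]; simp

/-- affine action -/
def affHom {M V : Type*} [Monoid M] [AddCommGroup V] [Module ℝ V] (τ : M →* Module.End ℝ V) (v : V) :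
    M →* Function.End V where
  toFun m := fun x => τ m (x + v) - v
  map_one' := by
    funext x
    rw [map_one]
    change (x + v) - v = x
    abel
  map_mul' a b := by
    funext x
    change τ (a * b) (x + v) - v = τ a ((τ b (x + v) - v) + v) - v
    rw [sub_add_cancel, map_mul]
    rfl

lemma affHom_apply {M V : Type*} [Monoid M] [AddCommGroup V] [Module ℝ V] (τ : M →* Module.End ℝ V) (v : V) (m : M) (x : V) :
    affHom τ v m x = τ m (x + v) - v := rfl

/-- affine action on the i-th factor -/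
noncomputable def affi (ρ : PiOne →* SUtwo) (v : Fin 3 → suAlg) (i : Fin 3) : Multiplicative (ZMod 5) →* Function.End suAlg :=
  affHom ((sig ρ).comp (Monoid.CoprodI.of (M := fun _ : Fin 3 => Multiplicative (ZMod 5)) (i := i))) (v i)

noncomputable def aff (ρ : PiOne →* SUtwo) (v : Fin 3 → suAlg) : PiOne →* Function.End suAlg :=
  Monoid.CoprodI.lift (affi ρ v)

lemma aff_apply (ρ : PiOne →* SUtwo) (v : Fin 3 → suAlg) (g : PiOne) : ∀ x, aff ρ v g x = aff ρ v g 0 + sig ρ g x := by
  induction g using Monoid.CoprodI.induction_on with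
  | one =>
    intro x
    rw [map_one, map_one]
    change x = 0 + x
    rw [zero_add]
  | of i m =>
    intro x
    rw [aff, Monoid.CoprodI.lift_of, affi, affHom_apply, affHom_apply, map_add, zero_add]
    rw [MonoidHom.comp_apply]
    abel
  | mul a b ha hb =>
    intro x
    rw [map_mul, map_mul]
    change aff ρ v a (aff ρ v b x) = aff ρ v a (aff ρ v b 0) + sig ρ a (sig ρ b x)
    rw [hb x, ha (aff ρ v b 0 + sig ρ b x), ha (aff ρ v b 0), map_add]
    abel

lemma aff_cocycle (ρ : PiOne →* SUtwo) (v : Fin 3 → suAlg) : (fun g => aff ρ v g 0) ∈ Zone ρ := by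
  intro g h
  change aff ρ v (g * h) 0 = aff ρ v g 0 + Ad (ρ g) (aff ρ v h 0)
  rw [map_mul]
  change aff ρ v g (aff ρ v h 0) = _
  rw [aff_apply ρ v g (aff ρ v h 0)]
  rfl

lemma aff_gen (ρ : PiOne →* SUtwo) (v : Fin 3 → suAlg) (i : Fin 3) : aff ρ v (gen i) 0 = (T ρ i - 1) (v i) := by
  rw [aff, gen, Monoid.CoprodI.lift_of, affi, affHom_apply, zero_add]
  rfl

/-- evaluation of cocycles on the generators -/
noncomputable def ev (ρ : PiOne →* SUtwo) : Zone ρ →ₗ[ℝ] ((i : Fin 3) → LinearMap.range (T ρ i - 1)) where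
  toFun f := fun i => ⟨f.1 (gen i), cocycle_mem_range f.2 i⟩
  map_add' f f' := by
    funext i; ext1; rfl
  map_smul' c f := by
    funext i; ext1; rfl

lemma ev_bijective (ρ : PiOne →* SUtwo) : Function.Bijective (ev ρ) := by
  constructor
  · intro f f' h
    have h2 : f.1 - f'.1 = 0 := by
      apply cocycle_ext (Submodule.sub_mem _ f.2 f'.2)
      intro i
      have := congrArg Subtype.val (congrFun h i)
      change f.1 (gen i) - f'.1 (gen i) = 0
      exact sub_eq_zero.mpr this
    ext1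
    exact sub_eq_zero.mp h2
  · intro u
    choose v hv using fun i => (u i).2
    refine ⟨⟨fun g => aff ρ v g 0, aff_cocycle ρ v⟩, ?_⟩
    funext i
    ext1
    change aff ρ v (gen i) 0 = (u i).1
    rw [aff_gen, hv i]

/-- number of invariants of T_i -/
noncomputable def inv (ρ : PiOne →* SUtwo) (i : Fin 3) : ℕ := Module.finrank ℝ (LinearMap.ker (T ρ i - 1))

instance : FiniteDimensional ℝ suAlg := inferInstance

lemma finrank_Zone (ρ : PiOne →* SUtwo) : (Module.finrank ℝ (Zone ρ) : ℤ) = ∑ i, ((Module.finrank ℝ suAlg : ℤ) - inv ρ i) := by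
  have e := LinearEquiv.ofBijective (ev ρ) (ev_bijective ρ)
  haveI : ∀ i, Module.Free ℝ (LinearMap.range (T ρ i - 1)) := fun i =>
    @Module.Free.of_divisionRing ℝ (LinearMap.range (T ρ i - 1)) _ _ _
  rw [e.finrank_eq, Module.finrank_pi_fintype]
  push_cast
  refine Finset.sum_congr rfl fun i _ => ?_
  have h := LinearMap.finrank_range_add_finrank_ker (T ρ i - 1)
  rw [inv]
  linarith

/-- the coboundary map -/
noncomputable def delta (ρ : PiOne →* SUtwo) : suAlg →ₗ[ℝ] (PiOne → suAlg) where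
  toFun X := fun g => Ad (ρ g) X - X
  map_add' X Y := by
    funext g
    simp only [map_add, Pi.add_apply]
    abel
  map_smul' c X := by
    funext g
    simp only [map_smul, Pi.smul_apply, RingHom.id_apply, smul_sub]

lemma finrank_Bone (ρ : PiOne →* SUtwo) : (Module.finrank ℝ (Bone ρ) : ℤ) = (Module.finrank ℝ suAlg : ℤ) - Module.finrank ℝ (Hzero ρ) := by
  have h := LinearMap.finrank_range_add_finrank_ker (delta ρ)
  have h1 : LinearMap.range (delta ρ) = Bone ρ := by
    ext f
    constructor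
    · rintro ⟨X, rfl⟩
      exact ⟨X, fun g => rfl⟩
    · rintro ⟨X, hX⟩
      exact ⟨X, by funext g; exact (hX g).symm⟩
  have h2 : LinearMap.ker (delta ρ) = Hzero ρ := by
    ext X
    constructor
    · intro hX g
      have := congrFun (LinearMap.mem_ker.mp hX) g
      exact sub_eq_zero.mp this
    · intro hX
      rw [LinearMap.mem_ker]
      funext g
      exact sub_eq_zero.mpr (hX g)
  rw [h1, h2] at h
  linarith

theorem hone_sub_hzero (ρ : PiOne →* SUtwo) :
    hone ρ - hzero ρ = ∑ i, ((Module.finrank ℝ suAlg : ℤ) - inv ρ i) - Module.finrank ℝ suAlg := by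
  rw [hone, hzero, finrank_Zone, finrank_Bone]
  ring

end WRT
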