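import Mathlib
import Pool.Agent.Helper427.Flat1
set_option autoImplicit false
open Matrix Finset

namespace WRT

lemma su_entries (g : SUtwo) : g.1 1 1 = star (g.1 0 0) ∧ g.1 1 0 = -star (g.1 0 1) ∧ g.1 0 0 * g.1 1 1 - g.1 0 1 * g.1 1 0 = 1 := by
  have hdet : g.1.det = 1 := g.2.2
  have hu : g.1 * star g.1 = 1 := g.2.1.2
  have h1 : g.1.adjugate * g.1 = 1 := by rw [Matrix.adjugate_mul, hdet, one_smul]
  have h2 : star g.1 = g.1.adjugate := by
    calc star g.1 = (g.1.adjugate * g.1) * star g.1 := by rw [h1, Matrix.one_mul]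
      _ = g.1.adjugate := by rw [Matrix.mul_assoc, hu, Matrix.mul_one]
  rw [Matrix.adjugate_fin_two] at h2
  have h00 := congrFun (congrFun h2 0) 0
  have h01 := congrFun (congrFun h2 0) 1
  have h10 := congrFun (congrFun h2 1) 0
  simp [Matrix.star_apply] at h00 h01 h10
  refine ⟨by simp [← h00], by simp [h10], ?_⟩
  rw [Matrix.det_fin_two] at hdet
  exact hdet

lemma alg_entries (X : suAlg) : X.1 1 1 = - X.1 0 0 ∧ X.1 1 0 = -star (X.1 0 1) ∧ star (X.1 0 0) = - X.1 0 0 := by
  obtain ⟨h1, h2⟩ := X.2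
  have h00 := congrFun (congrFun h1 0) 0
  have h01 := congrFun (congrFun h1 0) 1
  have h10 := congrFun (congrFun h1 1) 0
  rw [Matrix.trace_fin_two] at h2
  simp only [Matrix.conjTranspose_apply, Matrix.neg_apply] at h00 h01 h10
  refine ⟨by linear_combination h2, ?_, h00⟩
  rw [h10, neg_neg]

/-- coordinates on su(2) -/
noncomputable def suEquiv : suAlg ≃ₗ[ℝ] (Fin 3 → ℝ) where
  toFun X := ![(X.1 0 0).im, (X.1 0 1).re, (X.1 0 1).im]
  map_add' X Y := by
    ext i; fin_cases i <;> simp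
  map_smul' c X := by
    ext i; fin_cases i <;> simp
  invFun v := ⟨!![(v 0 : ℂ) * Complex.I, (v 1 : ℂ) + v 2 * Complex.I; -(v 1 : ℂ) + v 2 * Complex.I, -((v 0 : ℂ) * Complex.I)], by
    constructor
    · ext i j
      fin_cases i <;> fin_cases j
      · simp [Matrix.conjTranspose_apply]
      · simp [Matrix.conjTranspose_apply]; ring
      · simp [Matrix.conjTranspose_apply]; ring
      · simp [Matrix.conjTranspose_apply]
    · simp [Matrix.trace_fin_two]⟩
  left_inv X := by
    obtain ⟨h1, h2, h3⟩ := alg_entries X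
    have h4 : (X.1 0 0).re = 0 := by
      have := congrArg Complex.re h3
      simp at this
      linarith
    ext i j
    fin_cases i <;> fin_cases j
    · change (((X.1 0 0).im : ℝ) : ℂ) * Complex.I = X.1 0 0
      apply Complex.ext <;> simp [h4]
    · change (((X.1 0 1).re : ℝ) : ℂ) + (((X.1 0 1).im : ℝ) : ℂ) * Complex.I = X.1 0 1
      apply Complex.ext <;> simp
    · change -(((X.1 0 1).re : ℝ) : ℂ) + (((X.1 0 1).im : ℝ) : ℂ) * Complex.I = X.1 1 0
      rw [h2]
      apply Complex.ext <;> simp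
    · change -((((X.1 0 0).im : ℝ) : ℂ) * Complex.I) = X.1 1 1
      rw [h1]
      apply Complex.ext <;> simp [h4]
  right_inv v := by
    ext i; fin_cases i <;> simp

lemma finrank_suAlg : Module.finrank ℝ suAlg = 3 := by
  rw [suEquiv.finrank_eq, Module.finrank_fin_fun]

lemma Ad_fix (g : SUtwo) (X : suAlg) : Ad g X = X ↔ g.1 * X.1 = X.1 * g.1 := by
  have h1 : (g⁻¹).1 * g.1 = 1 := g.2.1.1
  have h2 : g.1 * (g⁻¹).1 = 1 := g.2.1.2
  constructor
  · intro h
    have h3 : g.1 * X.1 * (g⁻¹).1 = X.1 := congrArg Subtype.val h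
    calc g.1 * X.1 = g.1 * X.1 * ((g⁻¹).1 * g.1) := by rw [h1, Matrix.mul_one]
      _ = (g.1 * X.1 * (g⁻¹).1) * g.1 := by simp only [Matrix.mul_assoc]
      _ = X.1 * g.1 := by rw [h3]
  · intro h
    ext1
    change g.1 * X.1 * (g⁻¹).1 = X.1
    rw [h, Matrix.mul_assoc, h2, Matrix.mul_one]

/-- for g not central the fixed space of Ad g is a line -/
lemma finrank_fix (g : SUtwo) (hg : (g.1 0 0).im ≠ 0 ∨ g.1 0 1 ≠ 0) :
    Module.finrank ℝ (LinearMap.ker (AdHom g - 1)) = 1 := by
  obtain ⟨h1, h2, -⟩ := su_entries g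
  set p : ℝ := (g.1 0 0).im with hp
  set w : ℂ := g.1 0 1 with hw
  set u : ℝ := (g.1 0 0).re with hu
  have hg00 : g.1 0 0 = u + p * Complex.I := (Complex.re_add_im _).symm
  have hg11 : g.1 1 1 = u - p * Complex.I := by
    rw [h1, hg00]; simp; ring
  have hgm : g.1 = !![(u : ℂ) + p * Complex.I, w; -star w, (u : ℂ) - p * Complex.I] := by
    ext i j
    fin_cases i <;> fin_cases j
    · exact hg00
    · rfl
    · exact h2
    · exact hg11
  have hmem : ∀ X : suAlg, X ∈ LinearMap.ker (AdHom g - 1) ↔ g.1 * X.1 = X.1 * g.1 := by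
    intro X
    rw [LinearMap.mem_ker, LinearMap.sub_apply, sub_eq_zero, ← Ad_fix]
    rfl
  let X0 : suAlg := suEquiv.symm ![p, w.re, w.im]
  have hX0 : X0.1 = !![(p : ℂ) * Complex.I, w; -star w, -((p : ℂ) * Complex.I)] := by
    change !![(_ : ℂ) * Complex.I, _; _, _] = _
    ext i j
    fin_cases i <;> fin_cases j
    · simp
    · apply Complex.ext <;> simp
    · apply Complex.ext <;> simp
    · simp
  have hX0ne : X0 ≠ 0 := by
    intro h
    have h3 : X0.1 = 0 := by rw [h]; rfl
    rw [hX0] at h3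
    have h00 := congrFun (congrFun h3 0) 0
    have h01 := congrFun (congrFun h3 0) 1
    simp at h00 h01
    rcases hg with h4 | h4
    · exact h4 h00
    · exact h4 h01
  have hX0k : X0 ∈ LinearMap.ker (AdHom g - 1) := by
    rw [hmem, hX0, hgm]
    ext i j
    fin_cases i <;> fin_cases j <;> simp [Matrix.mul_apply, Fin.sum_univ_two] <;> ring
  refine (@finrank_eq_one_iff_of_nonzero' ℝ (LinearMap.ker (AdHom g - 1)) _ _ _ ⟨X0, hX0k⟩
    (fun h => hX0ne (congrArg Subtype.val h))).mpr ?_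
  rintro ⟨X, hX⟩
  rw [hmem] at hX
  obtain ⟨k1, k2, k3⟩ := alg_entries X
  set a : ℝ := (X.1 0 0).im with ha
  set z : ℂ := X.1 0 1 with hz
  have h4 : (X.1 0 0).re = 0 := by
    have := congrArg Complex.re k3
    simp at this
    linarith
  have hX00 : X.1 0 0 = a * Complex.I := by
    apply Complex.ext <;> simp [h4, ha]
  have hXm : X.1 = !![(a : ℂ) * Complex.I, z; -star z, -((a : ℂ) * Complex.I)] := by
    ext i j
    fin_cases i <;> fin_cases j
    · exact hX00
    · rfl
    · exact k2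
    · rw [← hX00]; exact k1
  rw [hgm, hXm] at hX
  have e00 := congrFun (congrFun hX 0) 0
  have e01 := congrFun (congrFun hX 0) 1
  simp [Matrix.mul_apply, Fin.sum_univ_two] at e00 e01
  -- p z = a w and w * conj z = z * conj w
  have c1 : (p : ℂ) * z = a * w := by
    have : (2 * Complex.I) * ((p : ℂ) * z - a * w) = 0 := by linear_combination e01
    have h5 : (2 * Complex.I : ℂ) ≠ 0 := by simp
    have := (mul_eq_zero.mp this).resolve_left h5
    linear_combination this
  have c2 : w * (starRingEnd ℂ) z = z * (starRingEnd ℂ) w := by linear_combination -e00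
  have hc : ∃ c : ℝ, c * p = a ∧ (c : ℂ) * w = z := by
    by_cases hp0 : p = 0
    · have hw0 : w ≠ 0 := by
        rcases hg with h5 | h5
        · exact absurd hp0 h5
        · exact h5
      refine ⟨(z * (starRingEnd ℂ) w).re / Complex.normSq w, ?_, ?_⟩
      · rw [hp0] at c1
        have h6 : (a : ℂ) = 0 := by
          have : (a : ℂ) * w = 0 := by rw [← c1]; simp
          exact (mul_eq_zero.mp this).resolve_right hw0
        have h7 : a = 0 := by exact_mod_cast h6
        rw [hp0, h7]; ring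
      · have h6 : (z * (starRingEnd ℂ) w).im = 0 := by
          have := congrArg Complex.im c2
          simp at this ⊢
          linarith
        have h7 : z * (starRingEnd ℂ) w = (((z * (starRingEnd ℂ) w).re : ℝ) : ℂ) := by
          apply Complex.ext
          · simp
          · rw [h6]; simp
        have h8 : (Complex.normSq w : ℂ) ≠ 0 := by
          exact_mod_cast (Complex.normSq_pos.mpr hw0).ne'
        have h9 : (starRingEnd ℂ) w * w = (Complex.normSq w : ℂ) := by rw [mul_comm, Complex.mul_conj]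
        rw [Complex.ofReal_div, ← h7, div_mul_eq_mul_div, div_eq_iff h8, ← h9]
        ring
    · refine ⟨a / p, div_mul_cancel₀ a hp0, ?_⟩
      have hp1 : (p : ℂ) ≠ 0 := by exact_mod_cast hp0
      rw [Complex.ofReal_div, div_mul_eq_mul_div, div_eq_iff hp1]
      linear_combination -c1
  obtain ⟨c, hc1, hc2⟩ := hc
  refine ⟨c, ?_⟩
  ext1
  ext1
  change c • X0.1 = X.1
  rw [hX0, hXm]
  have hc1' : (c : ℂ) * p = a := by exact_mod_cast hc1
  have hc2' : (c : ℂ) * (starRingEnd ℂ) w = (starRingEnd ℂ) z := by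
    rw [← hc2, map_mul, Complex.conj_ofReal]
  ext i j
  fin_cases i <;> fin_cases j
  · simp; linear_combination Complex.I * hc1'
  · simp; exact hc2
  · simp; exact hc2'
  · simp; linear_combination Complex.I * hc1'

/-- the classification of elements of order dividing five -/
lemma order_five (g : SUtwo) (h5 : g ^ 5 = 1) :
    (g = 1 ∧ g.1.trace = 2) ∨ (((g.1 0 0).im ≠ 0 ∨ g.1 0 1 ≠ 0) ∧
      (g.1.trace = ((2 * Real.cos (2 * Real.pi * (1 : ℤ) / 5) : ℝ) : ℂ) ∨ g.1.trace = ((2 * Real.cos (2 * Real.pi * (2 : ℤ) / 5) : ℝ) : ℂ))) := by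
  obtain ⟨h1, h2, h3⟩ := su_entries g
  set p : ℝ := (g.1 0 0).im with hp
  set w : ℂ := g.1 0 1 with hw
  set u : ℝ := (g.1 0 0).re with hu
  have hg00 : g.1 0 0 = u + p * Complex.I := (Complex.re_add_im _).symm
  have hg11 : g.1 1 1 = u - p * Complex.I := by
    rw [h1, hg00]; simp; ring
  have htr : g.1.trace = 2 * u := by
    rw [Matrix.trace_fin_two, hg00, hg11]; ring
  have hCH : g.1 ^ 2 = (2 * u : ℂ) • g.1 - 1 := by
    rw [sq]
    ext i j
    rw [hg11, hg00] at h3
    fin_cases i <;> fin_cases j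
    · simp [Matrix.mul_apply, Fin.sum_univ_two]
      rw [hg00]
      linear_combination -h3
    · simp [Matrix.mul_apply, Fin.sum_univ_two]
      rw [hg00, hg11]
      ring
    · simp [Matrix.mul_apply, Fin.sum_univ_two]
      rw [hg00, hg11]
      ring
    · simp [Matrix.mul_apply, Fin.sum_univ_two]
      rw [hg11]
      linear_combination -h3
  have h5' : g.1 ^ 5 = 1 := congrArg Subtype.val h5
  have hpow : g.1 ^ 5 = ((2 * u : ℂ) ^ 4 - 3 * (2 * u : ℂ) ^ 2 + 1) • g.1 - ((2 * u : ℂ) ^ 3 - 2 * (2 * u : ℂ)) • (1 : Matrix (Fin 2) (Fin 2) ℂ) := by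
    have p3 : g.1 ^ 3 = ((2 * u : ℂ) ^ 2 - 1) • g.1 - (2 * u : ℂ) • (1 : Matrix (Fin 2) (Fin 2) ℂ) := by
      rw [pow_succ, hCH, Matrix.sub_mul, Matrix.smul_mul, ← sq, hCH, Matrix.one_mul, smul_sub, smul_smul]
      module
    have p5 : g.1 ^ 5 = g.1 ^ 3 * g.1 ^ 2 := by rw [← pow_add]
    rw [p5, p3, hCH, Matrix.sub_mul, Matrix.smul_mul, Matrix.smul_mul, Matrix.one_mul, Matrix.mul_sub, Matrix.mul_smul, ← sq, hCH, Matrix.mul_one]
    module
  rw [h5'] at hpow
  by_cases hsc : p = 0 ∧ w = 0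
  · left
    obtain ⟨hp0, hw0⟩ := hsc
    have e00 := congrFun (congrFun hpow 0) 0
    simp at e00
    rw [hg00, hp0] at e00
    have h6 : (u : ℂ) * u = 1 := by
      rw [hg11, hg00, hp0, hw0] at h3
      simpa using h3
    have h7 : (u : ℂ) = 1 := by
      simp at e00
      linear_combination -e00 + (-4 * u * (4 * u ^ 2 - 1)) * h6
    refine ⟨?_, by rw [htr, h7]; ring⟩
    ext i j
    fin_cases i <;> fin_cases j
    · change g.1 0 0 = _
      rw [hg00, h7, hp0]; simp
    · change g.1 0 1 = _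
      rw [← hw, hw0]; simp
    · change g.1 1 0 = _
      rw [h2, hw0]; simp
    · change g.1 1 1 = _
      rw [hg11, h7, hp0]; simp
  · right
    have hns : p ≠ 0 ∨ w ≠ 0 := by
      by_contra h
      push Not at h
      exact hsc h
    refine ⟨hns, ?_⟩
    have e00 := congrFun (congrFun hpow 0) 0
    have e11 := congrFun (congrFun hpow 1) 1
    have e01 := congrFun (congrFun hpow 0) 1
    simp at e00 e11 e01
    have hU : (2 * u : ℂ) ^ 4 - 3 * (2 * u : ℂ) ^ 2 + 1 = 0 := by
      rcases hns with h | h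
      · have hpC : (p : ℂ) ≠ 0 := by exact_mod_cast h
        have h8 : ((2 * u : ℂ) ^ 4 - 3 * (2 * u : ℂ) ^ 2 + 1) * ((p : ℂ) * Complex.I) = 0 := by
          rw [hg00] at e00
          rw [hg11] at e11
          linear_combination (1 / 2) * e11 - (1 / 2) * e00
        exact (mul_eq_zero.mp h8).resolve_right (mul_ne_zero hpC Complex.I_ne_zero)
      · rcases e01 with h9 | h9
        · exact h9
        · exact absurd h9 h
    have hV : (2 * u : ℂ) ^ 3 - 2 * (2 * u : ℂ) = -1 := by
      rw [hU] at e00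
      linear_combination e00
    have hq : (2 * u : ℂ) ^ 2 + 2 * u - 1 = 0 := by
      linear_combination (-(1 : ℂ)) * hU + (2 * u : ℂ) * hV
    have hqr : (2 * u) ^ 2 + 2 * u - 1 = 0 := by exact_mod_cast hq
    have hs5 : Real.sqrt 5 ^ 2 = 5 := Real.sq_sqrt (by norm_num)
    have hfac : (2 * u - (Real.sqrt 5 - 1) / 2) * (2 * u - (-Real.sqrt 5 - 1) / 2) = 0 := by
      linear_combination hqr - (1 / 4) * hs5
    have hc1 : Real.cos (2 * Real.pi * (1 : ℤ) / 5) = (Real.sqrt 5 - 1) / 4 := by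
      have h6 : Real.cos (2 * Real.pi * (1 : ℤ) / 5) = 2 * Real.cos (Real.pi / 5) ^ 2 - 1 := by
        rw [← Real.cos_two_mul]; congr 1; push_cast; ring
      rw [h6, Real.cos_pi_div_five]
      linear_combination (1 / 8) * hs5
    have hc2 : Real.cos (2 * Real.pi * (2 : ℤ) / 5) = (-Real.sqrt 5 - 1) / 4 := by
      have h6 : Real.cos (2 * Real.pi * (2 : ℤ) / 5) = - Real.cos (Real.pi / 5) := by
        rw [← Real.cos_pi_sub]; congr 1; push_cast; ring
      rw [h6, Real.cos_pi_div_five]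
      ring
    rcases mul_eq_zero.mp hfac with h9 | h9
    · left
      rw [htr, hc1]
      have : 2 * u = (Real.sqrt 5 - 1) / 2 := by linarith
      have h10 : (2 : ℂ) * u = (((Real.sqrt 5 - 1) / 2 : ℝ) : ℂ) := by rw [← this]; push_cast; rfl
      rw [h10]; push_cast; ring
    · right
      rw [htr, hc2]
      have : 2 * u = (-Real.sqrt 5 - 1) / 2 := by linarith
      have h10 : (2 : ℂ) * u = (((-Real.sqrt 5 - 1) / 2 : ℝ) : ℂ) := by rw [← this]; push_cast; rfl
      rw [h10]; push_cast; ring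

end WRT
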