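import Mathlib
import Pool.Agent.Helper427.Flat2
set_option autoImplicit false
open Matrix Finset

namespace WRT

lemma rho_pow (ρ : PiOne →* SUtwo) (i : Fin 3) : ρ (gen i) ^ 5 = 1 := by
  rw [← map_pow, gen_pow, map_one]

lemma cos_ne (n : ℤ) (hn : ¬ (5 : ℤ) ∣ n) : ((2 * Real.cos (2 * Real.pi * n / 5) : ℝ) : ℂ) ≠ 2 := by
  intro h
  have h1 : 2 * Real.cos (2 * Real.pi * n / 5) = 2 := by exact_mod_cast h
  have h2 : Real.cos (2 * Real.pi * n / 5) = 1 := by linarith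
  rw [Real.cos_eq_one_iff] at h2
  obtain ⟨k, hk⟩ := h2
  have hpi := Real.pi_pos
  have h3 : (n : ℝ) = 5 * k := by
    field_simp at hk
    have : (2 * Real.pi) * ((n : ℝ) - 5 * k) = 0 := by linear_combination (2 * Real.pi) * (-hk)
    rcases mul_eq_zero.mp this with h4 | h4
    · linarith
    · linarith
  exact hn ⟨k, by exact_mod_cast h3⟩

lemma inv_cases (ρ : PiOne →* SUtwo) (i : Fin 3) :
    ((ρ (gen i)).1.trace = 2 ∧ inv ρ i = 3) ∨
    ((ρ (gen i)).1.trace ≠ 2 ∧ inv ρ i = 1 ∧ ((ρ (gen i)).1.trace = ((2 * Real.cos (2 * Real.pi * (1 : ℤ) / 5) : ℝ) : ℂ) ∨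
      (ρ (gen i)).1.trace = ((2 * Real.cos (2 * Real.pi * (2 : ℤ) / 5) : ℝ) : ℂ))) := by
  rcases order_five (ρ (gen i)) (rho_pow ρ i) with ⟨h1, h2⟩ | ⟨h1, h2⟩
  · left
    refine ⟨h2, ?_⟩
    have h3 : T ρ i = 1 := by
      change AdHom (ρ (gen i)) = 1
      rw [h1, map_one]
    have h4 : LinearMap.ker (T ρ i - 1) = ⊤ := by
      ext X
      simp only [LinearMap.mem_ker, Submodule.mem_top, iff_true]
      rw [LinearMap.sub_apply, h3]
      exact sub_self _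
    rw [inv, h4, finrank_top, finrank_suAlg]
  · right
    refine ⟨?_, finrank_fix _ h1, h2⟩
    rcases h2 with h3 | h3
    · rw [h3]; exact cos_ne 1 (by norm_num)
    · rw [h3]; exact cos_ne 2 (by norm_num)

theorem hone_le (ρ : PiOne →* SUtwo) : hone ρ - hzero ρ ≤ 3 := by
  rw [hone_sub_hzero, finrank_suAlg, Fin.sum_univ_three]
  have h : ∀ i, (1 : ℤ) ≤ inv ρ i := by
    intro i
    rcases inv_cases ρ i with ⟨-, h⟩ | ⟨-, h, -⟩ <;> rw [h] <;> norm_num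
  have h0 := h 0
  have h1 := h 1
  have h2 := h 2
  push_cast
  linarith

theorem hone_eq_iff (ρ : PiOne →* SUtwo) : hone ρ - hzero ρ = 3 ↔ ∀ i, (ρ (gen i)).1.trace ≠ 2 := by
  rw [hone_sub_hzero, finrank_suAlg, Fin.sum_univ_three]
  have h : ∀ i, (1 : ℤ) ≤ inv ρ i := by
    intro i
    rcases inv_cases ρ i with ⟨-, h⟩ | ⟨-, h, -⟩ <;> rw [h] <;> norm_num
  constructor
  · intro heq i htr
    have h0 := h 0
    have h1 := h 1
    have h2 := h 2
    have h3 : (inv ρ i : ℤ) = 1 := by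
      push_cast at heq
      fin_cases i
      · simp only [Fin.zero_eta]; linarith
      · simp only [Fin.mk_one]; linarith
      · simp only [Fin.reduceFinMk]; linarith
    rcases inv_cases ρ i with ⟨-, h4⟩ | ⟨h4, -, -⟩
    · rw [h4] at h3; norm_num at h3
    · exact h4 htr
  · intro hall
    have h3 : ∀ i, (inv ρ i : ℤ) = 1 := by
      intro i
      rcases inv_cases ρ i with ⟨h4, -⟩ | ⟨-, h4, -⟩
      · exact absurd h4 (hall i)
      · rw [h4]; norm_num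
    rw [h3, h3, h3]
    norm_num

/-- rotation numbers exist -/
lemma exists_rot (ρ : PiOne →* SUtwo) (i : Fin 3) :
    ∃ n : ℤ, (ρ (gen i)).1.trace = ((2 * Real.cos (2 * Real.pi * n / 5) : ℝ) : ℂ) := by
  rcases inv_cases ρ i with ⟨h, -⟩ | ⟨-, -, h | h⟩
  · exact ⟨0, by rw [h]; simp⟩
  · exact ⟨1, h⟩
  · exact ⟨2, h⟩

lemma sq_congr {n n' : ℤ} (h : ((2 * Real.cos (2 * Real.pi * n / 5) : ℝ) : ℂ) = ((2 * Real.cos (2 * Real.pi * n' / 5) : ℝ) : ℂ)) :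
    (5 : ℤ) ∣ n ^ 2 - n' ^ 2 := by
  have h1 : 2 * Real.cos (2 * Real.pi * n / 5) = 2 * Real.cos (2 * Real.pi * n' / 5) := by exact_mod_cast h
  have h2 : Real.cos (2 * Real.pi * n / 5) = Real.cos (2 * Real.pi * n' / 5) := by linarith
  rw [Real.cos_eq_cos_iff] at h2
  obtain ⟨k, hk⟩ := h2
  have hpi := Real.pi_pos
  have key : ∀ x : ℝ, (2 * Real.pi) * x = 0 → x = 0 := by
    intro x hx
    rcases mul_eq_zero.mp hx with h4 | h4
    · linarith
    · exact h4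
  rcases hk with hk | hk
  · have h3 : (n' : ℝ) = n + 5 * k := by
      have := key ((n' : ℝ) - n - 5 * k) (by linear_combination 5 * hk)
      linarith
    have h4 : n' = n + 5 * k := by exact_mod_cast h3
    exact ⟨-(k * (2 * n + 5 * k)), by rw [h4]; ring⟩
  · have h3 : (n' : ℝ) = - n + 5 * k := by
      have := key ((n' : ℝ) + n - 5 * k) (by linear_combination 5 * hk)
      linarith
    have h4 : n' = - n + 5 * k := by exact_mod_cast h3
    exact ⟨-(k * (-2 * n + 5 * k)), by rw [h4]; ring⟩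

theorem cs_unique (ρ : PiOne →* SUtwo) : ∃! j : Fin 5, HasCS ρ ((j : ℕ) / 5) := by
  choose n hn using exists_rot ρ
  refine ⟨⟨((-(2 * (n 0) ^ 2 + (n 1) ^ 2 - (n 2) ^ 2)) % 5).toNat, ?_⟩, ?_, ?_⟩
  · have h1 := Int.emod_lt_of_pos (-(2 * (n 0) ^ 2 + (n 1) ^ 2 - (n 2) ^ 2)) (show (0 : ℤ) < 5 by norm_num)
    omega
  · refine ⟨n, hn, -((-(2 * (n 0) ^ 2 + (n 1) ^ 2 - (n 2) ^ 2)) / 5), ?_⟩
    have h1 := Int.emod_nonneg (-(2 * (n 0) ^ 2 + (n 1) ^ 2 - (n 2) ^ 2)) (show (5 : ℤ) ≠ 0 by norm_num)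
    have h2 := Int.emod_add_mul_ediv (-(2 * (n 0) ^ 2 + (n 1) ^ 2 - (n 2) ^ 2)) 5
    set N := -(2 * (n 0) ^ 2 + (n 1) ^ 2 - (n 2) ^ 2) with hN
    have h3 : ((N % 5).toNat : ℤ) = N % 5 := Int.toNat_of_nonneg h1
    have h4 : (((N % 5).toNat : ℕ) : ℝ) = ((N % 5 : ℤ) : ℝ) := by
      rw [← h3]; push_cast; rfl
    simp only
    rw [h4]
    have h5 : ((N % 5 : ℤ) : ℝ) + 5 * ((N / 5 : ℤ) : ℝ) = (N : ℝ) := by exact_mod_cast h2
    have h6 : (N : ℝ) = -(2 * (n 0 : ℝ) ^ 2 + (n 1 : ℝ) ^ 2 - (n 2 : ℝ) ^ 2) := by rw [hN]; push_cast; ring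
    rw [show ((-(N / 5) : ℤ) : ℝ) = -((N / 5 : ℤ) : ℝ) by push_cast; rfl]
    linarith
  · rintro j ⟨n', hn', k, hk⟩
    have h0 := sq_congr ((hn 0).symm.trans (hn' 0))
    have h1 := sq_congr ((hn 1).symm.trans (hn' 1))
    have h2 := sq_congr ((hn 2).symm.trans (hn' 2))
    have h3 : ((j : ℕ) : ℝ) = 5 * k - (2 * (n' 0 : ℝ) ^ 2 + (n' 1 : ℝ) ^ 2 - (n' 2 : ℝ) ^ 2) := by linarith
    have h4 : ((j : ℕ) : ℤ) = 5 * k - (2 * (n' 0) ^ 2 + (n' 1) ^ 2 - (n' 2) ^ 2) := by exact_mod_cast h3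
    have h5 := j.2
    apply Fin.ext
    simp only
    omega

lemma exp_star (θ : ℝ) : Complex.exp ((θ : ℂ) * Complex.I) * star (Complex.exp ((θ : ℂ) * Complex.I)) = 1 := by
  rw [Complex.star_def, ← Complex.exp_conj, ← Complex.exp_add]
  simp

lemma exp_star' (θ : ℝ) : Complex.exp (-((θ : ℂ) * Complex.I)) * star (Complex.exp (-((θ : ℂ) * Complex.I))) = 1 := by
  rw [Complex.star_def, ← Complex.exp_conj, ← Complex.exp_add]
  simp

lemma diag_mem (θ : ℝ) : Matrix.diagonal ![Complex.exp ((θ : ℂ) * Complex.I), Complex.exp (-((θ : ℂ) * Complex.I))] ∈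
    Matrix.specialUnitaryGroup (Fin 2) ℂ := by
  rw [Matrix.mem_specialUnitaryGroup_iff]
  constructor
  · rw [Matrix.mem_unitaryGroup_iff, Matrix.star_eq_conjTranspose, Matrix.diagonal_conjTranspose, Matrix.diagonal_mul_diagonal,
      ← Matrix.diagonal_one]
    congr 1
    funext i
    fin_cases i
    · exact exp_star θ
    · exact exp_star' θ
  · rw [Matrix.det_diagonal, Fin.prod_univ_two]
    simp [← Complex.exp_add]

/-- diagonal elements -/
noncomputable def dg (n : ℤ) : SUtwo := ⟨_, diag_mem (2 * Real.pi * n / 5)⟩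

lemma dg_trace (n : ℤ) : (dg n).1.trace = ((2 * Real.cos (2 * Real.pi * n / 5) : ℝ) : ℂ) := by
  rw [dg, Matrix.trace_fin_two]
  simp only [Matrix.diagonal_apply_eq, Matrix.cons_val_zero, Matrix.cons_val_one]
  rw [Complex.ofReal_mul, Complex.ofReal_cos, Complex.cos]
  push_cast
  ring_nf

lemma dg_pow (n : ℤ) : dg n ^ 5 = 1 := by
  apply Subtype.ext
  change (dg n).1 ^ 5 = 1
  rw [dg, Matrix.diagonal_pow]
  have h1 : Complex.exp (((2 * Real.pi * n / 5 : ℝ) : ℂ) * Complex.I) ^ 5 = 1 := by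
    rw [← Complex.exp_nat_mul, Complex.exp_eq_one_iff]
    exact ⟨n, by push_cast; ring⟩
  have h2 : Complex.exp (-(((2 * Real.pi * n / 5 : ℝ) : ℂ) * Complex.I)) ^ 5 = 1 := by
    rw [← Complex.exp_nat_mul, Complex.exp_eq_one_iff]
    exact ⟨-n, by push_cast; ring⟩
  rw [← Matrix.diagonal_one]
  congr 1
  funext i
  fin_cases i
  · exact h1
  · exact h2

/-- the representation with given rotation numbers -/
noncomputable def homi (n : ℤ) : Multiplicative (ZMod 5) →* SUtwo where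
  toFun m := dg n ^ (Multiplicative.toAdd m).val
  map_one' := by simp
  map_mul' a b := by
    rw [toAdd_mul, ZMod.val_add, ← pow_eq_pow_mod _ (dg_pow n), pow_add]

noncomputable def rep (n : Fin 3 → ℤ) : PiOne →* SUtwo := Monoid.CoprodI.lift (fun i => homi (n i))

lemma rep_gen (n : Fin 3 → ℤ) (i : Fin 3) : rep n (gen i) = dg (n i) := by
  rw [rep, gen, Monoid.CoprodI.lift_of]
  change dg (n i) ^ (1 : ZMod 5).val = dg (n i)
  rw [show (1 : ZMod 5).val = 1 by decide, pow_one]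

lemma rep_cs (n : Fin 3 → ℤ) (j k : ℤ) (h : j = 5 * k - (2 * (n 0) ^ 2 + (n 1) ^ 2 - (n 2) ^ 2)) : HasCS (rep n) (j / 5) := by
  refine ⟨n, fun i => by rw [rep_gen, dg_trace], k, ?_⟩
  have h1 : (j : ℝ) = 5 * k - (2 * (n 0 : ℝ) ^ 2 + (n 1 : ℝ) ^ 2 - (n 2 : ℝ) ^ 2) := by
    rw [h]; push_cast; ring
  linarith

theorem cs_occurs (j : Fin 5) : ∃ ρ : PiOne →* SUtwo, HasCS ρ ((j : ℕ) / 5) := by
  fin_cases j
  · exact ⟨rep ![0, 0, 0], by simpa using rep_cs ![0, 0, 0] 0 0 (by simp)⟩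
  · exact ⟨rep ![0, 2, 0], by simpa using rep_cs ![0, 2, 0] 1 1 (by simp)⟩
  · exact ⟨rep ![1, 1, 0], by simpa using rep_cs ![1, 1, 0] 2 1 (by simp)⟩
  · exact ⟨rep ![1, 0, 0], by simpa using rep_cs ![1, 0, 0] 3 1 (by simp)⟩
  · exact ⟨rep ![0, 1, 0], by simpa using rep_cs ![0, 1, 0] 4 1 (by simp)⟩

theorem generic_exists : ∃ ρ : PiOne →* SUtwo, HasCS ρ 0 ∧ hone ρ - hzero ρ = 3 := by
  refine ⟨rep ![1, 2, 1], by simpa using rep_cs ![1, 2, 1] 0 1 (by simp), ?_⟩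
  rw [hone_eq_iff]
  intro i
  rw [rep_gen, dg_trace]
  apply cos_ne
  fin_cases i <;> simp

end WRT
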