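import Mathlib
import Pool.Agent.Helper427.Flat3
set_option autoImplicit false
open Matrix Finset

namespace WRT

/-- the inclusion of su(2) in the matrices -/
noncomputable def inc : suAlg →ₗ[ℝ] Matrix (Fin 2) (Fin 2) ℂ := suAlg.subtype

lemma inc_inj : Function.Injective inc := Subtype.val_injective

noncomputable def incF : (PiOne → suAlg) →ₗ[ℝ] (PiOne → Matrix (Fin 2) (Fin 2) ℂ) where
  toFun f := fun g => (f g).1
  map_add' f f' := by funext g; rfl
  map_smul' c f := by funext g; rfl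

lemma incF_inj : Function.Injective incF := by
  intro f f' h
  funext g
  apply Subtype.ext
  exact congrFun h g

lemma setfinrank_image {V W : Type*} [AddCommGroup V] [Module ℝ V] [AddCommGroup W] [Module ℝ W] (φ : V →ₗ[ℝ] W)
    (hφ : Function.Injective φ) (p : Submodule ℝ V) (S : Set W) (hS : S = φ '' (p : Set V)) :
    Set.finrank ℝ S = Module.finrank ℝ p := by
  have h1 : Submodule.span ℝ S = p.map φ := by
    rw [hS, Submodule.span_image, Submodule.span_eq]
  rw [Set.finrank, h1]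
  exact (Submodule.equivMapOfInjective φ hφ p).finrank_eq.symm

lemma h0_eq (ρ : PiOne →* SUtwo) : h0 ρ = hzero ρ := by
  rw [h0, hzero, setfinrank_image inc inc_inj (Hzero ρ) (spaceH0 ρ)]
  ext X
  constructor
  · rintro ⟨h1, h2⟩
    exact ⟨⟨X, h1⟩, fun g => Subtype.ext (h2 g), rfl⟩
  · rintro ⟨Y, hY, rfl⟩
    exact ⟨Y.2, fun g => congrArg Subtype.val (hY g)⟩

lemma h1_eq (ρ : PiOne →* SUtwo) : h1 ρ = hone ρ := by
  rw [h1, hone, setfinrank_image incF incF_inj (Zone ρ) (spaceZ1 ρ), setfinrank_image incF incF_inj (Bone ρ) (spaceB1 ρ)]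
  · ext f
    constructor
    · rintro ⟨X, h1, h2⟩
      refine ⟨fun g => Ad (ρ g) ⟨X, h1⟩ - ⟨X, h1⟩, ⟨⟨X, h1⟩, fun g => rfl⟩, ?_⟩
      funext g
      exact (h2 g).symm
    · rintro ⟨f', ⟨X, hX⟩, rfl⟩
      exact ⟨X.1, X.2, fun g => congrArg Subtype.val (hX g)⟩
  · ext f
    constructor
    · rintro ⟨h1, h2⟩
      refine ⟨fun g => ⟨f g, h1 g⟩, fun g h => Subtype.ext (h2 g h), rfl⟩
    · rintro ⟨f', hf', rfl⟩
      exact ⟨fun g => (f' g).2, fun g h => congrArg Subtype.val (hf' g h)⟩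

end WRT
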